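import Pool.Agent.W_9df192_h86.Defs

set_option autoImplicit false

/-! A1: `σ(b) / b` for rough `b`. -/

namespace Pool.Agent.W_9df192_h86

open ArithmeticFunction

/-- `σ(p b) ≤ (p + 1) σ(b)`.
Proof: every divisor of `p * b` is `d` or `p * d` with `d ∣ b`
(`Nat.divisors (p * b) ⊆ divisors b ∪ (divisors b).image (p * ·)`). -/
theorem sigma_prime_mul_le (p b : ℕ) (hp : p.Prime) (hb : 1 ≤ b) :
    sigma 1 (p * b) ≤ (p + 1) * sigma 1 b := by
  rw [sigma_one_apply, sigma_one_apply]
  have hsub : (p * b).divisors ⊆ b.divisors ∪ b.divisors.image (fun d => p * d) := by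
    intro d hd
    rw [Nat.mem_divisors] at hd
    obtain ⟨hd, _⟩ := hd
    rw [Finset.mem_union, Finset.mem_image]
    by_cases hpd : p ∣ d
    · right
      obtain ⟨e, rfl⟩ := hpd
      refine ⟨e, ?_, rfl⟩
      rw [Nat.mem_divisors]
      exact ⟨Nat.dvd_of_mul_dvd_mul_left hp.pos hd, by omega⟩
    · left
      rw [Nat.mem_divisors]
      refine ⟨?_, by omega⟩
      exact (Nat.Coprime.dvd_of_dvd_mul_left ((Nat.Prime.coprime_iff_not_dvd hp).2 hpd).symm hd)
  calc ∑ d ∈ (p * b).divisors, d
      ≤ ∑ d ∈ b.divisors ∪ b.divisors.image (fun d => p * d), d :=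
        Finset.sum_le_sum_of_subset hsub
    _ ≤ ∑ d ∈ b.divisors, d + ∑ d ∈ b.divisors.image (fun d => p * d), d := by
        rw [← Finset.sum_union_inter]
        exact Nat.le_add_right _ _
    _ = ∑ d ∈ b.divisors, d + ∑ d ∈ b.divisors, p * d := by
        congr 1
        rw [Finset.sum_image]
        intro x _ y _ hxy
        exact Nat.eq_of_mul_eq_mul_left hp.pos hxy
    _ = (p + 1) * ∑ d ∈ b.divisors, d := by
        rw [← Finset.mul_sum]
        ring

/-- If all prime factors of `b ≥ 1` are `> z` then `σ(b) ≤ b (1 + 1/z)^Ω(b)`.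
Proof: strong induction on `b`: `b = 1` or `b = p * b'` with `p = b.minFac > z`,
`Ω(b) = Ω(b') + 1`, `σ(b) ≤ (p + 1) σ(b')` and `(p + 1) / p ≤ 1 + 1 / z`. -/
theorem sigma_rough_le (z : ℕ) (hz : 1 ≤ z) (b : ℕ) (hb : 1 ≤ b)
    (hr : ∀ p : ℕ, p.Prime → p ∣ b → z < p) :
    (sigma 1 b : ℝ) ≤ b * (1 + 1 / (z : ℝ)) ^ (cardFactors b) := by
  induction b using Nat.strong_induction_on with
  | _ b ih =>
    rcases Nat.eq_or_lt_of_le hb with h1 | h1
    · subst h1
      simp
    · have hne : b ≠ 1 := by omega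
      have hp : (b.minFac).Prime := Nat.minFac_prime hne
      obtain ⟨c, hc⟩ := Nat.minFac_dvd b
      set p := b.minFac with hpdef
      have hcpos : 1 ≤ c := by
        rcases Nat.eq_zero_or_pos c with h | h
        · rw [h] at hc; omega
        · exact h
      have hclt : c < b := by
        have := hp.two_le
        nlinarith
      have hzp : z < p := hr p hp ⟨c, hc⟩
      have hih := ih c hclt hcpos (fun q hq hqc => hr q hq (by rw [hc]; exact hqc.mul_left _))
      have hsig : (sigma 1 b : ℝ) ≤ ((p : ℝ) + 1) * (sigma 1 c : ℝ) := by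
        have h := sigma_prime_mul_le p c hp hcpos
        rw [← hc] at h
        exact_mod_cast h
      have hcard : cardFactors b = cardFactors c + 1 := by
        conv_lhs => rw [hc]
        rw [cardFactors_mul hp.ne_zero (by omega), cardFactors_apply_prime hp]
        ring
      have hz0 : (0 : ℝ) < z := by exact_mod_cast hz
      have hp0 : (0 : ℝ) < p := by exact_mod_cast hp.pos
      have hp1 : (p : ℝ) + 1 ≤ p * (1 + 1 / (z : ℝ)) := by
        have h2 : (1 : ℝ) ≤ p / z := by
          rw [le_div_iff₀ hz0]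
          have : (z : ℝ) < p := by exact_mod_cast hzp
          linarith
        have h3 : (p : ℝ) * (1 + 1 / (z : ℝ)) = p + p / z := by ring
        rw [h3]
        linarith
      have hpow : (0 : ℝ) ≤ (c : ℝ) * (1 + 1 / (z : ℝ)) ^ (cardFactors c) := by positivity
      have hs0 : (0 : ℝ) ≤ (sigma 1 c : ℝ) := by positivity
      have hbc : (b : ℝ) = p * c := by exact_mod_cast hc
      calc (sigma 1 b : ℝ) ≤ ((p : ℝ) + 1) * (sigma 1 c : ℝ) := hsig
        _ ≤ (p * (1 + 1 / (z : ℝ))) * (c * (1 + 1 / (z : ℝ)) ^ (cardFactors c)) := by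
            apply mul_le_mul hp1 hih hs0 (by positivity)
        _ = b * (1 + 1 / (z : ℝ)) ^ (cardFactors b) := by
            rw [hcard, hbc, pow_succ]
            ring

end Pool.Agent.W_9df192_h86
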