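import Pool.Agent.W_9df192_h86.A1

set_option autoImplicit false

/-! A2: states of the Wirsing process. -/

namespace Pool.Agent.W_9df192_h86

open ArithmeticFunction

/-- The state `a` (a known part of each of the numbers `n, σ(n), …, σ^{m-1}(n)`) is compatible
with `n`: `a j` is a unitary divisor of `it j n`, and the cofactor has only prime factors `> z`. -/
def Comp (z m : ℕ) (a : ℕ → ℕ) (n : ℕ) : Prop :=
  ∀ j, j < m → a j ∣ it j n ∧ Nat.Coprime (a j) (it j n / a j) ∧
    ∀ p : ℕ, p.Prime → p ∣ it j n / a j → z < p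

/-- The number of prime factors of all cofactors. -/
def bud (m : ℕ) (a : ℕ → ℕ) (n : ℕ) : ℕ :=
  ∑ j ∈ Finset.range m, cardFactors (it j n / a j)

/-- Successor level, cyclically. -/
def nx (m j : ℕ) : ℕ := if j + 1 < m then j + 1 else 0

/-- The known part of `σ(it j n)` read off the state. -/
def na (m k : ℕ) (a : ℕ → ℕ) (j : ℕ) : ℕ := if j + 1 < m then a (j + 1) else k * a 0

/-- The basic identity: `σ(a_j) σ(b_j) = na_j * b_{nx j}`, where `b_j = it j n / a_j`.
Proof: `it (j+1) n = σ(a_j b_j) = σ(a_j) σ(b_j)` (coprime, `isMultiplicative_sigma`); for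
`j + 1 < m` it is `a_{j+1} b_{j+1}`, for `j + 1 = m` it is `it m n = k n = k a_0 b_0`. -/
theorem basic {z m k : ℕ} {a : ℕ → ℕ} {n : ℕ} (hn : 1 ≤ n) (hk : it m n = k * n)
    (hC : Comp z m a n) {j : ℕ} (hj : j < m) :
    sigma 1 (a j) * sigma 1 (it j n / a j) = na m k a j * (it (nx m j) n / a (nx m j)) := by
  obtain ⟨h1, h2, -⟩ := hC j hj
  rw [← isMultiplicative_sigma.map_mul_of_coprime h2, Nat.mul_div_cancel' h1, ← it_succ]
  unfold na nx
  by_cases h : j + 1 < m
  · rw [if_pos h, if_pos h, Nat.mul_div_cancel' (hC (j + 1) h).1]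
  · have hm : j + 1 = m := by omega
    rw [if_neg h, if_neg h, hm, hk, mul_assoc, Nat.mul_div_cancel' (hC 0 (by omega)).1, it_zero]

theorem A2_prod_nx (m : ℕ) (hm : 1 ≤ m) (b : ℕ → ℕ) :
    ∏ j ∈ Finset.range m, b (nx m j) = ∏ j ∈ Finset.range m, b j := by
  obtain ⟨r, rfl⟩ : ∃ r, m = r + 1 := ⟨m - 1, by omega⟩
  rw [Finset.prod_range_succ, Finset.prod_range_succ']
  congr 1
  · refine Finset.prod_congr rfl fun j hj => ?_
    have := Finset.mem_range.1 hj
    unfold nx
    rw [if_pos (by omega)]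
  · unfold nx
    rw [if_neg (by omega)]

theorem A2_exp (z B : ℕ) (hz : 2 * B ≤ z) (hz1 : 1 ≤ z) : (1 + 1 / (z : ℝ)) ^ B < 2 := by
  have hz0 : (0 : ℝ) < z := by exact_mod_cast hz1
  have h1 : (1 + 1 / (z : ℝ)) ^ B ≤ Real.exp ((B : ℝ) * (1 / z)) := by
    rw [Real.exp_nat_mul]
    refine pow_le_pow_left₀ (by positivity) ?_ _
    rw [add_comm]
    exact Real.add_one_le_exp _
  have h2 : (B : ℝ) * (1 / z) ≤ 1 / 2 := by
    have h3 : (2 : ℝ) * B ≤ z := by exact_mod_cast hz
    rw [mul_one_div, div_le_div_iff₀ hz0 two_pos]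
    linarith
  have h4 : Real.exp (1 / 2 : ℝ) < 2 := by
    have h5 : Real.exp (1 / 2 : ℝ) * Real.exp (1 / 2 : ℝ) = Real.exp 1 := by
      rw [← Real.exp_add]
      norm_num
    have h6 := Real.exp_one_lt_d9
    have h7 := Real.exp_pos (1 / 2 : ℝ)
    by_contra hcon
    push Not at hcon
    nlinarith
  exact (h1.trans (Real.exp_le_exp.2 h2)).trans_lt h4

/-- Stuck states determine `n`.
Proof: let `b_j = it j n / a_j`.  By `basic` and `hst`, `σ(b_j) = A_j * b_{nx j}` with `A_j ≥ 1`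
(cancel `σ(a_j)`).  Multiply over `j < m`: since `nx m` permutes `{0..m-1}`,
`∏ σ(b_j) = (∏ A_j) (∏ b_j)`.  By `sigma_rough_le`, `∏ σ(b_j) ≤ (∏ b_j) (1 + 1/z)^bud`, and
`(1 + 1/z)^bud ≤ exp (bud / z) ≤ exp (1/2) < 2`.  If `b_0 ≥ 2` then `∏ σ(b_j) > ∏ b_j`
(`le_sigma`, `succ_le_sigma`) so `∏ A_j ≥ 2`, contradiction.  So `b_0 = 1` and `n = a 0`. -/
theorem stuck {z m k : ℕ} {a : ℕ → ℕ} {n : ℕ} (hm : 1 ≤ m) (hn : 1 ≤ n) (hkk : 1 ≤ k)
    (hk : it m n = k * n) (hC : Comp z m a n) (hz : 2 * bud m a n ≤ z) (hz1 : 1 ≤ z)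
    (hst : ∀ j, j < m → sigma 1 (a j) ∣ na m k a j) : n = a 0 := by
  set b : ℕ → ℕ := fun j => it j n / a j with hb
  have ha : ∀ j, j < m → 1 ≤ a j := fun j hj =>
    Nat.pos_of_dvd_of_pos (hC j hj).1 (it_pos j n hn)
  have hb1 : ∀ j, j < m → 1 ≤ b j := fun j hj =>
    Nat.div_pos (Nat.le_of_dvd (it_pos j n hn) (hC j hj).1) (ha j hj)
  have hnx : ∀ j, nx m j < m := by
    intro j
    unfold nx
    split_ifs with h
    · exact h
    · omega
  have hA : ∀ j, ∃ A : ℕ, j < m → 1 ≤ A ∧ sigma 1 (b j) = A * b (nx m j) := by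
    intro j
    by_cases hj : j < m
    · obtain ⟨A, hA⟩ := hst j hj
      refine ⟨A, fun _ => ?_⟩
      have h1 := basic hn hk hC hj
      have h2 : 0 < sigma 1 (a j) := sigma_pos 1 _ (by have := ha j hj; omega)
      have h3 : 1 ≤ na m k a j := by
        unfold na
        split_ifs with h
        · exact ha _ h
        · exact Nat.mul_pos hkk (ha 0 (by omega))
      constructor
      · rcases Nat.eq_zero_or_pos A with h | h
        · rw [h, mul_zero] at hA
          omega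
        · exact h
      · rw [hA, mul_assoc] at h1
        exact Nat.eq_of_mul_eq_mul_left h2 h1
    · exact ⟨0, fun h => absurd h hj⟩
  choose A hA using hA
  have hprod : ∏ j ∈ Finset.range m, sigma 1 (b j) =
      (∏ j ∈ Finset.range m, A j) * ∏ j ∈ Finset.range m, b j := by
    rw [← A2_prod_nx m hm b, ← Finset.prod_mul_distrib]
    exact Finset.prod_congr rfl fun j hj => (hA j (Finset.mem_range.1 hj)).2
  have hpos : 0 < ∏ j ∈ Finset.range m, b j :=
    Finset.prod_pos fun j hj => hb1 j (Finset.mem_range.1 hj)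
  have hup : ((∏ j ∈ Finset.range m, sigma 1 (b j) : ℕ) : ℝ) <
      2 * ((∏ j ∈ Finset.range m, b j : ℕ) : ℝ) := by
    have h1 : ((∏ j ∈ Finset.range m, sigma 1 (b j) : ℕ) : ℝ) ≤
        ∏ j ∈ Finset.range m, ((b j : ℝ) * (1 + 1 / (z : ℝ)) ^ (cardFactors (b j))) := by
      push_cast
      refine Finset.prod_le_prod (fun j _ => Nat.cast_nonneg _) fun j hj => ?_
      exact sigma_rough_le z hz1 (b j) (hb1 j (Finset.mem_range.1 hj))
        (hC j (Finset.mem_range.1 hj)).2.2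
    rw [Finset.prod_mul_distrib, Finset.prod_pow_eq_pow_sum] at h1
    have h2 := A2_exp z (bud m a n) hz hz1
    have h3 : ∑ j ∈ Finset.range m, cardFactors (b j) = bud m a n := rfl
    rw [h3] at h1
    have h4 : (0 : ℝ) < ∏ j ∈ Finset.range m, (b j : ℝ) := by exact_mod_cast hpos
    push_cast at h1 ⊢
    nlinarith
  have hup' : ∏ j ∈ Finset.range m, sigma 1 (b j) < 2 * ∏ j ∈ Finset.range m, b j := by
    exact_mod_cast hup
  have hb0 : b 0 = 1 := by
    by_contra hne
    have hb2 : 2 ≤ b 0 := by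
      have := hb1 0 (by omega)
      omega
    have hlt : ∏ j ∈ Finset.range m, b j < ∏ j ∈ Finset.range m, sigma 1 (b j) := by
      refine Finset.prod_lt_prod (fun j hj => hb1 j (Finset.mem_range.1 hj))
        (fun j _ => le_sigma _) ⟨0, Finset.mem_range.2 (by omega), ?_⟩
      exact succ_le_sigma _ hb2
    rw [hprod] at hlt hup'
    have h5 : 1 < ∏ j ∈ Finset.range m, A j := by
      by_contra hcon
      push Not at hcon
      nlinarith
    nlinarith
  have h6 := Nat.mul_div_cancel' (hC 0 (by omega)).1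
  have h7 : it 0 n / a 0 = 1 := hb0
  rw [h7, it_zero, mul_one] at h6
  exact h6.symm

end Pool.Agent.W_9df192_h86
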