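import Pool.Agent.W_9df192_h86.A2

set_option autoImplicit false

/-! A3: the extension step. -/

namespace Pool.Agent.W_9df192_h86

open ArithmeticFunction

/-- If `σ(a_j) ∤ na_j` then some prime (depending on the state only) divides the cofactor
`b_{nx j}` of every compatible `n`.
Proof: there is a prime `p` with `v_p(σ(a_j)) > v_p(na_j)` (`Nat.factorization_le_iff_dvd`);
by `basic`, `v_p(σ(a_j)) ≤ v_p(na_j) + v_p(b_{nx j})`. (Note `na_j ≠ 0` as soon as there is a
compatible `n`; if `na m k a j = 0` the statement is vacuous — or take any prime: then no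
compatible `n ≥ 1` exists, since `a i ∣ it i n ≠ 0`.) -/
theorem ext_prime {z m k : ℕ} {a : ℕ → ℕ} {j : ℕ} (hj : j < m) (hkk : 1 ≤ k)
    (hnd : ¬ sigma 1 (a j) ∣ na m k a j) :
    ∃ p : ℕ, p.Prime ∧ ∀ n : ℕ, 1 ≤ n → it m n = k * n → Comp z m a n →
      p ∣ it (nx m j) n / a (nx m j) := by
  by_cases ha0 : a j = 0
  · refine ⟨2, Nat.prime_two, fun n hn _ hC => ?_⟩
    have h1 := (hC j hj).1
    rw [ha0, zero_dvd_iff] at h1
    have := it_pos j n hn
    omega
  have hs0 : sigma 1 (a j) ≠ 0 := (sigma_pos 1 _ ha0).ne'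
  have hna : na m k a j ≠ 0 := fun h => hnd (h ▸ dvd_zero _)
  have hex : ∃ p : ℕ, (na m k a j).factorization p < (sigma 1 (a j)).factorization p := by
    by_contra hcon
    simp only [not_exists, not_lt] at hcon
    exact hnd ((Nat.factorization_le_iff_dvd hs0 hna).1 hcon)
  obtain ⟨p, hp⟩ := hex
  have hpp : p.Prime := by
    by_contra hnp
    rw [Nat.factorization_eq_zero_of_not_prime _ hnp, Nat.factorization_eq_zero_of_not_prime _ hnp] at hp
    omega
  refine ⟨p, hpp, fun n hn hk hC => ?_⟩
  have hb := basic hn hk hC hj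
  by_contra hnd2
  have h1 : p ^ (sigma 1 (a j)).factorization p ∣ na m k a j * (it (nx m j) n / a (nx m j)) := by
    rw [← hb]
    exact (Nat.ordProj_dvd _ _).mul_right _
  have hco : Nat.Coprime (p ^ (sigma 1 (a j)).factorization p) (it (nx m j) n / a (nx m j)) :=
    Nat.Coprime.pow_left _ ((Nat.Prime.coprime_iff_not_dvd hpp).2 hnd2)
  have h2 := hco.dvd_of_dvd_mul_right h1
  have h3 := (hpp.pow_dvd_iff_le_factorization hna).1 h2
  omega

/-- Update of a state.
Proof: `b_i = it i n / a_i`, `e = v_p(b_i) ≥ 1`; `it i n / (a_i p^e) = b_i / p^e`, which is coprime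
to `a_i p^e`, and `Ω(b_i / p^e) = Ω(b_i) - e`. -/
theorem update_state {z m : ℕ} {a : ℕ → ℕ} {n i p : ℕ} (hi : i < m) (hn : 1 ≤ n)
    (hC : Comp z m a n) (hp : p.Prime) (hpd : p ∣ it i n / a i) :
    ∃ e : ℕ, 1 ≤ e ∧ Comp z m (Function.update a i (a i * p ^ e)) n ∧
      bud m (Function.update a i (a i * p ^ e)) n + e = bud m a n := by
  obtain ⟨hdvd, hco, hz⟩ := hC i hi
  have hit := it_pos i n hn
  set b := it i n / a i with hb
  have hab : a i * b = it i n := Nat.mul_div_cancel' hdvd
  have hb0 : b ≠ 0 := by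
    intro h
    rw [h] at hab
    omega
  have ha0 : a i ≠ 0 := by
    intro h
    rw [h] at hab
    omega
  set e := b.factorization p with he
  set c := b / p ^ e with hc
  have hbc : p ^ e * c = b := Nat.ordProj_mul_ordCompl_eq_self b p
  have he1 : 1 ≤ e := by
    have := (hp.dvd_iff_one_le_factorization hb0).1 hpd
    exact this
  have hpe0 : 0 < p ^ e := pow_pos hp.pos _
  have hc0 : c ≠ 0 := by
    intro h
    rw [h] at hbc
    omega
  have hcb : c ∣ b := ⟨p ^ e, by rw [← hbc]; ring⟩
  have hpc : Nat.Coprime (p ^ e) c := by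
    have := Nat.coprime_ordCompl hp hb0
    exact Nat.Coprime.pow_left _ this
  have hquo : it i n / (a i * p ^ e) = c := by
    rw [← hab, ← hbc, ← mul_assoc]
    exact Nat.mul_div_cancel_left _ (Nat.mul_pos (Nat.pos_of_ne_zero ha0) hpe0)
  refine ⟨e, he1, ?_, ?_⟩
  · intro j hj
    by_cases hji : j = i
    · subst hji
      rw [Function.update_self, hquo]
      refine ⟨⟨c, ?_⟩, ?_, ?_⟩
      · rw [← hab, ← hbc]; ring
      · exact Nat.Coprime.mul_left (Nat.Coprime.coprime_dvd_right hcb hco) hpc
      · intro q hq hqc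
        exact hz q hq (hqc.trans hcb)
    · rw [Function.update_of_ne hji]
      exact hC j hj
  · unfold bud
    rw [← Finset.add_sum_erase _ _ (Finset.mem_range.2 hi), ← Finset.add_sum_erase _ _ (Finset.mem_range.2 hi)]
    rw [Function.update_self, hquo]
    have hsum : ∑ j ∈ (Finset.range m).erase i, cardFactors (it j n / Function.update a i (a i * p ^ e) j) =
        ∑ j ∈ (Finset.range m).erase i, cardFactors (it j n / a j) := by
      refine Finset.sum_congr rfl fun j hj => ?_
      rw [Function.update_of_ne (Finset.ne_of_mem_erase hj)]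
    rw [hsum, ← hb, ← hbc, cardFactors_mul hpe0.ne' hc0, cardFactors_pow, cardFactors_apply_prime hp]
    ring

end Pool.Agent.W_9df192_h86
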