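import Pool.Agent.W_9df192_h86.A3

set_option autoImplicit false

/-! A4: the core of Wirsing's argument for iterates. -/

namespace Pool.Agent.W_9df192_h86

open ArithmeticFunction

private theorem core_geom (M : ℕ) : ∑ e ∈ Finset.Icc 1 M, 2 ^ (M - e) + 1 = 2 ^ M := by
  induction M with
  | zero => simp
  | succ M ih =>
    rw [Finset.sum_Icc_succ_top (by omega)]
    have h : ∑ e ∈ Finset.Icc 1 M, 2 ^ (M + 1 - e) = 2 * ∑ e ∈ Finset.Icc 1 M, 2 ^ (M - e) := by
      rw [Finset.mul_sum]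
      refine Finset.sum_congr rfl fun e he => ?_
      have he2 := (Finset.mem_Icc.1 he).2
      rw [show M + 1 - e = (M - e) + 1 by omega, pow_succ]
      ring
    rw [h, Nat.sub_self, pow_zero, pow_succ, ← ih]
    ring

/-- Core counting lemma.  Strong induction on `M`, for all `a`, `T`.
Case 1: `∀ j < m, σ(a_j) ∣ na_j`: by `stuck` every `n ∈ T` equals `a 0`, so `T.card ≤ 1`.
Case 2: some `j < m` with `¬ σ(a_j) ∣ na_j`: take `p` from `ext_prime`, `i = nx m j < m`; by
`update_state` every `n ∈ T` lies in `T_e = {n ∈ T : Comp z m (update a i (a i * p^e)) n ∧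
bud m (update a i (a i * p^e)) n ≤ M - e}` for some `1 ≤ e ≤ M`; by induction
`T_e.card ≤ 2^(M-e)`, and `∑_{e=1}^{M} 2^(M-e) = 2^M - 1`. -/
theorem core {z m k : ℕ} (hm : 1 ≤ m) (hkk : 1 ≤ k) (hz1 : 1 ≤ z) (M : ℕ) (hM : 2 * M ≤ z) :
    ∀ (a : ℕ → ℕ) (T : Finset ℕ),
      (∀ n ∈ T, 1 ≤ n ∧ it m n = k * n ∧ Comp z m a n ∧ bud m a n ≤ M) → T.card ≤ 2 ^ M := by
  classical
  induction M using Nat.strong_induction_on with
  | _ M ih =>
  intro a T hT
  by_cases hst : ∀ j, j < m → sigma 1 (a j) ∣ na m k a j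
  · have h1 : T ⊆ {a 0} := by
      intro n hn
      obtain ⟨h1, h2, h3, h4⟩ := hT n hn
      rw [Finset.mem_singleton]
      exact stuck hm h1 hkk h2 h3 (by omega) hz1 hst
    calc T.card ≤ ({a 0} : Finset ℕ).card := Finset.card_le_card h1
      _ = 1 := Finset.card_singleton _
      _ ≤ 2 ^ M := Nat.one_le_two_pow
  · have hex : ∃ j, j < m ∧ ¬ sigma 1 (a j) ∣ na m k a j := by
      by_contra hcon
      apply hst
      intro j hj
      by_contra h
      exact hcon ⟨j, hj, h⟩
    obtain ⟨j, hj, hnd⟩ := hex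
    obtain ⟨p, hp, hpd⟩ := ext_prime (z := z) (m := m) (k := k) (a := a) hj hkk hnd
    have hi : nx m j < m := by unfold nx; split_ifs <;> omega
    have hsub : T ⊆ (Finset.Icc 1 M).biUnion (fun e => T.filter (fun n =>
        Comp z m (Function.update a (nx m j) (a (nx m j) * p ^ e)) n ∧
        bud m (Function.update a (nx m j) (a (nx m j) * p ^ e)) n ≤ M - e)) := by
      intro n hn
      obtain ⟨h1, h2, h3, h4⟩ := hT n hn
      obtain ⟨e, he1, hC, hb⟩ := update_state hi h1 h3 hp (hpd n h1 h2 h3)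
      simp only [Finset.mem_biUnion, Finset.mem_filter, Finset.mem_Icc]
      exact ⟨e, ⟨he1, by omega⟩, hn, hC, by omega⟩
    have hle : ∀ e ∈ Finset.Icc 1 M, (T.filter (fun n =>
        Comp z m (Function.update a (nx m j) (a (nx m j) * p ^ e)) n ∧
        bud m (Function.update a (nx m j) (a (nx m j) * p ^ e)) n ≤ M - e)).card ≤ 2 ^ (M - e) := by
      intro e he
      have he' := Finset.mem_Icc.1 he
      refine ih (M - e) (by omega) (by omega)
        (Function.update a (nx m j) (a (nx m j) * p ^ e)) _ ?_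
      intro n hn
      obtain ⟨hnT, hC, hb⟩ := Finset.mem_filter.1 hn
      obtain ⟨h1, h2, _, _⟩ := hT n hnT
      exact ⟨h1, h2, hC, hb⟩
    have hg := core_geom M
    calc T.card ≤ _ := Finset.card_le_card hsub
      _ ≤ ∑ e ∈ Finset.Icc 1 M, (T.filter (fun n =>
        Comp z m (Function.update a (nx m j) (a (nx m j) * p ^ e)) n ∧
        bud m (Function.update a (nx m j) (a (nx m j) * p ^ e)) n ≤ M - e)).card :=
          Finset.card_biUnion_le
      _ ≤ ∑ e ∈ Finset.Icc 1 M, 2 ^ (M - e) := Finset.sum_le_sum hle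
      _ ≤ 2 ^ M := by omega

end Pool.Agent.W_9df192_h86
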