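import Pool.Agent.W_9df192_h86.A2

set_option autoImplicit false

/-! A5: smooth parts. -/

namespace Pool.Agent.W_9df192_h86

open ArithmeticFunction

/-- The `z`-smooth part of `N`. -/
def smp (z N : ℕ) : ℕ := ∏ p ∈ N.primeFactors.filter (fun p => p ≤ z), p ^ N.factorization p

private def rgp (z N : ℕ) : ℕ :=
  ∏ p ∈ N.primeFactors.filter (fun p => ¬ p ≤ z), p ^ N.factorization p

private theorem smp_mul_rgp (z N : ℕ) (hN : 1 ≤ N) : smp z N * rgp z N = N := by
  unfold smp rgp
  rw [Finset.prod_filter_mul_prod_filter_not]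
  exact Nat.prod_factorization_pow_eq_self (by omega)

/-- Basic properties of the smooth part. (`Nat.factorization_prod_pow_eq_self`; split the product
over `N.primeFactors` into `p ≤ z` and `p > z`.) -/
theorem smp_spec (z N : ℕ) (hN : 1 ≤ N) :
    smp z N ∣ N ∧ 1 ≤ smp z N ∧ smp z N ≤ N ∧ Nat.Coprime (smp z N) (N / smp z N) ∧
    (∀ p : ℕ, p.Prime → p ∣ smp z N → p ≤ z) ∧
    (∀ p : ℕ, p.Prime → p ∣ N / smp z N → z < p) := by
  have hmul := smp_mul_rgp z N hN
  have hs : 1 ≤ smp z N := by
    rcases Nat.eq_zero_or_pos (smp z N) with h | h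
    · rw [h, zero_mul] at hmul
      omega
    · exact h
  have hq : N / smp z N = rgp z N := by
    exact Nat.div_eq_of_eq_mul_right hs hmul.symm
  refine ⟨⟨rgp z N, hmul.symm⟩, hs, Nat.le_of_dvd (by omega) ⟨rgp z N, hmul.symm⟩, ?_, ?_, ?_⟩
  · rw [hq]
    unfold smp rgp
    refine Nat.Coprime.prod_left fun p hp => Nat.Coprime.prod_right fun q hq => ?_
    rw [Finset.mem_filter] at hp hq
    refine Nat.Coprime.pow _ _ ?_
    rw [Nat.coprime_primes (Nat.prime_of_mem_primeFactors hp.1) (Nat.prime_of_mem_primeFactors hq.1)]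
    rintro rfl
    exact hq.2 hp.2
  · intro p hp hd
    unfold smp at hd
    obtain ⟨q, hq, hdq⟩ := (Prime.dvd_finsetProd_iff hp.prime _).1 hd
    rw [Finset.mem_filter] at hq
    have h1 := hp.dvd_of_dvd_pow hdq
    rw [(Nat.prime_dvd_prime_iff_eq hp (Nat.prime_of_mem_primeFactors hq.1)).1 h1]
    exact hq.2
  · intro p hp hd
    rw [hq] at hd
    unfold rgp at hd
    obtain ⟨q, hq, hdq⟩ := (Prime.dvd_finsetProd_iff hp.prime _).1 hd
    rw [Finset.mem_filter] at hq
    have h1 := hp.dvd_of_dvd_pow hdq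
    rw [(Nat.prime_dvd_prime_iff_eq hp (Nat.prime_of_mem_primeFactors hq.1)).1 h1]
    omega

/-- A number all of whose prime factors are `> z` satisfies `(z+1)^Ω(b) ≤ b`. -/
theorem pow_cardFactors_le (z b : ℕ) (hb : 1 ≤ b)
    (hr : ∀ p : ℕ, p.Prime → p ∣ b → z < p) : (z + 1) ^ (cardFactors b) ≤ b := by
  induction b using Nat.strong_induction_on with
  | _ b ih =>
    rcases Nat.eq_or_lt_of_le hb with h1 | h1
    · subst h1
      simp
    · have hne : b ≠ 1 := by omega
      have hp : (b.minFac).Prime := Nat.minFac_prime hne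
      obtain ⟨c, hc⟩ := Nat.minFac_dvd b
      set p := b.minFac with hpdef
      have hcpos : 1 ≤ c := by
        rcases Nat.eq_zero_or_pos c with h | h
        · rw [h] at hc; omega
        · exact h
      have hclt : c < b := by
        have := hp.two_le
        nlinarith
      have hzp : z < p := hr p hp ⟨c, hc⟩
      have hih := ih c hclt hcpos (fun q hq hqc => hr q hq (by rw [hc]; exact hqc.mul_left _))
      have hcard : cardFactors b = cardFactors c + 1 := by
        conv_lhs => rw [hc]
        rw [cardFactors_mul hp.ne_zero (by omega), cardFactors_apply_prime hp]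
        ring
      rw [hcard, pow_succ]
      calc (z + 1) ^ cardFactors c * (z + 1) ≤ c * p := Nat.mul_le_mul hih hzp
        _ = b := by rw [hc, mul_comm]

/-- The initial state `a_j = smp z (it j n)` is compatible, and its budget is `≤ M` as soon as
`it j n ≤ Y` for `j < m` and `Y^m < (z+1)^(M+1)`. -/
theorem init_state {z m n Y M : ℕ} (hn : 1 ≤ n) (hY : ∀ j, j < m → it j n ≤ Y)
    (hM : Y ^ m < (z + 1) ^ (M + 1)) :
    Comp z m (fun j => smp z (it j n)) n ∧ bud m (fun j => smp z (it j n)) n ≤ M := by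
  constructor
  · intro j _
    obtain ⟨h1, -, -, h4, -, h6⟩ := smp_spec z (it j n) (it_pos j n hn)
    exact ⟨h1, h4, h6⟩
  · by_contra hcon
    push Not at hcon
    have h1 : (z + 1) ^ (M + 1) ≤ (z + 1) ^ (bud m (fun j => smp z (it j n)) n) :=
      Nat.pow_le_pow_right (by omega) hcon
    have h2 : (z + 1) ^ (bud m (fun j => smp z (it j n)) n) ≤ Y ^ m := by
      unfold bud
      rw [← Finset.prod_pow_eq_pow_sum]
      calc ∏ j ∈ Finset.range m, (z + 1) ^ cardFactors (it j n / smp z (it j n))
          ≤ ∏ _j ∈ Finset.range m, Y := by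
            refine Finset.prod_le_prod' fun j hj => ?_
            obtain ⟨-, h2, -, -, -, h6⟩ := smp_spec z (it j n) (it_pos j n hn)
            have h7 : 1 ≤ it j n / smp z (it j n) := by
              obtain ⟨h1, -⟩ := smp_spec z (it j n) (it_pos j n hn)
              exact Nat.div_pos (Nat.le_of_dvd (it_pos j n hn) h1) h2
            exact (pow_cardFactors_le z _ h7 h6).trans
              ((Nat.div_le_self _ _).trans (hY j (Finset.mem_range.1 hj)))
        _ = Y ^ m := by simp
    omega

end Pool.Agent.W_9df192_h86
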