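import Pool.Agent.W_9df192_h86.A4
import Pool.Agent.W_9df192_h86.A5

set_option autoImplicit false

/-! A6: finite count. -/

namespace Pool.Agent.W_9df192_h86

open ArithmeticFunction

/-- `z`-smooth numbers up to `Y`. -/
noncomputable def smo (z Y : ℕ) : Finset ℕ := by
  classical exact (Finset.Icc 1 Y).filter (fun N => ∀ p : ℕ, p.Prime → p ∣ N → p ≤ z)

/-- Finite form of the Wirsing bound for iterates.
Proof: send `n` to `(it m n / n, fun j : Fin m => smp z (it j n))`, an element of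
`Icc 1 K ×ˢ Fintype.piFinset (fun _ => smo z Y)`; each fibre has at most `2^M` elements by `core`
(with `k` the first coordinate, `a j = smp z (it j n)` extended by `1` outside `j < m`;
`Comp` and `bud` depend on `a j`, `j < m` only) and `init_state`.
Use `Finset.card_le_mul_card_image` or `Finset.card_le_mul_card_image_of_maps_to`. -/
theorem count_le {x z m Y M K : ℕ} (hm : 1 ≤ m) (hz1 : 1 ≤ z) (hM : 2 * M ≤ z)
    (hYM : Y ^ m < (z + 1) ^ (M + 1))
    (hY : ∀ n, 1 ≤ n → n ≤ x → ∀ j, j < m → it j n ≤ Y)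
    (hK : ∀ n, 1 ≤ n → n ≤ x → it m n ≤ K * n) (T : Finset ℕ)
    (hT : ∀ n ∈ T, 1 ≤ n ∧ n ≤ x ∧ n ∣ it m n) :
    T.card ≤ K * (smo z Y).card ^ m * 2 ^ M := by
  classical
  set t : Finset (ℕ × (Fin m → ℕ)) :=
    Finset.Icc 1 K ×ˢ Fintype.piFinset (fun _ : Fin m => smo z Y) with ht
  have hcard : t.card = K * (smo z Y).card ^ m := by
    rw [ht, Finset.card_product, Nat.card_Icc, Fintype.card_piFinset, Finset.prod_const,
      Finset.card_univ, Fintype.card_fin, Nat.add_sub_cancel]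
  have hmaps : ∀ n ∈ T, ((it m n / n, fun j : Fin m => smp z (it j n)) : ℕ × (Fin m → ℕ)) ∈ t := by
    intro n hn
    obtain ⟨h1, h2, h3⟩ := hT n hn
    rw [ht, Finset.mem_product, Finset.mem_Icc, Fintype.mem_piFinset]
    refine ⟨⟨?_, ?_⟩, ?_⟩
    · exact Nat.div_pos (Nat.le_of_dvd (it_pos m n h1) h3) h1
    · exact Nat.div_le_of_le_mul ((hK n h1 h2).trans (by rw [mul_comm]))
    · intro j
      obtain ⟨q1, q2, q3, -, q5, -⟩ := smp_spec z (it j n) (it_pos j n h1)
      unfold smo
      rw [Finset.mem_filter, Finset.mem_Icc]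
      exact ⟨⟨q2, q3.trans (hY n h1 h2 j j.2)⟩, q5⟩
  have hfib : ∀ b ∈ t, (T.filter (fun n =>
      ((it m n / n, fun j : Fin m => smp z (it j n)) : ℕ × (Fin m → ℕ)) = b)).card ≤ 2 ^ M := by
    rintro ⟨k, a'⟩ hb
    rw [ht, Finset.mem_product, Finset.mem_Icc] at hb
    have hk : 1 ≤ k := hb.1.1
    refine core (z := z) (m := m) (k := k) hm hk hz1 M hM
      (fun j => if h : j < m then a' ⟨j, h⟩ else 1) _ ?_
    intro n hn
    obtain ⟨hnT, hne⟩ := Finset.mem_filter.1 hn
    obtain ⟨h1, h2, h3⟩ := hT n hnT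
    rw [Prod.mk.injEq] at hne
    obtain ⟨he1, he2⟩ := hne
    have ha : ∀ j (h : j < m), a' ⟨j, h⟩ = smp z (it j n) := by
      intro j h
      rw [← he2]
    obtain ⟨hC, hbd⟩ := init_state (z := z) (m := m) (n := n) (Y := Y) (M := M) h1
      (fun j hj => hY n h1 h2 j hj) hYM
    refine ⟨h1, ?_, ?_, ?_⟩
    · rw [← he1, Nat.div_mul_cancel h3]
    · intro j hj
      have := hC j hj
      simp only [dif_pos hj, ha j hj]
      exact this
    · refine le_trans (le_of_eq ?_) hbd
      unfold bud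
      refine Finset.sum_congr rfl fun j hj => ?_
      have hj' := Finset.mem_range.1 hj
      simp only [dif_pos hj', ha j hj']
  have := Finset.card_le_mul_card_image_of_maps_to hmaps (2 ^ M) hfib
  rw [hcard] at this
  rw [mul_comm (K * (smo z Y).card ^ m)]
  exact this

end Pool.Agent.W_9df192_h86
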