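import Pool.Agent.W_9df192_h86.A6

set_option autoImplicit false

/-! A7: very smooth numbers, by Rankin's trick. -/

namespace Pool.Agent.W_9df192_h86

/-- Number of primes in `(√z, z]` is `≤ 6 z / log z`: from `primorial_le_four_pow`
(`Chebyshev.theta_le_log4_mul_x`): `#(√z, z] * (log z)/2 ≤ θ(z) ≤ z log 4`. -/
theorem primes_le (z : ℕ) (hz : 2 ≤ z) :
    (((Finset.Icc 1 z).filter (fun p => p.Prime ∧ z < p ^ 2)).card : ℝ) ≤ 6 * z / Real.log z := by
  have hz0 : (0 : ℝ) < z := by exact_mod_cast (by omega : 0 < z)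
  have hlz : 0 < Real.log z := Real.log_pos (by exact_mod_cast (by omega : 1 < z))
  have h1 : ∀ p ∈ (Finset.Icc 1 z).filter (fun p => p.Prime ∧ z < p ^ 2),
      Real.log z / 2 ≤ Real.log p := by
    intro p hp
    rw [Finset.mem_filter] at hp
    have h2 : Real.log z ≤ Real.log ((p : ℝ) ^ 2) :=
      Real.log_le_log hz0 (by exact_mod_cast hp.2.2.le)
    rw [Real.log_pow] at h2
    push_cast at h2
    linarith
  have h2 : ((((Finset.Icc 1 z).filter (fun p => p.Prime ∧ z < p ^ 2)).card : ℝ)) *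
      (Real.log z / 2) ≤ Chebyshev.theta z := by
    rw [← nsmul_eq_mul]
    refine (Finset.card_nsmul_le_sum _ _ _ h1).trans ?_
    rw [Chebyshev.theta_eq_sum_Icc, Nat.floor_natCast]
    refine Finset.sum_le_sum_of_subset_of_nonneg ?_ ?_
    · intro p hp
      rw [Finset.mem_filter, Finset.mem_Icc] at hp
      rw [Finset.mem_filter, Finset.mem_Icc]
      exact ⟨⟨Nat.zero_le _, hp.1.2⟩, hp.2.1⟩
    · intro p hp _
      rw [Finset.mem_filter] at hp
      exact Real.log_nonneg (by exact_mod_cast hp.2.one_lt.le)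
  have h3 := Chebyshev.theta_le_log4_mul_x (x := (z : ℝ)) hz0.le
  have h4 : Real.log 4 ≤ 3 / 2 := by
    have e : (4 : ℝ) = 2 ^ 2 := by norm_num
    rw [e, Real.log_pow]
    have := Real.log_two_lt_d9
    push_cast
    linarith
  rw [le_div_iff₀ hlz]
  have h5 : Real.log 4 * (z : ℝ) ≤ 3 / 2 * z := mul_le_mul_of_nonneg_right h4 hz0.le
  nlinarith

/-- The completely multiplicative function `n ↦ n ^ (-s)`. -/
noncomputable def A7_f (s : ℝ) : ℕ →* ℝ where
  toFun n := (n : ℝ) ^ (-s)
  map_one' := by simp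
  map_mul' a b := by
    push_cast
    exact Real.mul_rpow (Nat.cast_nonneg a) (Nat.cast_nonneg b)

theorem A7_f_apply (s : ℝ) (n : ℕ) : A7_f s n = (n : ℝ) ^ (-s) := rfl

/-- Rankin: `#smo z Y ≤ Y^s ∏_{p ≤ z} (1 - p^(-s))⁻¹` with `s = 1 / log z`; for `p ≤ z`,
`(1 - p^(-s))⁻¹ = (1 - exp (-(log p / log z)))⁻¹ ≤ 2 log z / log p` (as
`1 - exp (-u) ≥ u / 2` on `[0,1]`), hence `≤ 4` if `p^2 > z` and `≤ 4 log z` always (`log p ≥ 1/2`).
So `#smo z Y ≤ exp (log Y / log z) * 4^(6 z / log z) * (4 log z)^(√z)`.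
(Euler product: `EulerProduct.summable_and_hasSum_smoothNumbers_prod_primesBelow_geometric`, or
by hand.) -/
theorem smo_le (z Y : ℕ) (hz : 3 ≤ z) (hY : 1 ≤ Y) :
    ((smo z Y).card : ℝ) ≤ Real.exp (Real.log Y / Real.log z + Real.log 4 * (6 * z / Real.log z)
      + Real.sqrt z * Real.log (4 * Real.log z)) := by
  classical
  have hz0 : (0 : ℝ) < z := by exact_mod_cast (by omega : 0 < z)
  have hz3 : (3 : ℝ) ≤ z := by exact_mod_cast hz
  have hlz : 1 < Real.log z := by
    rw [Real.lt_log_iff_exp_lt hz0]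
    have := Real.exp_one_lt_d9
    linarith
  have hlz0 : 0 < Real.log z := by linarith
  obtain ⟨s, hs⟩ : ∃ s : ℝ, s = 1 / Real.log z := ⟨_, rfl⟩
  have hs0 : 0 < s := by rw [hs]; positivity
  have hf : ∀ {p : ℕ}, p.Prime → ‖A7_f s p‖ < 1 := by
    intro p hp
    rw [A7_f_apply, Real.norm_of_nonneg (Real.rpow_nonneg (Nat.cast_nonneg p) _)]
    exact Real.rpow_lt_one_of_one_lt_of_neg (by exact_mod_cast hp.one_lt) (by linarith)
  obtain ⟨_, hprod⟩ :=
    EulerProduct.summable_and_hasSum_smoothNumbers_prod_primesBelow_geometric (f := A7_f s)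
      hf (z + 1)
  have hYpos : (0 : ℝ) < Y := by exact_mod_cast hY
  have hmem : ∀ m ∈ smo z Y, 1 ≤ m ∧ m ≤ Y ∧ m ∈ (z + 1).smoothNumbers := by
    intro m hm
    unfold smo at hm
    rw [Finset.mem_filter, Finset.mem_Icc] at hm
    refine ⟨hm.1.1, hm.1.2, ?_⟩
    rw [Nat.mem_smoothNumbers_iff_forall_le]
    refine ⟨by omega, fun p _ hp hpm => ?_⟩
    exact Nat.lt_succ_of_le (hm.2 p hp hpm)
  have h2 : ∑ m ∈ smo z Y, A7_f s m ≤ ∏ p ∈ (z + 1).primesBelow, (1 - A7_f s p)⁻¹ := by
    rw [← hprod.tsum_eq]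
    rw [← Finset.sum_subtype_of_mem (p := fun m => m ∈ (z + 1).smoothNumbers)
      (fun m => A7_f s m) (fun m hm => (hmem m hm).2.2)]
    refine hprod.summable.sum_le_tsum _ fun m _ => ?_
    rw [A7_f_apply]
    exact Real.rpow_nonneg (Nat.cast_nonneg _) _
  have h3 : ((smo z Y).card : ℝ) ≤ (Y : ℝ) ^ s * ∑ m ∈ smo z Y, A7_f s m := by
    rw [Finset.mul_sum, Finset.card_eq_sum_ones]
    push_cast
    refine Finset.sum_le_sum fun m hm => ?_
    obtain ⟨hm1, hm2, _⟩ := hmem m hm
    have hmpos : (0 : ℝ) < m := by exact_mod_cast hm1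
    rw [A7_f_apply, Real.rpow_neg hmpos.le, ← div_eq_mul_inv, le_div_iff₀ (Real.rpow_pos_of_pos hmpos _),
      one_mul]
    exact Real.rpow_le_rpow hmpos.le (by exact_mod_cast hm2) hs0.le
  have hYs : (Y : ℝ) ^ s = Real.exp (Real.log Y / Real.log z) := by
    rw [Real.rpow_def_of_pos hYpos, hs, mul_one_div]
  have hfac : ∀ p : ℕ, p.Prime → p ≤ z →
      0 < 1 - A7_f s p ∧ (1 - A7_f s p)⁻¹ ≤ 2 * Real.log z / Real.log p := by
    intro p hp hpz
    have hp1 : (1 : ℝ) < p := by exact_mod_cast hp.one_lt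
    have hlp : 0 < Real.log p := Real.log_pos hp1
    have hpz' : Real.log p ≤ Real.log z :=
      Real.log_le_log (by linarith) (by exact_mod_cast hpz)
    have e1 : A7_f s p = Real.exp (-(Real.log p / Real.log z)) := by
      rw [A7_f_apply, Real.rpow_def_of_pos (by linarith), hs]
      congr 1
      ring
    obtain ⟨u, hu⟩ : ∃ u : ℝ, u = Real.log p / Real.log z := ⟨_, rfl⟩
    have hu0 : 0 < u := by rw [hu]; positivity
    have hu1 : u ≤ 1 := by rw [hu, div_le_one hlz0]; exact hpz'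
    have e2 : Real.exp (-u) ≤ 1 - u / 2 := by
      have h5 : Real.exp (-u) ≤ 1 / (1 + u) := by
        rw [Real.exp_neg, ← one_div]
        apply one_div_le_one_div_of_le (by linarith)
        have := Real.add_one_le_exp u
        linarith
      refine h5.trans ?_
      rw [div_le_iff₀ (by linarith)]
      nlinarith
    rw [e1, ← hu]
    have hpos : 0 < 1 - Real.exp (-u) := by linarith
    refine ⟨hpos, ?_⟩
    rw [inv_le_comm₀ hpos (by positivity)]
    have e3 : (2 * Real.log z / Real.log p)⁻¹ = u / 2 := by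
      rw [hu, inv_div]
      field_simp
    rw [e3]
    linarith
  have h4 : ∏ p ∈ (z + 1).primesBelow, (1 - A7_f s p)⁻¹ ≤
      (4 : ℝ) ^ (((Finset.Icc 1 z).filter (fun p => p.Prime ∧ z < p ^ 2)).card) *
        (4 * Real.log z) ^ (((z + 1).primesBelow.filter (fun p => ¬ z < p ^ 2)).card) := by
    rw [← Finset.prod_filter_mul_prod_filter_not (z + 1).primesBelow (fun p => z < p ^ 2)]
    have e1 : (z + 1).primesBelow.filter (fun p => z < p ^ 2) =
        (Finset.Icc 1 z).filter (fun p => p.Prime ∧ z < p ^ 2) := by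
      ext p
      simp only [Finset.mem_filter, Nat.mem_primesBelow, Finset.mem_Icc]
      constructor
      · rintro ⟨⟨h1, h2⟩, h3⟩
        exact ⟨⟨h2.one_lt.le, by omega⟩, h2, h3⟩
      · rintro ⟨⟨h1, h2⟩, h3, h4⟩
        exact ⟨⟨by omega, h3⟩, h4⟩
    rw [e1]
    refine mul_le_mul ?_ ?_ ?_ ?_
    · rw [← Finset.prod_const]
      refine Finset.prod_le_prod (fun p hp => ?_) (fun p hp => ?_)
      · rw [Finset.mem_filter, Finset.mem_Icc] at hp
        exact (inv_pos.2 (hfac p hp.2.1 hp.1.2).1).le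
      · rw [Finset.mem_filter, Finset.mem_Icc] at hp
        refine (hfac p hp.2.1 hp.1.2).2.trans ?_
        have hlp : 0 < Real.log p := Real.log_pos (by exact_mod_cast hp.2.1.one_lt)
        have h6 : Real.log z ≤ Real.log ((p : ℝ) ^ 2) :=
          Real.log_le_log hz0 (by exact_mod_cast hp.2.2.le)
        rw [Real.log_pow] at h6
        push_cast at h6
        rw [div_le_iff₀ hlp]
        linarith
    · rw [← Finset.prod_const]
      refine Finset.prod_le_prod (fun p hp => ?_) (fun p hp => ?_)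
      · rw [Finset.mem_filter, Nat.mem_primesBelow] at hp
        exact (inv_pos.2 (hfac p hp.1.2 (by omega)).1).le
      · rw [Finset.mem_filter, Nat.mem_primesBelow] at hp
        refine (hfac p hp.1.2 (by omega)).2.trans ?_
        have hlp : 1 / 2 ≤ Real.log p := by
          have h7 : Real.log 2 ≤ Real.log p :=
            Real.log_le_log (by norm_num) (by exact_mod_cast hp.1.2.two_le)
          have := Real.log_two_gt_d9
          linarith
        rw [div_le_iff₀ (by linarith)]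
        nlinarith
    · refine Finset.prod_nonneg fun p hp => ?_
      rw [Finset.mem_filter, Nat.mem_primesBelow] at hp
      exact (inv_pos.2 (hfac p hp.1.2 (by omega)).1).le
    · positivity
  have h5 : (4 : ℝ) ^ (((Finset.Icc 1 z).filter (fun p => p.Prime ∧ z < p ^ 2)).card) ≤
      Real.exp (Real.log 4 * (6 * z / Real.log z)) := by
    rw [← Real.rpow_natCast, Real.rpow_def_of_pos (by norm_num : (0 : ℝ) < 4)]
    apply Real.exp_le_exp.2
    exact mul_le_mul_of_nonneg_left (primes_le z (by omega)) (Real.log_nonneg (by norm_num))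
  have h6 : (4 * Real.log z) ^ (((z + 1).primesBelow.filter (fun p => ¬ z < p ^ 2)).card) ≤
      Real.exp (Real.sqrt z * Real.log (4 * Real.log z)) := by
    rw [← Real.rpow_natCast, Real.rpow_def_of_pos (by positivity), mul_comm]
    apply Real.exp_le_exp.2
    refine mul_le_mul_of_nonneg_right ?_ (Real.log_nonneg (by linarith))
    have h7 : ((z + 1).primesBelow.filter (fun p => ¬ z < p ^ 2)) ⊆
        Finset.Icc 1 (Nat.sqrt z) := by
      intro p hp
      rw [Finset.mem_filter, Nat.mem_primesBelow] at hp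
      rw [Finset.mem_Icc]
      refine ⟨hp.1.2.one_lt.le, ?_⟩
      rw [Nat.le_sqrt']
      exact not_lt.1 hp.2
    have h8 := Finset.card_le_card h7
    rw [Nat.card_Icc, Nat.add_sub_cancel] at h8
    refine le_trans (by exact_mod_cast h8 : _ ≤ ((Nat.sqrt z : ℕ) : ℝ)) ?_
    exact Real.nat_sqrt_le_real_sqrt
  have h9 : ((smo z Y).card : ℝ) ≤ Real.exp (Real.log Y / Real.log z) *
      (Real.exp (Real.log 4 * (6 * z / Real.log z)) *
        Real.exp (Real.sqrt z * Real.log (4 * Real.log z))) := by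
    refine h3.trans ?_
    rw [hYs]
    refine mul_le_mul_of_nonneg_left ?_ (Real.exp_pos _).le
    refine h2.trans (h4.trans ?_)
    exact mul_le_mul h5 h6 (by positivity) (Real.exp_pos _).le
  refine h9.trans (le_of_eq ?_)
  rw [← Real.exp_add, ← Real.exp_add, add_assoc]

end Pool.Agent.W_9df192_h86
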