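import Pool.Agent.W_9df192_h86.G1

set_option autoImplicit false

/-! Growth of the iterates of `σ`. -/

namespace Pool.Agent.W_9df192_h86

open ArithmeticFunction

/-- Growth of iterates: for `x` large, `1 ≤ n ≤ x` and `j ≤ log x`: `it j n ≤ n (log x)^(2 j)`.
Proof: induction on `j` with `sigma_le_log`: if `it j n ≤ n (log x)^(2j)` then
`log (it j n) ≤ log x + 2 j log log x ≤ log x + 2 log x log log x`, and
`1 + log x + 2 log x log log x ≤ (log x)^2` for `x` large (use
`Real.isLittleO_log_id_atTop` with `log x → ∞`, or explicit `x₀`). -/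
theorem growth : ∃ x₀ : ℝ, 16 ≤ x₀ ∧ ∀ x : ℝ, x₀ ≤ x → ∀ n : ℕ, 1 ≤ n → (n : ℝ) ≤ x →
    ∀ j : ℕ, (j : ℝ) ≤ Real.log x → (it j n : ℝ) ≤ n * (Real.log x) ^ (2 * j) := by
  refine ⟨Real.exp 16, by linarith [Real.add_one_le_exp (16 : ℝ)], fun x hx n hn hnx j => ?_⟩
  have hx0 : 0 < x := (Real.exp_pos 16).trans_le hx
  set L : ℝ := Real.log x with hL
  have hL16 : 16 ≤ L := by
    rw [hL, Real.le_log_iff_exp_le hx0]
    exact hx
  have hL0 : 0 < L := by linarith
  have hkey : 1 + L + 2 * L * Real.log L ≤ L ^ 2 := by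
    set r : ℝ := Real.sqrt L with hr
    have hr2 : r * r = L := Real.mul_self_sqrt hL0.le
    have hr0 : 0 ≤ r := Real.sqrt_nonneg L
    have hr4 : 4 ≤ r := by
      rw [hr]
      exact Real.le_sqrt_of_sq_le (by norm_num; linarith)
    have h1 : Real.log L = 2 * Real.log r := by
      rw [← hr2, Real.log_mul (by positivity) (by positivity)]
      ring
    have h2 : Real.log r ≤ r - 1 := Real.log_le_sub_one_of_pos (by linarith)
    have h3 : 2 * L * Real.log L ≤ 4 * L * (r - 1) := by
      rw [h1]
      nlinarith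
    have h4 : 4 * L * (r - 1) ≤ L * L - 4 * L := by nlinarith
    nlinarith
  have hn0 : (1 : ℝ) ≤ n := by exact_mod_cast hn
  have hlogL : 0 ≤ Real.log L := Real.log_nonneg (by linarith)
  induction j with
  | zero =>
    intro _
    rw [it_zero]
    simp
  | succ j ih =>
    intro hj
    push_cast at hj
    have hjL : (j : ℝ) ≤ L := by linarith
    have ih' := ih hjL
    have hpos : 1 ≤ it j n := it_pos j n hn
    have hposr : (1 : ℝ) ≤ it j n := by exact_mod_cast hpos
    have h1 := sigma_le_log (it j n) hpos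
    have h2 : Real.log (it j n) ≤ L + 2 * L * Real.log L := by
      calc Real.log (it j n) ≤ Real.log ((n : ℝ) * L ^ (2 * j)) :=
            Real.log_le_log (by linarith) ih'
        _ = Real.log n + ((2 * j : ℕ) : ℝ) * Real.log L := by
            rw [Real.log_mul (by positivity) (by positivity), Real.log_pow]
        _ ≤ L + 2 * L * Real.log L := by
            have h3 : Real.log n ≤ L := Real.log_le_log (by linarith) hnx
            push_cast
            nlinarith
    rw [it_succ]
    have h5 : (0 : ℝ) ≤ n * L ^ (2 * j) := by positivity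
    calc (sigma 1 (it j n) : ℝ) ≤ (it j n : ℝ) * (1 + Real.log (it j n)) := h1
      _ ≤ (it j n : ℝ) * L ^ 2 := by
          refine mul_le_mul_of_nonneg_left ?_ (by linarith)
          linarith
      _ ≤ (n * L ^ (2 * j)) * L ^ 2 := mul_le_mul_of_nonneg_right ih' (by positivity)
      _ = n * L ^ (2 * (j + 1)) := by ring

end Pool.Agent.W_9df192_h86
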