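import Pool.Agent.W_9df192_h86.A7
import Pool.Agent.W_9df192_h86.G2

set_option autoImplicit false

/-! A8: asymptotics and the theorem (Wirsing's theorem for iterates). -/

namespace Pool.Agent.W_9df192_h86

open ArithmeticFunction

private theorem A8_log_sq (L : ℝ) (hL : 1 ≤ L) : (Real.log L) ^ 2 ≤ 16 * Real.sqrt L := by
  have h0 : 0 < L := by linarith
  have hs0 : 0 < Real.sqrt L := Real.sqrt_pos.2 h0
  obtain ⟨r, hr⟩ : ∃ r : ℝ, r = Real.sqrt (Real.sqrt L) := ⟨_, rfl⟩
  have hr0 : 0 < r := by rw [hr]; exact Real.sqrt_pos.2 hs0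
  have hrr : r * r = Real.sqrt L := by rw [hr]; exact Real.mul_self_sqrt hs0.le
  have hLL : Real.sqrt L * Real.sqrt L = L := Real.mul_self_sqrt h0.le
  have h1 : Real.log L = 4 * Real.log r := by
    rw [← hLL, ← hrr, Real.log_mul (by positivity) (by positivity),
      Real.log_mul (by positivity) (by positivity)]
    ring
  have h2 : Real.log r ≤ r - 1 := Real.log_le_sub_one_of_pos hr0
  have h3 : 0 ≤ Real.log L := Real.log_nonneg hL
  have h4 : Real.log L ≤ 4 * r := by linarith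
  have h5 : (Real.log L) ^ 2 ≤ (4 * r) ^ 2 := pow_le_pow_left₀ h3 h4 2
  nlinarith

/-- The bound for one `m ≤ log log x`, `x` large.
Proof: `L = log x`, `z = ⌈4 L⌉₊ + 1`, `Y = x^2`, `M = ⌊2 m L / log (z+1)⌋₊` (so
`(x^2)^m < (z+1)^(M+1)`, `2 M ≤ 4 m L / log L ≤ 4 L ≤ z`), `K = ⌊L^(2 m)⌋₊`; by `growth`
`it j n ≤ n L^(2 m) ≤ x^2` (as `2 m log L ≤ 2 (log L)^2 ≤ L`); `count_le`, `smo_le`, and each of
`log K ≤ 2 m log L`, `m log #smo ≤ m C L / log L`, `M log 2 ≤ 2 m L / log L` is
`≤ C m L / log L`. -/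
theorem one_level : ∃ C : ℝ, 0 < C ∧ ∃ x₀ : ℕ, 16 ≤ x₀ ∧ ∀ x : ℕ, x₀ ≤ x → ∀ m : ℕ, 1 ≤ m →
    (m : ℝ) ≤ Real.log (Real.log x) → ∀ T : Finset ℕ, (∀ n ∈ T, 1 ≤ n ∧ n ≤ x ∧ n ∣ it m n) →
    (T.card : ℝ) ≤ Real.exp (C * m * Real.log x / Real.log (Real.log x)) := by
  obtain ⟨x₁, hx₁, hg⟩ := growth
  refine ⟨1000, by norm_num, max 16 (max ⌈x₁⌉₊ ⌈Real.exp 1024⌉₊), le_max_left _ _, ?_⟩
  intro x hx m hm hml T hT
  have hxx1 : x₁ ≤ (x : ℝ) := by
    refine (Nat.le_ceil x₁).trans ?_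
    exact_mod_cast ((le_max_left _ _).trans (le_max_right _ _)).trans hx
  have hxe : Real.exp 1024 ≤ (x : ℝ) := by
    refine (Nat.le_ceil (Real.exp 1024)).trans ?_
    exact_mod_cast ((le_max_right _ _).trans (le_max_right _ _)).trans hx
  have hx16 : 16 ≤ x := (le_max_left _ _).trans hx
  have hx0 : (0 : ℝ) < x := by exact_mod_cast (by omega : 0 < x)
  obtain ⟨L, hL⟩ : ∃ L : ℝ, L = Real.log x := ⟨_, rfl⟩
  rw [← hL] at hml ⊢
  have hL1024 : 1024 ≤ L := by
    rw [hL, Real.le_log_iff_exp_le hx0]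
    exact hxe
  have hL0 : 0 < L := by linarith
  obtain ⟨l, hl⟩ : ∃ l : ℝ, l = Real.log L := ⟨_, rfl⟩
  rw [← hl] at hml ⊢
  have hm1 : (1 : ℝ) ≤ m := by exact_mod_cast hm
  have hl1 : 1 ≤ l := hm1.trans hml
  have hl0 : 0 < l := by linarith
  obtain ⟨r, hr⟩ : ∃ r : ℝ, r = Real.sqrt L := ⟨_, rfl⟩
  have hrr : r * r = L := by rw [hr]; exact Real.mul_self_sqrt hL0.le
  have hr0 : 0 ≤ r := by rw [hr]; exact Real.sqrt_nonneg L
  have hr32 : 32 ≤ r := by
    rw [hr]
    exact Real.le_sqrt_of_sq_le (by norm_num; linarith)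
  have hlsq : l ^ 2 ≤ 16 * r := by
    rw [hl, hr]
    exact A8_log_sq L (by linarith)
  have h2l : 2 * l ^ 2 ≤ L := by nlinarith
  have hlL : l ≤ L := by nlinarith
  obtain ⟨z, hz⟩ : ∃ z : ℕ, z = ⌈4 * L⌉₊ + 1 := ⟨_, rfl⟩
  have hzlo : 4 * L + 1 ≤ (z : ℝ) := by
    rw [hz]
    push_cast
    have := Nat.le_ceil (4 * L)
    linarith
  have hzhi : (z : ℝ) ≤ 5 * L := by
    rw [hz]
    push_cast
    have := Nat.ceil_lt_add_one (a := 4 * L) (by positivity)
    linarith
  have hz0 : (0 : ℝ) < z := by linarith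
  have hlz : l ≤ Real.log z := by
    rw [hl]
    exact Real.log_le_log hL0 (by linarith)
  have hlz1 : l ≤ Real.log ((z : ℝ) + 1) := by
    rw [hl]
    exact Real.log_le_log hL0 (by linarith)
  have hlz0 : 0 < Real.log z := by linarith
  have hlz10 : 0 < Real.log ((z : ℝ) + 1) := by linarith
  have hz3 : 3 ≤ z := by
    have : (3 : ℝ) ≤ z := by linarith
    exact_mod_cast this
  obtain ⟨M, hMdef⟩ : ∃ M : ℕ, M = ⌊2 * m * L / Real.log ((z : ℝ) + 1)⌋₊ := ⟨_, rfl⟩
  have hMle : (M : ℝ) ≤ 2 * m * L / Real.log ((z : ℝ) + 1) := by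
    rw [hMdef]
    exact Nat.floor_le (by positivity)
  have hMlt : 2 * m * L / Real.log ((z : ℝ) + 1) < M + 1 := by
    rw [hMdef]
    exact Nat.lt_floor_add_one _
  have hMle2 : (M : ℝ) ≤ 2 * m * L / l := by
    refine hMle.trans ?_
    exact div_le_div_of_nonneg_left (by positivity) hl0 hlz1
  have hM : 2 * M ≤ z := by
    have h1 : (M : ℝ) ≤ 2 * L := by
      refine hMle2.trans ?_
      rw [div_le_iff₀ hl0]
      nlinarith
    have h2 : ((2 * M : ℕ) : ℝ) ≤ z := by
      push_cast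
      linarith
    exact_mod_cast h2
  have hYM : (x ^ 2) ^ m < (z + 1) ^ (M + 1) := by
    have h1 : ((x : ℝ) ^ 2) ^ m = Real.exp (2 * m * L) := by
      have e : (x : ℝ) = Real.exp L := by rw [hL, Real.exp_log hx0]
      rw [e, ← Real.exp_nat_mul, ← Real.exp_nat_mul]
      congr 1
      push_cast
      ring
    have h2 : ((z : ℝ) + 1) ^ (M + 1) = Real.exp ((M + 1) * Real.log ((z : ℝ) + 1)) := by
      have e : ((z : ℝ) + 1) = Real.exp (Real.log ((z : ℝ) + 1)) := by
        rw [Real.exp_log (by linarith)]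
      conv_lhs => rw [e]
      rw [← Real.exp_nat_mul]
      congr 1
      push_cast
      ring
    have h3 : 2 * m * L < (M + 1) * Real.log ((z : ℝ) + 1) := by
      rwa [div_lt_iff₀ hlz10] at hMlt
    have h4 : ((x : ℝ) ^ 2) ^ m < ((z : ℝ) + 1) ^ (M + 1) := by
      rw [h1, h2]
      exact Real.exp_lt_exp.2 h3
    exact_mod_cast h4
  have hexpm : ∀ j : ℕ, j ≤ m → L ^ (2 * j) ≤ x := by
    intro j hj
    have e : L ^ (2 * j) = Real.exp (2 * j * l) := by
      have e1 : L = Real.exp l := by rw [hl, Real.exp_log hL0]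
      rw [e1, ← Real.exp_nat_mul]
      congr 1
      push_cast
      ring
    have e2 : (x : ℝ) = Real.exp L := by rw [hL, Real.exp_log hx0]
    rw [e, e2]
    apply Real.exp_le_exp.2
    have hj' : (j : ℝ) ≤ m := by exact_mod_cast hj
    nlinarith
  have hgr : ∀ n : ℕ, 1 ≤ n → n ≤ x → ∀ j : ℕ, j ≤ m → (it j n : ℝ) ≤ n * L ^ (2 * j) := by
    intro n hn hnx j hj
    have hj' : (j : ℝ) ≤ m := by exact_mod_cast hj
    have := hg x hxx1 n hn (by exact_mod_cast hnx) j (by rw [← hL]; linarith)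
    rwa [← hL] at this
  have hY : ∀ n, 1 ≤ n → n ≤ x → ∀ j, j < m → it j n ≤ x ^ 2 := by
    intro n hn hnx j hj
    have h1 := hgr n hn hnx j hj.le
    have h2 := hexpm j hj.le
    have h3 : (it j n : ℝ) ≤ (x : ℝ) ^ 2 := by
      have h4 : (n : ℝ) ≤ x := by exact_mod_cast hnx
      calc (it j n : ℝ) ≤ n * L ^ (2 * j) := h1
        _ ≤ x * x := mul_le_mul h4 h2 (by positivity) hx0.le
        _ = (x : ℝ) ^ 2 := by ring
    exact_mod_cast h3
  have hK : ∀ n, 1 ≤ n → n ≤ x → it m n ≤ ⌈L ^ (2 * m)⌉₊ * n := by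
    intro n hn hnx
    have h1 := hgr n hn hnx m le_rfl
    have h2 : (it m n : ℝ) ≤ (⌈L ^ (2 * m)⌉₊ : ℝ) * n := by
      refine h1.trans ?_
      rw [mul_comm]
      exact mul_le_mul_of_nonneg_right (Nat.le_ceil _) (Nat.cast_nonneg n)
    exact_mod_cast h2
  have hcount := count_le (x := x) (z := z) (m := m) (Y := x ^ 2) (M := M) (K := ⌈L ^ (2 * m)⌉₊)
    hm (by omega) hM hYM hY hK T hT
  have hQ : 0 ≤ m * L / l := by positivity
  have hLl : l ≤ L / l := by
    rw [le_div_iff₀ hl0]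
    nlinarith
  -- the three factors
  have f1 : (⌈L ^ (2 * m)⌉₊ : ℝ) ≤ Real.exp (3 * (m * L / l)) := by
    have h1 : (⌈L ^ (2 * m)⌉₊ : ℝ) ≤ L ^ (2 * m) + 1 := (Nat.ceil_lt_add_one (by positivity)).le
    have h2 : 1 ≤ L ^ (2 * m) := one_le_pow₀ (by linarith)
    have e : L ^ (2 * m) = Real.exp (2 * m * l) := by
      have e1 : L = Real.exp l := by rw [hl, Real.exp_log hL0]
      rw [e1, ← Real.exp_nat_mul]
      congr 1
      push_cast
      ring
    have h3 : (2 : ℝ) ≤ Real.exp l := by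
      have := Real.add_one_le_exp l
      linarith
    calc (⌈L ^ (2 * m)⌉₊ : ℝ) ≤ 2 * L ^ (2 * m) := by linarith
      _ ≤ Real.exp l * Real.exp (2 * m * l) := by
          rw [e]
          exact mul_le_mul_of_nonneg_right h3 (Real.exp_pos _).le
      _ = Real.exp (l + 2 * m * l) := by rw [Real.exp_add]
      _ ≤ Real.exp (3 * (m * L / l)) := by
          apply Real.exp_le_exp.2
          have h4 : m * l ≤ m * L / l := by
            rw [mul_div_assoc]
            exact mul_le_mul_of_nonneg_left hLl (by linarith)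
          nlinarith
  have f2 : ((smo z (x ^ 2)).card : ℝ) ≤ Real.exp (900 * (L / l)) := by
    refine (smo_le z (x ^ 2) hz3 (Nat.one_le_pow _ _ (by omega))).trans ?_
    apply Real.exp_le_exp.2
    have g1 : Real.log ((x ^ 2 : ℕ) : ℝ) / Real.log z ≤ 2 * (L / l) := by
      have e : Real.log ((x ^ 2 : ℕ) : ℝ) = 2 * L := by
        push_cast
        rw [Real.log_pow, hL]
        push_cast
        ring
      rw [e, mul_div_assoc]
      refine mul_le_mul_of_nonneg_left ?_ (by norm_num)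
      exact div_le_div_of_nonneg_left hL0.le hl0 hlz
    have g2 : Real.log 4 * (6 * z / Real.log z) ≤ 60 * (L / l) := by
      have h4 : Real.log 4 ≤ 2 := by
        have e : (4 : ℝ) = 2 ^ 2 := by norm_num
        rw [e, Real.log_pow]
        have := Real.log_two_lt_d9
        push_cast
        linarith
      have h5 : 6 * (z : ℝ) / Real.log z ≤ 30 * (L / l) := by
        calc 6 * (z : ℝ) / Real.log z ≤ 6 * (5 * L) / l := by
              apply div_le_div₀ (by positivity) (by linarith) hl0 hlz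
          _ = 30 * (L / l) := by ring
      have h6 : 0 ≤ 6 * (z : ℝ) / Real.log z := by positivity
      calc Real.log 4 * (6 * z / Real.log z) ≤ 2 * (30 * (L / l)) :=
            mul_le_mul h4 h5 h6 (by norm_num)
        _ = 60 * (L / l) := by ring
    have g3 : Real.sqrt z * Real.log (4 * Real.log z) ≤ 800 * (L / l) := by
      have h1 : Real.sqrt z ≤ 3 * r := by
        rw [Real.sqrt_le_left (by positivity)]
        nlinarith
      have h2 : Real.log z ≤ 3 * l := by
        have h3 : Real.log (5 * L) = Real.log 5 + l := by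
          rw [Real.log_mul (by norm_num) hL0.ne', hl]
        have h4 : Real.log z ≤ Real.log (5 * L) := Real.log_le_log hz0 hzhi
        have h5 : Real.log 5 ≤ 2 := by
          rw [Real.log_le_iff_le_exp (by norm_num)]
          have h6 : (2.7 : ℝ) < Real.exp 1 := by
            have := Real.exp_one_gt_d9
            linarith
          have h7 : Real.exp 2 = Real.exp 1 * Real.exp 1 := by
            rw [← Real.exp_add]; norm_num
          rw [h7]
          nlinarith
        linarith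
      have h3 : Real.log (4 * Real.log z) ≤ 12 * l := by
        have := Real.log_le_sub_one_of_pos (x := 4 * Real.log z) (by positivity)
        linarith
      have h4 : Real.sqrt z * Real.log (4 * Real.log z) ≤ 3 * r * (12 * l) := by
        have h5 : 0 ≤ Real.log (4 * Real.log z) := Real.log_nonneg (by linarith)
        exact mul_le_mul h1 h3 h5 (by positivity)
      refine h4.trans ?_
      rw [mul_div_assoc', le_div_iff₀ hl0]
      have h5 : 3 * r * (12 * l) * l = 36 * r * l ^ 2 := by ring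
      rw [h5]
      have h6 : 36 * r * l ^ 2 ≤ 36 * r * (16 * r) :=
        mul_le_mul_of_nonneg_left hlsq (by positivity)
      nlinarith
    have : 0 ≤ L / l := by positivity
    linarith
  have f3 : (2 : ℝ) ^ M ≤ Real.exp (2 * (m * L / l)) := by
    have h1 : (2 : ℝ) ≤ Real.exp 1 := by
      have := Real.add_one_le_exp (1 : ℝ)
      linarith
    calc (2 : ℝ) ^ M ≤ (Real.exp 1) ^ M := pow_le_pow_left₀ (by norm_num) h1 M
      _ = Real.exp (M * 1) := by rw [← Real.exp_nat_mul]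
      _ ≤ Real.exp (2 * (m * L / l)) := by
          apply Real.exp_le_exp.2
          have e : 2 * (m * L / l) = 2 * m * L / l := by ring
          rw [e, mul_one]
          exact hMle2
  have hcard : (T.card : ℝ) ≤ (⌈L ^ (2 * m)⌉₊ : ℝ) * ((smo z (x ^ 2)).card : ℝ) ^ m * 2 ^ M := by
    exact_mod_cast hcount
  refine hcard.trans ?_
  have f2m : ((smo z (x ^ 2)).card : ℝ) ^ m ≤ Real.exp (900 * (m * L / l)) := by
    calc ((smo z (x ^ 2)).card : ℝ) ^ m ≤ (Real.exp (900 * (L / l))) ^ m :=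
          pow_le_pow_left₀ (Nat.cast_nonneg _) f2 m
      _ = Real.exp (m * (900 * (L / l))) := by rw [← Real.exp_nat_mul]
      _ = Real.exp (900 * (m * L / l)) := by
          congr 1
          ring
  have hall : (⌈L ^ (2 * m)⌉₊ : ℝ) * ((smo z (x ^ 2)).card : ℝ) ^ m * 2 ^ M ≤
      Real.exp (3 * (m * L / l)) * Real.exp (900 * (m * L / l)) * Real.exp (2 * (m * L / l)) := by
    refine mul_le_mul (mul_le_mul f1 f2m (by positivity) (Real.exp_pos _).le) f3 (by positivity) ?_
    positivity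
  refine hall.trans ?_
  rw [← Real.exp_add, ← Real.exp_add]
  apply Real.exp_le_exp.2
  have e : 1000 * (m : ℝ) * L / l = 1000 * (m * L / l) := by ring
  rw [e]
  linarith

end Pool.Agent.W_9df192_h86
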