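import Pool.Agent.W_9df192_h86.A8

set_option autoImplicit false

/-! A9: the theorem (Wirsing's theorem for iterates). -/

namespace Pool.Agent.W_9df192_h86

open ArithmeticFunction

/-- Final form.  From `one_level`: for `x < x₀` or `m > log log x` the bound is trivial
(`count ≤ x = exp (log x)`, take `C ≥ max 1 (log log x₀)`; note `log log x > 0` for `x ≥ 3`); otherwise
sum `one_level` over `1 ≤ j ≤ m`: `m * exp (C m log x / log log x) ≤ exp ((C+1) m log x / log log x)`
as `m ≤ exp m` and `log log x ≤ log x`. -/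
theorem wirsing_iterates : ∃ C : ℝ, 0 < C ∧ ∀ m x : ℕ, 1 ≤ m → 3 ≤ x →
    (({n : ℕ | 1 ≤ n ∧ n ≤ x ∧ ∃ j : ℕ, 1 ≤ j ∧ j ≤ m ∧ n ∣ (fun t => sigma 1 t)^[j] n}.ncard : ℕ) : ℝ)
      ≤ Real.exp (C * m * Real.log x / Real.log (Real.log x)) := by
  classical
  obtain ⟨C, hC, x₀, hx₀, h1⟩ := one_level
  refine ⟨C + 1 + |Real.log (Real.log x₀)|, by positivity, ?_⟩
  intro m x hm hx
  have hx0 : (0 : ℝ) < x := by exact_mod_cast (by omega : 0 < x)
  obtain ⟨L, hL⟩ : ∃ L : ℝ, L = Real.log x := ⟨_, rfl⟩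
  rw [← hL]
  have hL1 : 1 < L := by
    rw [hL, Real.lt_log_iff_exp_lt hx0]
    have h3 : (3 : ℝ) ≤ x := by exact_mod_cast hx
    have := Real.exp_one_lt_d9
    linarith
  have hL0 : 0 < L := by linarith
  obtain ⟨l, hl⟩ : ∃ l : ℝ, l = Real.log L := ⟨_, rfl⟩
  rw [← hl]
  have hl0 : 0 < l := by rw [hl]; exact Real.log_pos hL1
  have hlL : l ≤ L := by
    rw [hl]
    have := Real.log_le_sub_one_of_pos hL0
    linarith
  have hm1 : (1 : ℝ) ≤ m := by exact_mod_cast hm
  obtain ⟨S, hS⟩ : ∃ S : Finset ℕ, S = (Finset.Icc 1 x).filter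
      (fun n => ∃ j : ℕ, 1 ≤ j ∧ j ≤ m ∧ n ∣ (fun t => sigma 1 t)^[j] n) := ⟨_, rfl⟩
  have hset : {n : ℕ | 1 ≤ n ∧ n ≤ x ∧ ∃ j : ℕ, 1 ≤ j ∧ j ≤ m ∧
      n ∣ (fun t => sigma 1 t)^[j] n} = (S : Set ℕ) := by
    ext n
    rw [hS]
    simp [and_assoc]
  rw [hset, Set.ncard_coe_finset]
  by_cases hc : x₀ ≤ x ∧ (m : ℝ) ≤ l
  · obtain ⟨hxx, hml⟩ := hc
    have hsub : S ⊆ (Finset.Icc 1 m).biUnion
        (fun j => (Finset.Icc 1 x).filter (fun n => n ∣ it j n)) := by
      intro n hn
      rw [hS] at hn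
      rw [Finset.mem_filter, Finset.mem_Icc] at hn
      obtain ⟨⟨hn1, hn2⟩, j, hj1, hj2, hj3⟩ := hn
      rw [Finset.mem_biUnion]
      refine ⟨j, Finset.mem_Icc.2 ⟨hj1, hj2⟩, ?_⟩
      rw [Finset.mem_filter, Finset.mem_Icc]
      exact ⟨⟨hn1, hn2⟩, hj3⟩
    have hcard : (S.card : ℝ) ≤ ∑ j ∈ Finset.Icc 1 m,
        (((Finset.Icc 1 x).filter (fun n => n ∣ it j n)).card : ℝ) := by
      exact_mod_cast (Finset.card_le_card hsub).trans Finset.card_biUnion_le
    have hterm : ∀ j ∈ Finset.Icc 1 m,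
        (((Finset.Icc 1 x).filter (fun n => n ∣ it j n)).card : ℝ) ≤
          Real.exp (C * (m * L / l)) := by
      intro j hj
      rw [Finset.mem_Icc] at hj
      have hjm : (j : ℝ) ≤ m := by exact_mod_cast hj.2
      have h2 := h1 x hxx j hj.1 (by rw [← hL, ← hl]; linarith)
        ((Finset.Icc 1 x).filter (fun n => n ∣ it j n)) (by
          intro n hn
          rw [Finset.mem_filter, Finset.mem_Icc] at hn
          exact ⟨hn.1.1, hn.1.2, hn.2⟩)
      rw [← hL, ← hl] at h2
      refine h2.trans (Real.exp_le_exp.2 ?_)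
      have e : C * (m * L / l) = C * m * L / l := by ring
      rw [e]
      apply div_le_div_of_nonneg_right _ hl0.le
      have : C * j ≤ C * m := mul_le_mul_of_nonneg_left hjm hC.le
      exact mul_le_mul_of_nonneg_right this hL0.le
    have hsum : ∑ j ∈ Finset.Icc 1 m,
        (((Finset.Icc 1 x).filter (fun n => n ∣ it j n)).card : ℝ) ≤
          m * Real.exp (C * (m * L / l)) := by
      refine (Finset.sum_le_sum hterm).trans ?_
      rw [Finset.sum_const, Nat.card_Icc, nsmul_eq_mul]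
      simp
    have hQ : (m : ℝ) ≤ m * L / l := by
      rw [le_div_iff₀ hl0]
      exact mul_le_mul_of_nonneg_left hlL (by linarith)
    have hQ0 : 0 ≤ m * L / l := by positivity
    have hmexp : (m : ℝ) ≤ Real.exp (m * L / l) := by
      have := Real.add_one_le_exp (m * L / l)
      linarith
    calc (S.card : ℝ) ≤ m * Real.exp (C * (m * L / l)) := hcard.trans hsum
      _ ≤ Real.exp (m * L / l) * Real.exp (C * (m * L / l)) :=
          mul_le_mul_of_nonneg_right hmexp (Real.exp_pos _).le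
      _ = Real.exp (m * L / l + C * (m * L / l)) := by rw [Real.exp_add]
      _ ≤ Real.exp ((C + 1 + |Real.log (Real.log x₀)|) * m * L / l) := by
          apply Real.exp_le_exp.2
          have e : (C + 1 + |Real.log (Real.log x₀)|) * m * L / l =
              m * L / l + C * (m * L / l) + |Real.log (Real.log x₀)| * (m * L / l) := by ring
          rw [e]
          have : 0 ≤ |Real.log (Real.log x₀)| * (m * L / l) := by positivity
          linarith
  · have hcard : (S.card : ℝ) ≤ x := by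
      have h2 : S.card ≤ x := by
        rw [hS]
        refine (Finset.card_filter_le _ _).trans ?_
        simp
      exact_mod_cast h2
    have hkey : l ≤ (C + 1 + |Real.log (Real.log x₀)|) * m := by
      have hA : 0 ≤ |Real.log (Real.log x₀)| := abs_nonneg _
      by_cases hxx : x₀ ≤ x
      · have hml : l < m := by
          by_contra hcon
          exact hc ⟨hxx, not_lt.1 hcon⟩
        nlinarith
      · have hlt : (x : ℝ) ≤ x₀ := by exact_mod_cast (not_le.1 hxx).le
        have h3 : L ≤ Real.log x₀ := by rw [hL]; exact Real.log_le_log hx0 hlt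
        have h4 : l ≤ Real.log (Real.log x₀) := by rw [hl]; exact Real.log_le_log hL0 h3
        have h5 : Real.log (Real.log x₀) ≤ |Real.log (Real.log x₀)| := le_abs_self _
        nlinarith
    calc (S.card : ℝ) ≤ x := hcard
      _ = Real.exp L := by rw [hL, Real.exp_log hx0]
      _ ≤ Real.exp ((C + 1 + |Real.log (Real.log x₀)|) * m * L / l) := by
          apply Real.exp_le_exp.2
          rw [le_div_iff₀ hl0, mul_comm L l]
          exact mul_le_mul_of_nonneg_right hkey hL0.le

end Pool.Agent.W_9df192_h86
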