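import Pool.Agent.W_9df192_h86.Defs

set_option autoImplicit false

/-! B0: bad primes and regular numbers. -/

namespace Pool.Agent.W_9df192_h86

open ArithmeticFunction

/-- Bad primes: `Bad 0` = primes `≤ z`; `Bad (i+1)` adds all primes dividing some `σ(q^b)`,
`q ∈ Bad i`, `q^b ≤ Y`. -/
def Bad (z Y : ℕ) : ℕ → Finset ℕ
  | 0 => (Finset.Icc 1 z).filter Nat.Prime
  | (i + 1) => Bad z Y i ∪ (Bad z Y i).biUnion (fun q =>
      ((Finset.Icc 1 Y).filter (fun b => q ^ b ≤ Y)).biUnion (fun b =>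
        (sigma 1 (q ^ b)).primeFactors))

/-- `n` is regular below level `t`: for `i < t` no prime outside `Bad i` divides `it i n` twice. -/
def Reg (z Y t n : ℕ) : Prop :=
  ∀ i, i < t → ∀ q : ℕ, q.Prime → q ∉ Bad z Y i → ¬ q ^ 2 ∣ it i n

theorem Bad_succ_subset (z Y i : ℕ) : Bad z Y i ⊆ Bad z Y (i + 1) := by
  intro q hq
  rw [Bad]
  exact Finset.mem_union_left _ hq

theorem Bad_mono {z Y i j : ℕ} (h : i ≤ j) : Bad z Y i ⊆ Bad z Y j := by
  induction h with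
  | refl => exact subset_rfl
  | step _ ih => exact ih.trans (Bad_succ_subset _ _ _)

theorem Bad_prime {z Y i q : ℕ} (h : q ∈ Bad z Y i) : q.Prime := by
  induction i with
  | zero => rw [Bad] at h; exact (Finset.mem_filter.1 h).2
  | succ i ih =>
    rw [Bad, Finset.mem_union] at h
    rcases h with h | h
    · exact ih h
    · simp only [Finset.mem_biUnion] at h
      obtain ⟨_, _, _, _, h⟩ := h
      exact Nat.prime_of_mem_primeFactors h

theorem gt_of_not_mem_Bad {z Y i q : ℕ} (hq : q.Prime) (h : q ∉ Bad z Y i) : z < q := by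
  by_contra hle
  apply h
  apply Bad_mono (Nat.zero_le i)
  rw [Bad]
  exact Finset.mem_filter.2 ⟨Finset.mem_Icc.2 ⟨hq.one_le, by omega⟩, hq⟩

theorem mem_Bad_succ {z Y i r b q : ℕ} (hr : r ∈ Bad z Y i) (hb : 1 ≤ b) (hrb : r ^ b ≤ Y)
    (hq : q.Prime) (hd : q ∣ sigma 1 (r ^ b)) : q ∈ Bad z Y (i + 1) := by
  have hrp := Bad_prime hr
  rw [Bad, Finset.mem_union]
  right
  simp only [Finset.mem_biUnion, Finset.mem_filter, Finset.mem_Icc]
  refine ⟨r, hr, b, ⟨⟨hb, ?_⟩, hrb⟩, ?_⟩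
  · exact le_trans (Nat.lt_pow_self hrp.one_lt).le hrb
  · exact Nat.mem_primeFactors.2 ⟨hq, hd, (sigma_pos 1 _ (pow_ne_zero _ hrp.ne_zero)).ne'⟩

theorem Reg_mono {z Y t t' n : ℕ} (h : t ≤ t') (hR : Reg z Y t' n) : Reg z Y t n :=
  fun i hi q hq hqB => hR i (lt_of_lt_of_le hi h) q hq hqB

end Pool.Agent.W_9df192_h86
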