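import Pool.Agent.W_9df192_h86.B0

set_option autoImplicit false

/-! B1: number of bad primes `> z`. -/

namespace Pool.Agent.W_9df192_h86

open ArithmeticFunction

/-- A number `1 ≤ N < z^(K+1)` has at most `K` distinct prime factors `> z`
(their product divides `N`). -/
theorem card_big_primes {z K N : ℕ} (hN : 1 ≤ N) (h : N < z ^ (K + 1)) :
    (N.primeFactors.filter (fun p => z < p)).card ≤ K := by
  have hz : 0 < z := by
    rcases Nat.eq_zero_or_pos z with h0 | h0
    · subst h0
      simp at h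
    · exact h0
  by_contra hc
  push Not at hc
  have h1 : z ^ (N.primeFactors.filter (fun p => z < p)).card ≤
      ∏ p ∈ N.primeFactors.filter (fun p => z < p), p := by
    rw [← Finset.prod_const]
    exact Finset.prod_le_prod' (fun p hp => (Finset.mem_filter.1 hp).2.le)
  have h2 : (∏ p ∈ N.primeFactors.filter (fun p => z < p), p) ≤ N := by
    refine Nat.le_of_dvd hN ?_
    exact (Finset.prod_dvd_prod_of_subset _ _ _ (Finset.filter_subset _ _)).trans
      (Nat.prod_primeFactors_dvd N)
  have h3 : z ^ (K + 1) ≤ z ^ (N.primeFactors.filter (fun p => z < p)).card :=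
    Nat.pow_le_pow_right hz hc
  omega

private theorem b1_geom {q : ℕ} (hq : 2 ≤ q) (b : ℕ) :
    (∑ i ∈ Finset.range (b + 1), q ^ i) ≤ 2 * q ^ b := by
  induction b with
  | zero => simp
  | succ b ih =>
    rw [Finset.sum_range_succ]
    have h1 : 2 * q ^ b ≤ q * q ^ b := Nat.mul_le_mul_right _ hq
    have h2 : q ^ (b + 1) = q * q ^ b := by ring
    omega

private theorem b1_sigma {q : ℕ} (hq : q.Prime) (b : ℕ) : sigma 1 (q ^ b) ≤ 2 * q ^ b := by
  rw [sigma_one_apply_prime_pow hq]
  exact b1_geom hq.two_le b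

private theorem b1_exp {z Y K b q : ℕ} (hz : 2 ≤ z) (hzq : z ≤ q) (hK : Y < z ^ (K + 1))
    (hb : q ^ b ≤ Y) : b ≤ K := by
  have h1 : z ^ b ≤ q ^ b := Nat.pow_le_pow_left hzq b
  have h2 : z ^ b < z ^ (K + 1) := by omega
  have h3 := (Nat.pow_lt_pow_iff_right (by omega : 1 < z)).1 h2
  omega

private theorem b1_inner {z Y K M q : ℕ} (hz : 2 ≤ z) (hK : 2 * Y < z ^ (K + 1)) (hq : q.Prime)
    (hM : ∀ b, q ^ b ≤ Y → b ≤ M) :
    ((((Finset.Icc 1 Y).filter (fun b => q ^ b ≤ Y)).biUnion (fun b =>
        (sigma 1 (q ^ b)).primeFactors)).filter (fun q => z < q)).card ≤ M * K := by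
  rw [Finset.filter_biUnion]
  refine (Finset.card_biUnion_le_card_mul _ _ K ?_).trans ?_
  · intro b hb
    have hb' := (Finset.mem_filter.1 hb).2
    refine card_big_primes (z := z) (K := K) (sigma_pos 1 _ (pow_ne_zero _ hq.ne_zero)) ?_
    have := b1_sigma hq b
    omega
  · refine Nat.mul_le_mul_right _ ?_
    have hs : (Finset.Icc 1 Y).filter (fun b => q ^ b ≤ Y) ⊆ Finset.Icc 1 M := by
      intro b hb
      rw [Finset.mem_filter, Finset.mem_Icc] at hb
      rw [Finset.mem_Icc]
      exact ⟨hb.1.1, hM b hb.2⟩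
    simpa using Finset.card_le_card hs

/-- `#{q ∈ Bad i : q > z} ≤ z L K (K² + 2)^i`.
Proof: let `u_i` be this number, `u_0 = 0`. New primes `> z` at step `i+1` come from
`q ∈ Bad i, q ≤ z` (at most `z` of them, each with at most `L` exponents `b` as
`2^b ≤ q^b ≤ Y < 2^(L+1)`) or from `q ∈ Bad i, q > z` (`u_i` of them, each with at most `K`
exponents as `z^b ≤ q^b ≤ Y < z^(K+1)`); each `σ(q^b) ≤ 2 q^b ≤ 2 Y < z^(K+1)` has at most `K` prime
factors `> z` (`card_big_primes`).  So `u_{i+1} ≤ u_i + z L K + u_i K²`, and by induction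
`u_i ≤ z L K (K²+2)^i`. -/
theorem card_Bad_le {z Y K L : ℕ} (hz : 2 ≤ z) (hK : 2 * Y < z ^ (K + 1)) (hL : Y < 2 ^ (L + 1))
    (i : ℕ) :
    ((Bad z Y i).filter (fun q => z < q)).card ≤ z * L * K * (K ^ 2 + 2) ^ i := by
  have hYK : Y < z ^ (K + 1) := by omega
  induction i with
  | zero =>
    have : (Bad z Y 0).filter (fun q => z < q) = ∅ := by
      rw [Finset.filter_eq_empty_iff]
      intro q hq
      rw [Bad] at hq
      have := (Finset.mem_Icc.1 (Finset.mem_filter.1 hq).1).2
      omega
    rw [this]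
    simp
  | succ i ih =>
    set A := Bad z Y i with hA
    set f : ℕ → Finset ℕ := fun q => (((Finset.Icc 1 Y).filter (fun b => q ^ b ≤ Y)).biUnion
      (fun b => (sigma 1 (q ^ b)).primeFactors)).filter (fun q => z < q) with hf
    have hsub : (Bad z Y (i + 1)).filter (fun q => z < q) ⊆ (A.filter (fun q => z < q)) ∪
        ((A.filter (fun q => q ≤ z)).biUnion f ∪ (A.filter (fun q => z < q)).biUnion f) := by
      intro p hp
      rw [Finset.mem_filter, Bad, Finset.mem_union] at hp
      obtain ⟨hp, hzp⟩ := hp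
      rcases hp with hp | hp
      · exact Finset.mem_union_left _ (Finset.mem_filter.2 ⟨hp, hzp⟩)
      · rw [Finset.mem_biUnion] at hp
        obtain ⟨q, hq, hp⟩ := hp
        have hpf : p ∈ f q := Finset.mem_filter.2 ⟨hp, hzp⟩
        refine Finset.mem_union_right _ ?_
        rcases Nat.lt_or_ge z q with h | h
        · exact Finset.mem_union_right _ (Finset.mem_biUnion.2 ⟨q, Finset.mem_filter.2 ⟨hq, h⟩, hpf⟩)
        · exact Finset.mem_union_left _ (Finset.mem_biUnion.2 ⟨q, Finset.mem_filter.2 ⟨hq, h⟩, hpf⟩)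
    have h1 : ((A.filter (fun q => q ≤ z)).biUnion f).card ≤ z * (L * K) := by
      refine (Finset.card_biUnion_le_card_mul _ _ (L * K) ?_).trans ?_
      · intro q hq
        have hqp : q.Prime := Bad_prime (Finset.mem_filter.1 hq).1
        exact b1_inner hz hK hqp (fun b hb => b1_exp le_rfl hqp.two_le hL hb)
      · refine Nat.mul_le_mul_right _ ?_
        have hs : A.filter (fun q => q ≤ z) ⊆ Finset.Icc 1 z := by
          intro q hq
          rw [Finset.mem_filter] at hq
          rw [Finset.mem_Icc]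
          exact ⟨(Bad_prime hq.1).one_le, hq.2⟩
        simpa using Finset.card_le_card hs
    have h2 : ((A.filter (fun q => z < q)).biUnion f).card ≤
        (A.filter (fun q => z < q)).card * (K * K) := by
      refine Finset.card_biUnion_le_card_mul _ _ (K * K) ?_
      intro q hq
      have hqp : q.Prime := Bad_prime (Finset.mem_filter.1 hq).1
      exact b1_inner hz hK hqp
        (fun b hb => b1_exp hz (Finset.mem_filter.1 hq).2.le hYK hb)
    have h3 := (Finset.card_le_card hsub).trans ((Finset.card_union_le _ _).trans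
      (Nat.add_le_add_left (Finset.card_union_le _ _) _))
    have h4 : 1 ≤ (K ^ 2 + 2) ^ i := Nat.one_le_pow _ _ (by positivity)
    calc _ ≤ (A.filter (fun q => z < q)).card +
          (((A.filter (fun q => q ≤ z)).biUnion f).card +
            ((A.filter (fun q => z < q)).biUnion f).card) := h3
      _ ≤ z * L * K * (K ^ 2 + 2) ^ i + (z * (L * K) +
            z * L * K * (K ^ 2 + 2) ^ i * (K * K)) := by
          refine Nat.add_le_add ih (Nat.add_le_add h1 (h2.trans (Nat.mul_le_mul_right _ ih)))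
      _ ≤ z * L * K * (K ^ 2 + 2) ^ (i + 1) := by
          have h5 : z * (L * K) ≤ z * L * K * (K ^ 2 + 2) ^ i := by
            calc z * (L * K) = z * L * K * 1 := by ring
              _ ≤ _ := Nat.mul_le_mul_left _ h4
          calc _ ≤ z * L * K * (K ^ 2 + 2) ^ i + (z * L * K * (K ^ 2 + 2) ^ i +
                z * L * K * (K ^ 2 + 2) ^ i * (K * K)) := by gcongr
            _ = _ := by ring

end Pool.Agent.W_9df192_h86
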