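import Mathlib

set_option autoImplicit false

/-! B9: smooth numbers have small density. -/

namespace Pool.Agent.W_9df192_h86

private lemma B9_pow (k : ℕ) :
    ∑ p ∈ (Finset.Icc 1 (2 ^ k)).filter Nat.Prime, Real.log p / p ≤ 2 * Real.log 4 * k := by
  induction k with
  | zero => simp [Finset.sum_filter, Nat.not_prime_one]
  | succ k ih =>
    have hsplit : (Finset.Icc 1 (2 ^ (k + 1))).filter Nat.Prime =
        (Finset.Icc 1 (2 ^ k)).filter Nat.Prime ∪
          (Finset.Ioc (2 ^ k) (2 ^ (k + 1))).filter Nat.Prime := by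
      ext p
      have h2 : 2 ^ k ≤ 2 ^ (k + 1) := Nat.pow_le_pow_right (by norm_num) (by omega)
      have h1 : 1 ≤ 2 ^ k := Nat.one_le_two_pow
      simp only [Finset.mem_union, Finset.mem_filter, Finset.mem_Icc, Finset.mem_Ioc]
      constructor
      · rintro ⟨⟨a, b⟩, c⟩
        by_cases h : p ≤ 2 ^ k
        · exact Or.inl ⟨⟨a, h⟩, c⟩
        · exact Or.inr ⟨⟨by omega, b⟩, c⟩
      · rintro (⟨⟨a, b⟩, c⟩ | ⟨⟨a, b⟩, c⟩)
        · exact ⟨⟨a, by omega⟩, c⟩
        · exact ⟨⟨by omega, b⟩, c⟩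
    have hdisj : Disjoint ((Finset.Icc 1 (2 ^ k)).filter Nat.Prime)
        ((Finset.Ioc (2 ^ k) (2 ^ (k + 1))).filter Nat.Prime) := by
      rw [Finset.disjoint_left]
      intro p hp hq
      have h1 := (Finset.mem_Icc.1 (Finset.mem_filter.1 hp).1).2
      have h2 := (Finset.mem_Ioc.1 (Finset.mem_filter.1 hq).1).1
      omega
    rw [hsplit, Finset.sum_union hdisj]
    have hblock : ∑ p ∈ (Finset.Ioc (2 ^ k) (2 ^ (k + 1))).filter Nat.Prime, Real.log p / p ≤
        2 * Real.log 4 := by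
      have hth := Chebyshev.theta_le_log4_mul_x (x := (2 : ℝ) ^ (k + 1)) (by positivity)
      rw [Chebyshev.theta] at hth
      have hfl : ⌊(2 : ℝ) ^ (k + 1)⌋₊ = 2 ^ (k + 1) := by
        have : ((2 : ℝ) ^ (k + 1)) = ((2 ^ (k + 1) : ℕ) : ℝ) := by push_cast; rfl
        rw [this, Nat.floor_natCast]
      rw [hfl] at hth
      have h2k : (0 : ℝ) < 2 ^ k := by positivity
      calc ∑ p ∈ (Finset.Ioc (2 ^ k) (2 ^ (k + 1))).filter Nat.Prime, Real.log p / p
          ≤ ∑ p ∈ (Finset.Ioc (2 ^ k) (2 ^ (k + 1))).filter Nat.Prime,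
              Real.log p / 2 ^ k := by
            apply Finset.sum_le_sum
            intro p hp
            have h1 := (Finset.mem_Ioc.1 (Finset.mem_filter.1 hp).1).1
            have h2 : (1 : ℝ) ≤ p := by exact_mod_cast (Finset.mem_filter.1 hp).2.one_le
            have h3 : ((2 : ℝ) ^ k) ≤ p := by exact_mod_cast h1.le
            exact div_le_div_of_nonneg_left (Real.log_nonneg h2) h2k h3
        _ = (∑ p ∈ (Finset.Ioc (2 ^ k) (2 ^ (k + 1))).filter Nat.Prime, Real.log p) / 2 ^ k := by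
            rw [Finset.sum_div]
        _ ≤ (Real.log 4 * 2 ^ (k + 1)) / 2 ^ k := by
            apply div_le_div_of_nonneg_right _ h2k.le
            refine le_trans ?_ hth
            apply Finset.sum_le_sum_of_subset_of_nonneg
            · intro p hp
              obtain ⟨h1, h2⟩ := Finset.mem_filter.1 hp
              obtain ⟨h3, h4⟩ := Finset.mem_Ioc.1 h1
              exact Finset.mem_filter.2 ⟨Finset.mem_Ioc.2 ⟨by omega, h4⟩, h2⟩
            · intro p hp _
              have h2 : (1 : ℝ) ≤ p := by exact_mod_cast (Finset.mem_filter.1 hp).2.one_le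
              exact Real.log_nonneg h2
        _ = 2 * Real.log 4 := by
            rw [pow_succ]
            field_simp
    push_cast
    linarith

/-- `∑_{p ≤ y} log p / p ≤ 6 (log y + 1)`: dyadic blocks with `Chebyshev.theta_le_log4_mul_x`
(or any Mertens bound). -/
theorem mertens_weak (y : ℕ) (hy : 1 ≤ y) :
    ∑ p ∈ (Finset.Icc 1 y).filter Nat.Prime, Real.log p / p ≤ 6 * (Real.log y + 1) := by
  have hl2 := Real.log_two_lt_d9
  have hl2' := Real.log_two_gt_d9
  have h4 : Real.log 4 = 2 * Real.log 2 := by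
    have : (4 : ℝ) = 2 ^ 2 := by norm_num
    rw [this, Real.log_pow]
    norm_num
  have hlogy : 0 ≤ Real.log y := Real.log_nonneg (by exact_mod_cast hy)
  have hk : y ≤ 2 ^ (Nat.log 2 y + 1) := (Nat.lt_pow_succ_log_self (by norm_num) y).le
  have h1 := B9_pow (Nat.log 2 y + 1)
  have h2 : ∑ p ∈ (Finset.Icc 1 y).filter Nat.Prime, Real.log p / p ≤
      ∑ p ∈ (Finset.Icc 1 (2 ^ (Nat.log 2 y + 1))).filter Nat.Prime, Real.log p / p := by
    apply Finset.sum_le_sum_of_subset_of_nonneg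
    · intro p hp
      obtain ⟨h1, h2⟩ := Finset.mem_filter.1 hp
      obtain ⟨h3, h4⟩ := Finset.mem_Icc.1 h1
      exact Finset.mem_filter.2 ⟨Finset.mem_Icc.2 ⟨h3, by omega⟩, h2⟩
    · intro p hp _
      have h2 : (1 : ℝ) ≤ p := by exact_mod_cast (Finset.mem_filter.1 hp).2.one_le
      exact div_nonneg (Real.log_nonneg h2) (by linarith)
  have h3 : (Nat.log 2 y : ℝ) * Real.log 2 ≤ Real.log y := by
    have h5 : 2 ^ Nat.log 2 y ≤ y := Nat.pow_log_le_self 2 (by omega)
    have h6 : ((2 : ℝ) ^ Nat.log 2 y) ≤ y := by exact_mod_cast h5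
    have h7 := Real.log_le_log (by positivity) h6
    rwa [Real.log_pow] at h7
  push_cast at h1
  rw [h4] at h1
  nlinarith

private lemma B9_fact (p x : ℕ) :
    ∑ n ∈ Finset.Icc 1 x, n.factorization p = x.factorial.factorization p := by
  induction x with
  | zero => simp
  | succ x ih =>
    rw [Finset.sum_Icc_succ_top (by omega), ih, Nat.factorial_succ,
      Nat.factorization_mul (by omega) (Nat.factorial_ne_zero x)]
    simp [add_comm]

private lemma B9_val (p x : ℕ) (hp : p.Prime) :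
    (x.factorial.factorization p : ℝ) ≤ 2 * x / p := by
  have h1 := Nat.sub_one_mul_factorization_factorial (n := x) hp
  have h2 : (p - 1) * x.factorial.factorization p ≤ x := by
    rw [h1]; exact Nat.sub_le _ _
  have h3 : ((p : ℝ) - 1) * (x.factorial.factorization p : ℝ) ≤ x := by
    have : (((p - 1 : ℕ) : ℝ)) * (x.factorial.factorization p : ℝ) ≤ x := by exact_mod_cast h2
    rwa [Nat.cast_sub hp.one_le, Nat.cast_one] at this
  have h4 : (2 : ℝ) ≤ p := by exact_mod_cast hp.two_le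
  rw [le_div_iff₀ (by linarith)]
  have h5 : (0 : ℝ) ≤ (x.factorial.factorization p : ℝ) := Nat.cast_nonneg _
  nlinarith

private lemma B9_sum (x y : ℕ) (hy : 1 ≤ y) (S : Finset ℕ)
    (hS : ∀ n ∈ S, 1 ≤ n ∧ n ≤ x ∧ ∀ p : ℕ, p.Prime → p ∣ n → p ≤ y) :
    ∑ n ∈ S, Real.log n ≤ 12 * x * (Real.log y + 1) := by
  have h1 : ∀ n ∈ S, Real.log n =
      ∑ p ∈ (Finset.Icc 1 y).filter Nat.Prime, (n.factorization p : ℝ) * Real.log p := by
    intro n hn
    obtain ⟨ha, hb, hc⟩ := hS n hn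
    rw [Real.log_nat_eq_sum_factorization, Finsupp.sum]
    apply Finset.sum_subset
    · intro p hp
      rw [Nat.support_factorization] at hp
      have h1 := Nat.prime_of_mem_primeFactors hp
      have h2 := Nat.dvd_of_mem_primeFactors hp
      exact Finset.mem_filter.2 ⟨Finset.mem_Icc.2 ⟨h1.one_le, hc p h1 h2⟩, h1⟩
    · intro p _ hp
      rw [Finsupp.notMem_support_iff] at hp
      rw [hp]
      simp
  rw [Finset.sum_congr rfl h1, Finset.sum_comm]
  have h2 : ∀ p ∈ (Finset.Icc 1 y).filter Nat.Prime,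
      ∑ n ∈ S, (n.factorization p : ℝ) * Real.log p ≤ 2 * x * (Real.log p / p) := by
    intro p hp
    have hpp := (Finset.mem_filter.1 hp).2
    have h2 : (1 : ℝ) ≤ p := by exact_mod_cast hpp.one_le
    have hlog := Real.log_nonneg h2
    rw [← Finset.sum_mul]
    have h3 : ∑ n ∈ S, (n.factorization p : ℝ) ≤ 2 * x / p := by
      refine le_trans ?_ (B9_val p x hpp)
      rw [← B9_fact p x]
      push_cast
      apply Finset.sum_le_sum_of_subset_of_nonneg
      · intro n hn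
        exact Finset.mem_Icc.2 ⟨(hS n hn).1, (hS n hn).2.1⟩
      · intro _ _ _
        exact Nat.cast_nonneg _
    calc (∑ n ∈ S, (n.factorization p : ℝ)) * Real.log p ≤ 2 * x / p * Real.log p :=
          mul_le_mul_of_nonneg_right h3 hlog
      _ = _ := by ring
  refine (Finset.sum_le_sum h2).trans ?_
  rw [← Finset.mul_sum]
  have h3 := mertens_weak y hy
  have h4 : (0 : ℝ) ≤ 2 * x := by positivity
  calc 2 * (x : ℝ) * ∑ p ∈ (Finset.Icc 1 y).filter Nat.Prime, Real.log p / p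
      ≤ 2 * x * (6 * (Real.log y + 1)) := mul_le_mul_of_nonneg_left h3 h4
    _ = _ := by ring

/-- Few smooth numbers: for every `ε > 0` there is `η > 0` such that for large `x` at most `ε x`
numbers `n ≤ x` have no prime factor `> x^η`.
Proof: let `S` be the set, `y = x^η`.  For `n ∈ S`, `n > √x`:
`(1/2) log x ≤ log n = ∑_{p ∣ n} v_p(n) log p = ∑_{p^a ∣ n, a ≥ 1} log p`.  Sum over `n`:
`(1/2) log x * #(S ∩ (√x, x]) ≤ ∑_{p ≤ y} ∑_{a ≥ 1} log p * (x / p^a) ≤ 2 x ∑_{p ≤ y} log p / p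
≤ 12 x (log y + 1) = 12 x (η log x + 1)`.  So `#S ≤ √x + 24 x (η + 1 / log x)`. -/
theorem smooth_rare : ∀ ε : ℝ, 0 < ε → ∃ η : ℝ, 0 < η ∧ η < 1 ∧ ∃ x₀ : ℕ, ∀ x : ℕ, x₀ ≤ x →
    ∀ S : Finset ℕ, (∀ n ∈ S, 1 ≤ n ∧ n ≤ x ∧ ∀ p : ℕ, p.Prime → p ∣ n → (p : ℝ) ≤ (x : ℝ) ^ η) →
    (S.card : ℝ) ≤ ε * x := by
  classical
  intro ε hε
  refine ⟨min (ε / 96) (1 / 2), lt_min (by positivity) (by norm_num),
    lt_of_le_of_lt (min_le_right _ _) (by norm_num), ?_⟩
  obtain ⟨η, hη⟩ : ∃ η, η = min (ε / 96) (1 / 2) := ⟨_, rfl⟩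
  rw [← hη]
  have hη0 : 0 < η := by rw [hη]; exact lt_min (by positivity) (by norm_num)
  have hηε : η ≤ ε / 96 := by rw [hη]; exact min_le_left _ _
  refine ⟨⌈max (Real.exp (96 / ε)) (16 / ε ^ 2)⌉₊ + 1, ?_⟩
  intro x hx S hS
  have hx1 : 1 ≤ x := by omega
  have hxR : (1 : ℝ) ≤ x := by exact_mod_cast hx1
  have hxR0 : (0 : ℝ) < x := by linarith
  have hxm : max (Real.exp (96 / ε)) (16 / ε ^ 2) ≤ x := by
    have h1 := Nat.le_ceil (max (Real.exp (96 / ε)) (16 / ε ^ 2))
    have h2 : ((⌈max (Real.exp (96 / ε)) (16 / ε ^ 2)⌉₊ : ℕ) : ℝ) ≤ x := by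
      exact_mod_cast (by omega : ⌈max (Real.exp (96 / ε)) (16 / ε ^ 2)⌉₊ ≤ x)
    exact h1.trans h2
  have hxe : Real.exp (96 / ε) ≤ x := (le_max_left _ _).trans hxm
  have hxs : 16 / ε ^ 2 ≤ x := (le_max_right _ _).trans hxm
  have hL : 96 / ε ≤ Real.log x := by
    rw [← Real.log_exp (96 / ε)]
    exact Real.log_le_log (Real.exp_pos _) hxe
  have hL0 : 0 < Real.log x := lt_of_lt_of_le (by positivity) hL
  -- the square root
  have hsq : Real.sqrt x ≤ ε / 4 * x := by
    have h1 : 4 / ε ≤ Real.sqrt x := by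
      apply Real.le_sqrt_of_sq_le
      have h0 : (4 / ε) ^ 2 = 16 / ε ^ 2 := by rw [div_pow]; norm_num
      rw [h0]
      exact hxs
    have h2 : Real.sqrt x * Real.sqrt x = x := Real.mul_self_sqrt hxR0.le
    have h3 : 0 < Real.sqrt x := Real.sqrt_pos.2 hxR0
    have h4 : 1 ≤ ε / 4 * Real.sqrt x := by
      have := mul_le_mul_of_nonneg_left h1 (by positivity : 0 ≤ ε / 4)
      have h5 : ε / 4 * (4 / ε) = 1 := by field_simp
      linarith
    calc Real.sqrt x = 1 * Real.sqrt x := by ring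
      _ ≤ (ε / 4 * Real.sqrt x) * Real.sqrt x := mul_le_mul_of_nonneg_right h4 h3.le
      _ = ε / 4 * x := by rw [mul_assoc, h2]
  -- the big part
  obtain ⟨y, hy⟩ : ∃ y : ℕ, y = ⌊(x : ℝ) ^ η⌋₊ := ⟨_, rfl⟩
  have hxη : 1 ≤ (x : ℝ) ^ η := Real.one_le_rpow hxR hη0.le
  have hy1 : 1 ≤ y := by
    rw [hy]
    exact Nat.le_floor (by simpa using hxη)
  have hyx : (y : ℝ) ≤ (x : ℝ) ^ η := by
    rw [hy]
    exact Nat.floor_le (by linarith)
  have hlogy : Real.log y ≤ η * Real.log x := by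
    have h1 : (0 : ℝ) < y := by exact_mod_cast hy1
    have h2 := Real.log_le_log h1 hyx
    rwa [Real.log_rpow hxR0] at h2
  have hsum := B9_sum x y hy1 (S.filter (fun n => Real.sqrt x < n)) (by
    intro n hn
    obtain ⟨ha, _⟩ := Finset.mem_filter.1 hn
    obtain ⟨h1, h2, h3⟩ := hS n ha
    refine ⟨h1, h2, fun p hp hpn => ?_⟩
    rw [hy]
    exact Nat.le_floor (h3 p hp hpn))
  have hlow : ((S.filter (fun n : ℕ => Real.sqrt x < n)).card : ℝ) * (Real.log x / 2) ≤
      ∑ n ∈ S.filter (fun n : ℕ => Real.sqrt x < n), Real.log n := by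
    rw [← nsmul_eq_mul]
    apply Finset.card_nsmul_le_sum
    intro n hn
    have h1 := (Finset.mem_filter.1 hn).2
    have h2 : Real.log (Real.sqrt x) = Real.log x / 2 := Real.log_sqrt hxR0.le
    rw [← h2]
    exact Real.log_le_log (Real.sqrt_pos.2 hxR0) h1.le
  have hbig : ((S.filter (fun n : ℕ => Real.sqrt x < n)).card : ℝ) ≤ ε / 2 * x := by
    have h1 : ((S.filter (fun n : ℕ => Real.sqrt x < n)).card : ℝ) * (Real.log x / 2) ≤
        12 * x * (η * Real.log x + 1) := by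
      refine hlow.trans (hsum.trans ?_)
      apply mul_le_mul_of_nonneg_left _ (by positivity)
      linarith
    have h2 : 12 * (x : ℝ) * (η * Real.log x + 1) ≤ (ε / 2 * x) * (Real.log x / 2) := by
      have h3 : η * Real.log x ≤ ε / 96 * Real.log x :=
        mul_le_mul_of_nonneg_right hηε hL0.le
      have h4 : 1 ≤ ε / 96 * Real.log x := by
        have := mul_le_mul_of_nonneg_left hL (by positivity : 0 ≤ ε / 96)
        have h5 : ε / 96 * (96 / ε) = 1 := by field_simp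
        linarith
      have h5 : η * Real.log x + 1 ≤ ε / 48 * Real.log x := by linarith
      have h6 := mul_le_mul_of_nonneg_left h5 (by positivity : (0 : ℝ) ≤ 12 * x)
      calc 12 * (x : ℝ) * (η * Real.log x + 1) ≤ 12 * x * (ε / 48 * Real.log x) := h6
        _ = (ε / 2 * x) * (Real.log x / 2) := by ring
    have h3 := h1.trans h2
    exact le_of_mul_le_mul_right h3 (by positivity)
  have hsmall : ((S.filter (fun n : ℕ => ¬ Real.sqrt x < n)).card : ℝ) ≤ Real.sqrt x := by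
    have h1 : (S.filter (fun n : ℕ => ¬ Real.sqrt x < n)) ⊆ Finset.Icc 1 ⌊Real.sqrt x⌋₊ := by
      intro n hn
      obtain ⟨ha, hb⟩ := Finset.mem_filter.1 hn
      exact Finset.mem_Icc.2 ⟨(hS n ha).1, Nat.le_floor (not_lt.1 hb)⟩
    have h2 := Finset.card_le_card h1
    rw [Nat.card_Icc] at h2
    have h3 : ((S.filter (fun n : ℕ => ¬ Real.sqrt x < n)).card : ℝ) ≤ (⌊Real.sqrt x⌋₊ : ℝ) := by
      exact_mod_cast (by omega : _ ≤ ⌊Real.sqrt x⌋₊)
    exact h3.trans (Nat.floor_le (Real.sqrt_nonneg _))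
  have hcard : (S.card : ℝ) = ((S.filter (fun n : ℕ => Real.sqrt x < n)).card : ℝ) +
      ((S.filter (fun n : ℕ => ¬ Real.sqrt x < n)).card : ℝ) := by
    rw [← Nat.cast_add, Finset.card_filter_add_card_filter_not]
  rw [hcard]
  have h1 : 0 ≤ ε * (x : ℝ) := by positivity
  linarith

end Pool.Agent.W_9df192_h86
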