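import Pool.Agent.W_9df192_h86.B8
import Pool.Agent.W_9df192_h86.B9

set_option autoImplicit false

/-! B10: almost all `n`. -/

namespace Pool.Agent.W_9df192_h86

open ArithmeticFunction

private lemma B10_fin {x : ℕ} {T : Set ℕ} (hT : ∀ n ∈ T, 1 ≤ n ∧ n ≤ x) : T.Finite :=
  (Finset.Icc 1 x).finite_toSet.subset fun n hn => by
    rw [Finset.mem_coe, Finset.mem_Icc]
    exact hT n hn

private lemma B10_rpow {ε δ : ℝ} (hε : 0 < ε) (hδ : 0 < δ) :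
    ∃ x₀ : ℕ, ∀ x : ℕ, x₀ ≤ x → (x : ℝ) ^ (1 - δ) ≤ ε * x := by
  have h := tendsto_rpow_atTop hδ
  have h2 := (h.comp tendsto_natCast_atTop_atTop).eventually_ge_atTop (1 / ε)
  obtain ⟨x₀, hx₀⟩ := Filter.eventually_atTop.1 (h2.and (Filter.eventually_ge_atTop 1))
  refine ⟨x₀, fun x hx => ?_⟩
  obtain ⟨g1, g2⟩ := hx₀ x hx
  have hx0 : (0 : ℝ) < x := by exact_mod_cast g2
  simp only [Function.comp_apply] at g1
  rw [div_le_iff₀ hε] at g1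
  have h3 : (x : ℝ) ^ (1 - δ) * (x : ℝ) ^ δ = x := by
    rw [← Real.rpow_add hx0]
    simp
  have h4 : 0 < (x : ℝ) ^ (1 - δ) := Real.rpow_pos_of_pos hx0 _
  nlinarith

/-- Almost all `n`: `smooth_rare` with `ε / 2` gives `η`; `nonsmooth` with this `η`;
`x^(1-δ) ≤ (ε/2) x` for large `x`. -/
theorem almost_all : ∀ ε : ℝ, 0 < ε → ∃ c : ℝ, 0 < c ∧ ∃ x₀ : ℕ, ∀ x : ℕ, x₀ ≤ x →
    (({n : ℕ | 1 ≤ n ∧ n ≤ x ∧ ∃ m : ℕ, 1 ≤ m ∧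
        (m : ℝ) ≤ c * Real.log x / Real.log (Real.log (Real.log x)) ∧
        n ∣ (fun t => sigma 1 t)^[m] n}.ncard : ℕ) : ℝ) ≤ ε * x := by
  classical
  intro ε hε
  obtain ⟨η, hη0, hη1, x₁, h₁⟩ := smooth_rare (ε / 2) (by positivity)
  obtain ⟨c, hc, δ, hδ, x₂, h₂⟩ := nonsmooth η hη0 hη1
  obtain ⟨x₃, h₃⟩ := B10_rpow (ε := ε / 2) (by positivity) hδ
  refine ⟨c, hc, max x₁ (max x₂ x₃), fun x hx => ?_⟩
  have hx1 : x₁ ≤ x := (le_max_left _ _).trans hx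
  have hx2 : x₂ ≤ x := ((le_max_left _ _).trans (le_max_right _ _)).trans hx
  have hx3 : x₃ ≤ x := ((le_max_right _ _).trans (le_max_right _ _)).trans hx
  have hfin : {n : ℕ | 1 ≤ n ∧ n ≤ x ∧ ∃ m : ℕ, 1 ≤ m ∧
        (m : ℝ) ≤ c * Real.log x / Real.log (Real.log (Real.log x)) ∧
        n ∣ (fun t => sigma 1 t)^[m] n}.Finite :=
    B10_fin (x := x) fun n hn => ⟨hn.1, hn.2.1⟩
  rw [Set.ncard_eq_toFinset_card _ hfin]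
  have ha := h₁ x hx1 (hfin.toFinset.filter fun n =>
    ∀ p : ℕ, p.Prime → p ∣ n → (p : ℝ) ≤ (x : ℝ) ^ η) (by
      intro n hn
      obtain ⟨g1, g2⟩ := Finset.mem_filter.1 hn
      have g3 := (Set.Finite.mem_toFinset _).1 g1
      exact ⟨g3.1, g3.2.1, g2⟩)
  have hb := h₂ x hx2 (hfin.toFinset.filter fun n =>
    ¬ ∀ p : ℕ, p.Prime → p ∣ n → (p : ℝ) ≤ (x : ℝ) ^ η) (by
      intro n hn
      obtain ⟨g1, g2⟩ := Finset.mem_filter.1 hn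
      have g3 := (Set.Finite.mem_toFinset _).1 g1
      refine ⟨g3.1, g3.2.1, ?_, g3.2.2⟩
      push Not at g2
      obtain ⟨p, hp, hpn, hpx⟩ := g2
      exact ⟨p, hp, hpx, hpn⟩)
  have hcard := Finset.card_filter_add_card_filter_not (s := hfin.toFinset)
    (fun n => ∀ p : ℕ, p.Prime → p ∣ n → (p : ℝ) ≤ (x : ℝ) ^ η)
  rw [← hcard, Nat.cast_add]
  have h3 := h₃ x hx3
  linarith

/-- Power saving for `n` with a prime factor `> x^η` (`nonsmooth` in the language of `ncard`). -/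
theorem power_saving : ∀ η : ℝ, 0 < η → η < 1 → ∃ c : ℝ, 0 < c ∧ ∃ δ : ℝ, 0 < δ ∧ ∃ x₀ : ℕ,
    ∀ x : ℕ, x₀ ≤ x →
    (({n : ℕ | 1 ≤ n ∧ n ≤ x ∧ (∃ p : ℕ, p.Prime ∧ (x : ℝ) ^ η < p ∧ p ∣ n) ∧
      ∃ m : ℕ, 1 ≤ m ∧ (m : ℝ) ≤ c * Real.log x / Real.log (Real.log (Real.log x)) ∧
        n ∣ (fun t => sigma 1 t)^[m] n}.ncard : ℕ) : ℝ) ≤ (x : ℝ) ^ (1 - δ) := by
  classical
  intro η hη0 hη1
  obtain ⟨c, hc, δ, hδ, x₂, h₂⟩ := nonsmooth η hη0 hη1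
  refine ⟨c, hc, δ, hδ, x₂, fun x hx => ?_⟩
  have hfin : {n : ℕ | 1 ≤ n ∧ n ≤ x ∧ (∃ p : ℕ, p.Prime ∧ (x : ℝ) ^ η < p ∧ p ∣ n) ∧
      ∃ m : ℕ, 1 ≤ m ∧ (m : ℝ) ≤ c * Real.log x / Real.log (Real.log (Real.log x)) ∧
        n ∣ (fun t => sigma 1 t)^[m] n}.Finite :=
    B10_fin (x := x) fun n hn => ⟨hn.1, hn.2.1⟩
  rw [Set.ncard_eq_toFinset_card _ hfin]
  refine h₂ x hx hfin.toFinset ?_
  intro n hn
  have g := hfin.mem_toFinset.1 hn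
  exact g

end Pool.Agent.W_9df192_h86
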