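import Pool.Agent.W_9df192_h86.B0

set_option autoImplicit false

/-! B2: sources of good primes. -/

namespace Pool.Agent.W_9df192_h86

open ArithmeticFunction

/-- Core of the three statements: a prime power factor of `it t n` whose `σ` is divisible by a good
prime. -/
private theorem source_core {z Y t n q r : ℕ} (hz : 2 ≤ z) (hY : it t n ≤ Y)
    (hR : Reg z Y (t + 1) n) (hq : q.Prime) (hqB : q ∉ Bad z Y (t + 1))
    (hr : r ∈ (it t n).primeFactors) (hd : q ∣ sigma 1 (r ^ (it t n).factorization r)) :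
    r ∉ Bad z Y t ∧ (it t n).factorization r = 1 ∧ q ∣ r + 1 ∧ q < r := by
  have hrp := Nat.prime_of_mem_primeFactors hr
  have hrd := Nat.dvd_of_mem_primeFactors hr
  have h0 : it t n ≠ 0 := (Nat.mem_primeFactors.1 hr).2.2
  have hv : 1 ≤ (it t n).factorization r :=
    hrp.factorization_pos_of_dvd h0 hrd
  have hle : r ^ (it t n).factorization r ≤ Y :=
    le_trans (Nat.le_of_dvd (Nat.pos_of_ne_zero h0) (Nat.ordProj_dvd _ _)) hY
  have hrB : r ∉ Bad z Y t := fun hB => hqB (mem_Bad_succ hB hv hle hq hd)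
  have hv1 : (it t n).factorization r = 1 := by
    by_contra hne
    have h2 : 2 ≤ (it t n).factorization r := by omega
    exact hR t (Nat.lt_succ_self t) r hrp hrB
      (dvd_trans (pow_dvd_pow r h2) (Nat.ordProj_dvd _ _))
  have hs : sigma 1 (r ^ 1) = r + 1 := by
    rw [sigma_one_apply_prime_pow hrp]
    simp [Finset.sum_range_succ, add_comm]
  have hd1 : q ∣ r + 1 := by
    rw [hv1, hs] at hd
    exact hd
  refine ⟨hrB, hv1, hd1, ?_⟩
  have hqz := gt_of_not_mem_Bad hq hqB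
  have hrz := gt_of_not_mem_Bad hrp hrB
  have hqo : q % 2 = 1 := by
    rcases hq.eq_two_or_odd with h | h
    · omega
    · exact h
  have hro : r % 2 = 1 := by
    rcases hrp.eq_two_or_odd with h | h
    · omega
    · exact h
  have hle2 := Nat.le_of_dvd (Nat.succ_pos r) hd1
  rcases Nat.lt_trichotomy q r with h | h | h
  · exact h
  · exfalso
    rw [h] at hd1
    have := (Nat.dvd_add_right (dvd_refl r)).1 hd1
    exact hrp.one_lt.ne' (Nat.dvd_one.1 this)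
  · exfalso
    have : q = r + 1 := by omega
    omega

private theorem it_succ_prod {t n : ℕ} (h0 : it t n ≠ 0) :
    it (t + 1) n = ∏ r ∈ (it t n).primeFactors, sigma 1 (r ^ (it t n).factorization r) := by
  rw [it_succ]
  rw [isMultiplicative_sigma.multiplicative_factorization (sigma 1) h0]
  rfl

/-- Source of a good prime.
Proof: `it (t+1) n = σ(it t n) = ∏_{r ∣ it t n} σ(r^{v_r})`
(`isMultiplicative_sigma`, `Nat.prod_factorization...`), so `q ∣ σ(r^b)` for a prime `r ∣ it t n`,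
`b = v_r(it t n) ≥ 1`, `r^b ≤ it t n ≤ Y`.  If `r ∈ Bad t` then `q ∈ Bad (t+1)` (`mem_Bad_succ`).  So
`r ∉ Bad t` and `Reg` gives `b = 1`, `q ∣ r + 1`.  `q, r > z ≥ 2` are odd, so `2 q ∣ r + 1`. -/
theorem source {z Y t n q : ℕ} (hz : 2 ≤ z) (hn : 1 ≤ n) (hY : it t n ≤ Y)
    (hR : Reg z Y (t + 1) n) (hq : q.Prime) (hqB : q ∉ Bad z Y (t + 1)) (hqd : q ∣ it (t + 1) n) :
    ∃ r : ℕ, r.Prime ∧ r ∉ Bad z Y t ∧ r ∣ it t n ∧ q ∣ r + 1 ∧ q < r := by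
  have h0 : it t n ≠ 0 := (Nat.succ_le_iff.1 (it_pos t n hn)).ne'
  rw [it_succ_prod h0] at hqd
  obtain ⟨r, hr, hd⟩ := (hq.prime.dvd_finsetProd_iff _).1 hqd
  obtain ⟨h1, -, h3, h4⟩ := source_core hz hY hR hq hqB hr hd
  exact ⟨r, Nat.prime_of_mem_primeFactors hr, h1, Nat.dvd_of_mem_primeFactors hr, h3, h4⟩

/-- Sources of two good primes (from `source` twice; if the two sources coincide use
coprimality of `q₁, q₂`). -/
theorem source_two {z Y t n q₁ q₂ : ℕ} (hz : 2 ≤ z) (hn : 1 ≤ n) (hY : it t n ≤ Y)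
    (hR : Reg z Y (t + 1) n) (hq₁ : q₁.Prime) (hq₂ : q₂.Prime) (hne : q₁ ≠ q₂)
    (hqB₁ : q₁ ∉ Bad z Y (t + 1)) (hqB₂ : q₂ ∉ Bad z Y (t + 1))
    (hqd₁ : q₁ ∣ it (t + 1) n) (hqd₂ : q₂ ∣ it (t + 1) n) :
    (∃ r : ℕ, r.Prime ∧ r ∉ Bad z Y t ∧ r ∣ it t n ∧ q₁ * q₂ ∣ r + 1) ∨
    (∃ r₁ r₂ : ℕ, r₁.Prime ∧ r₂.Prime ∧ r₁ ≠ r₂ ∧ r₁ ∉ Bad z Y t ∧ r₂ ∉ Bad z Y t ∧
      r₁ ∣ it t n ∧ r₂ ∣ it t n ∧ q₁ ∣ r₁ + 1 ∧ q₂ ∣ r₂ + 1) := by
  obtain ⟨r₁, p1, b1, d1, e1, -⟩ := source hz hn hY hR hq₁ hqB₁ hqd₁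
  obtain ⟨r₂, p2, b2, d2, e2, -⟩ := source hz hn hY hR hq₂ hqB₂ hqd₂
  by_cases h : r₁ = r₂
  · left
    subst h
    exact ⟨r₁, p1, b1, d1, Nat.Coprime.mul_dvd_of_dvd_of_dvd
      ((Nat.coprime_primes hq₁ hq₂).2 hne) e1 e2⟩
  · right
    exact ⟨r₁, r₂, p1, p2, h, b1, b2, d1, d2, e1, e2⟩

/-- Sources of a square.
Proof: as in `source`; either two distinct primes `r₁, r₂` have `q ∣ σ(r^{v_r})`, or only one
does, and then `q² ∣ σ(r^{v_r})` (the other factors are coprime to `q`). -/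
theorem source_sq {z Y t n q : ℕ} (hz : 2 ≤ z) (hn : 1 ≤ n) (hY : it t n ≤ Y)
    (hR : Reg z Y (t + 1) n) (hq : q.Prime) (hqB : q ∉ Bad z Y (t + 1))
    (hqd : q ^ 2 ∣ it (t + 1) n) :
    (∃ r : ℕ, r.Prime ∧ r ∉ Bad z Y t ∧ r ∣ it t n ∧ q ^ 2 ∣ r + 1) ∨
    (∃ r₁ r₂ : ℕ, r₁.Prime ∧ r₂.Prime ∧ r₁ ≠ r₂ ∧ r₁ ∉ Bad z Y t ∧ r₂ ∉ Bad z Y t ∧
      r₁ ∣ it t n ∧ r₂ ∣ it t n ∧ q ∣ r₁ + 1 ∧ q ∣ r₂ + 1) := by
  have h0 : it t n ≠ 0 := (Nat.succ_le_iff.1 (it_pos t n hn)).ne'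
  rw [it_succ_prod h0] at hqd
  have hqd1 : q ∣ ∏ r ∈ (it t n).primeFactors, sigma 1 (r ^ (it t n).factorization r) :=
    dvd_trans (dvd_pow_self q two_ne_zero) hqd
  obtain ⟨r, hr, hd⟩ := (hq.prime.dvd_finsetProd_iff _).1 hqd1
  obtain ⟨h1, h2, h3, -⟩ := source_core hz hY hR hq hqB hr hd
  by_cases hex : ∃ s ∈ (it t n).primeFactors, s ≠ r ∧
      q ∣ sigma 1 (s ^ (it t n).factorization s)
  · right
    obtain ⟨s, hs, hsr, hds⟩ := hex
    obtain ⟨g1, -, g3, -⟩ := source_core hz hY hR hq hqB hs hds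
    exact ⟨r, s, Nat.prime_of_mem_primeFactors hr, Nat.prime_of_mem_primeFactors hs,
      fun h => hsr h.symm, h1, g1, Nat.dvd_of_mem_primeFactors hr,
      Nat.dvd_of_mem_primeFactors hs, h3, g3⟩
  · left
    refine ⟨r, Nat.prime_of_mem_primeFactors hr, h1, Nat.dvd_of_mem_primeFactors hr, ?_⟩
    rw [← Finset.mul_prod_erase _ _ hr] at hqd
    have hcop : Nat.Coprime (q ^ 2) (∏ s ∈ (it t n).primeFactors.erase r,
        sigma 1 (s ^ (it t n).factorization s)) := by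
      apply Nat.Coprime.pow_left
      rw [Nat.Prime.coprime_iff_not_dvd hq]
      intro hdiv
      obtain ⟨s, hs, hds⟩ := (hq.prime.dvd_finsetProd_iff _).1 hdiv
      rw [Finset.mem_erase] at hs
      exact hex ⟨s, hs.2, hs.1, hds⟩
    have := hcop.dvd_of_dvd_mul_right hqd
    rw [h2, sigma_one_apply_prime_pow (Nat.prime_of_mem_primeFactors hr)] at this
    simpa [Finset.sum_range_succ, add_comm] using this

end Pool.Agent.W_9df192_h86
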