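import Pool.Agent.W_9df192_h86.B2

set_option autoImplicit false

/-! B3: the chain down to `n`. -/

namespace Pool.Agent.W_9df192_h86

open ArithmeticFunction

/-- Chain: a good prime of level `t` leads to a prime factor of `n` which is larger (induction on
`t` with `source`). -/
theorem chain {z Y n : ℕ} (hz : 2 ≤ z) (hn : 1 ≤ n) (t : ℕ) :
    (∀ i, i < t → it i n ≤ Y) → Reg z Y t n → ∀ q : ℕ, q.Prime → q ∉ Bad z Y t → q ∣ it t n →
    ∃ r : ℕ, r.Prime ∧ r ∣ n ∧ q ≤ r ∧ (1 ≤ t → q < r) := by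
  induction t with
  | zero =>
    intro _ _ q hq _ hqd
    exact ⟨q, hq, hqd, le_refl q, fun h => absurd h (by omega)⟩
  | succ t ih =>
    intro hY hR q hq hqB hqd
    obtain ⟨r, hr, hrB, hrd, -, hqr⟩ := source hz hn (hY t (Nat.lt_succ_self t)) hR hq hqB hqd
    obtain ⟨p, hp, hpd, hle, -⟩ := ih (fun i hi => hY i (by omega))
      (fun i hi => hR i (by omega)) r hr hrB hrd
    exact ⟨p, hp, hpd, by omega, fun _ => by omega⟩

/-- Conclusion: if `n` is regular and its largest prime factor `p` is not bad then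
`n ∤ it j n` for `1 ≤ j ≤ M`. -/
theorem not_dvd {z Y n M p j : ℕ} (hz : 2 ≤ z) (hn : 1 ≤ n) (hY : ∀ i, i < M → it i n ≤ Y)
    (hR : Reg z Y M n) (hp : p.Prime) (hpn : p ∣ n) (hmax : ∀ q : ℕ, q.Prime → q ∣ n → q ≤ p)
    (hpB : p ∉ Bad z Y M) (hj : 1 ≤ j) (hjM : j ≤ M) : ¬ n ∣ it j n := by
  intro hd
  obtain ⟨r, hr, hrn, -, hlt⟩ := chain hz hn j (fun i hi => hY i (by omega))
    (fun i hi => hR i (by omega)) p hp (fun h => hpB (Bad_mono hjM h)) (dvd_trans hpn hd)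
  have h1 := hlt hj
  have h2 := hmax r hr hrn
  omega

end Pool.Agent.W_9df192_h86
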