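import Mathlib

set_option autoImplicit false

/-! B4: sums over residue classes. -/

namespace Pool.Agent.W_9df192_h86

/-- For `s > 0` there is `A ≥ 1` with `∑_{r ≤ N, D ∣ r + 1} r^(-(1+s)) ≤ A D^(-(1+s))` for all `D ≥ 2`.
Proof: `r = c D - 1 ≥ c D / 2`, so the sum is `≤ 2^(1+s) D^(-(1+s)) ∑_{c ≥ 1} c^(-(1+s))`
(`Real.summable_nat_rpow`...). -/
theorem sum_class (s : ℝ) (hs : 0 < s) : ∃ A : ℝ, 1 ≤ A ∧ ∀ D N : ℕ, 2 ≤ D →
    ∑ r ∈ (Finset.Icc 1 N).filter (fun r => D ∣ r + 1), (r : ℝ) ^ (-(1 + s)) ≤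
      A * (D : ℝ) ^ (-(1 + s)) := by
  have hsum : Summable (fun c : ℕ => (c : ℝ) ^ (-(1 + s))) := by
    rw [Real.summable_nat_rpow]
    linarith
  refine ⟨max 1 ((2 : ℝ) ^ (1 + s) * ∑' c : ℕ, (c : ℝ) ^ (-(1 + s))), le_max_left _ _, ?_⟩
  intro D N hD
  have hD0 : (0 : ℝ) < (D : ℝ) := by positivity
  have hDp : (0 : ℝ) < (D : ℝ) ^ (-(1 + s)) := Real.rpow_pos_of_pos hD0 _
  set F := (Finset.Icc 1 N).filter (fun r => D ∣ r + 1) with hF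
  have hinj : Set.InjOn (fun r : ℕ => (r + 1) / D) (F : Set ℕ) := by
    intro a ha b hb hab
    have ha' : D ∣ a + 1 := (Finset.mem_filter.mp (Finset.mem_coe.mp ha)).2
    have hb' : D ∣ b + 1 := (Finset.mem_filter.mp (Finset.mem_coe.mp hb)).2
    have h1 : (a + 1) / D = (b + 1) / D := hab
    have h2 : a + 1 = b + 1 := by
      rw [← Nat.div_mul_cancel ha', ← Nat.div_mul_cancel hb', h1]
    omega
  have hterm : ∀ r ∈ F, (r : ℝ) ^ (-(1 + s)) ≤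
      ((2 : ℝ) ^ (1 + s) * (D : ℝ) ^ (-(1 + s))) * (((r + 1) / D : ℕ) : ℝ) ^ (-(1 + s)) := by
    intro r hr
    obtain ⟨hr1, hr2⟩ := Finset.mem_filter.mp hr
    obtain ⟨hr1, -⟩ := Finset.mem_Icc.mp hr1
    obtain ⟨c, hc⟩ := hr2
    have hdiv : (r + 1) / D = c := by
      rw [hc]; exact Nat.mul_div_cancel_left c (by omega)
    rw [hdiv]
    have hc0 : 0 < c := by
      rcases Nat.eq_zero_or_pos c with h | h
      · subst h; simp at hc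
      · exact h
    have hcR : (0 : ℝ) < (c : ℝ) := by exact_mod_cast hc0
    have hcd : (r : ℝ) + 1 = (D : ℝ) * c := by exact_mod_cast hc
    have hr1' : (1 : ℝ) ≤ (r : ℝ) := by exact_mod_cast hr1
    have hle : (2 : ℝ)⁻¹ * ((D : ℝ) * c) ≤ r := by
      rw [← hcd]; linarith
    have hpos : (0 : ℝ) < (2 : ℝ)⁻¹ * ((D : ℝ) * c) := by positivity
    calc (r : ℝ) ^ (-(1 + s)) ≤ ((2 : ℝ)⁻¹ * ((D : ℝ) * c)) ^ (-(1 + s)) :=
          Real.rpow_le_rpow_of_nonpos hpos hle (by linarith)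
      _ = ((2 : ℝ) ^ (1 + s) * (D : ℝ) ^ (-(1 + s))) * (c : ℝ) ^ (-(1 + s)) := by
          rw [Real.mul_rpow (by positivity) (by positivity),
            Real.mul_rpow hD0.le hcR.le, Real.inv_rpow (by norm_num : (0:ℝ) ≤ 2),
            Real.rpow_neg (by norm_num : (0:ℝ) ≤ 2), inv_inv]
          ring
  calc ∑ r ∈ F, (r : ℝ) ^ (-(1 + s))
      ≤ ∑ r ∈ F, ((2 : ℝ) ^ (1 + s) * (D : ℝ) ^ (-(1 + s))) *
          (((r + 1) / D : ℕ) : ℝ) ^ (-(1 + s)) := Finset.sum_le_sum hterm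
    _ = ((2 : ℝ) ^ (1 + s) * (D : ℝ) ^ (-(1 + s))) *
          ∑ r ∈ F, (((r + 1) / D : ℕ) : ℝ) ^ (-(1 + s)) := by rw [Finset.mul_sum]
    _ = ((2 : ℝ) ^ (1 + s) * (D : ℝ) ^ (-(1 + s))) *
          ∑ c ∈ F.image (fun r : ℕ => (r + 1) / D), ((c : ℕ) : ℝ) ^ (-(1 + s)) := by
        rw [Finset.sum_image hinj]
    _ ≤ ((2 : ℝ) ^ (1 + s) * (D : ℝ) ^ (-(1 + s))) * ∑' c : ℕ, (c : ℝ) ^ (-(1 + s)) := by
        refine mul_le_mul_of_nonneg_left ?_ (by positivity)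
        exact hsum.sum_le_tsum _ (fun c _ => Real.rpow_nonneg (Nat.cast_nonneg c) _)
    _ = ((2 : ℝ) ^ (1 + s) * ∑' c : ℕ, (c : ℝ) ^ (-(1 + s))) * (D : ℝ) ^ (-(1 + s)) := by ring
    _ ≤ max 1 ((2 : ℝ) ^ (1 + s) * ∑' c : ℕ, (c : ℝ) ^ (-(1 + s))) * (D : ℝ) ^ (-(1 + s)) :=
        mul_le_mul_of_nonneg_right (le_max_right _ _) hDp.le

/-- `#{n ≤ x : D ∣ n} ≤ x^(1+s) D^(-(1+s))` (it is `⌊x/D⌋`, `0` if `D > x`). -/
theorem count_dvd (s : ℝ) (hs : 0 < s) (x D : ℕ) (hD : 1 ≤ D) :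
    (((Finset.Icc 1 x).filter (fun n => D ∣ n)).card : ℝ) ≤
      (x : ℝ) ^ (1 + s) * (D : ℝ) ^ (-(1 + s)) := by
  have hcard : ((Finset.Icc 1 x).filter (fun n => D ∣ n)).card = x / D := by
    have h := Nat.Ioc_filter_dvd_card_eq_div x D
    have hI : Finset.Icc 1 x = Finset.Ioc 0 x := by
      ext a; simp only [Finset.mem_Icc, Finset.mem_Ioc]; omega
    rw [hI]; exact h
  rw [hcard]
  have hD0 : (0 : ℝ) < (D : ℝ) := by exact_mod_cast hD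
  have hR : (x : ℝ) ^ (1 + s) * (D : ℝ) ^ (-(1 + s)) = ((x : ℝ) / D) ^ (1 + s) := by
    rw [Real.div_rpow (Nat.cast_nonneg x) hD0.le, Real.rpow_neg hD0.le, div_eq_mul_inv]
  rw [hR]
  rcases Nat.lt_or_ge x D with h | h
  · rw [Nat.div_eq_of_lt h, Nat.cast_zero]
    exact Real.rpow_nonneg (by positivity) _
  · have h1 : (1 : ℝ) ≤ (x : ℝ) / D := by
      rw [one_le_div hD0]; exact_mod_cast h
    calc ((x / D : ℕ) : ℝ) ≤ (x : ℝ) / D := Nat.cast_div_le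
      _ = ((x : ℝ) / D) ^ (1 : ℝ) := (Real.rpow_one _).symm
      _ ≤ ((x : ℝ) / D) ^ (1 + s) := Real.rpow_le_rpow_of_exponent_le h1 (by linarith)

/-- `∑_{q > z} q^(-2) ≤ 1/z`, finite form. -/
theorem sum_inv_sq (z N : ℕ) (hz : 1 ≤ z) :
    ∑ q ∈ Finset.Ioc z N, ((q : ℝ) ^ 2)⁻¹ ≤ 1 / z := by
  rcases Nat.lt_or_ge N z with h | h
  · rw [Finset.Ioc_eq_empty_of_le h.le, Finset.sum_empty]
    positivity
  · have h1 : ∑ i ∈ Finset.Ioc z N, ((i : ℝ) ^ 2)⁻¹ ≤ (z : ℝ)⁻¹ - (N : ℝ)⁻¹ :=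
      sum_Ioc_inv_sq_le_sub (by omega) h
    have h2 : (0 : ℝ) ≤ (N : ℝ)⁻¹ := by positivity
    rw [one_div]
    linarith

end Pool.Agent.W_9df192_h86
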