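import Pool.Agent.W_9df192_h86.B2
import Pool.Agent.W_9df192_h86.B4

set_option autoImplicit false

/-! B5: counting `n ≤ x` with given good divisors of `it t n`. -/

namespace Pool.Agent.W_9df192_h86

open ArithmeticFunction

/-- The hypothesis on `A` (output of `sum_class`). -/
def ClassBd (s A : ℝ) : Prop := 0 < s ∧ 1 ≤ A ∧ ∀ D N : ℕ, 2 ≤ D →
    ∑ r ∈ (Finset.Icc 1 N).filter (fun r => D ∣ r + 1), (r : ℝ) ^ (-(1 + s)) ≤
      A * (D : ℝ) ^ (-(1 + s))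

/-- One good prime. Induction on `t`: `t = 0` is `count_dvd`.  Step: by `source` the set for
`(t+1, q)` is covered by the sets for `(t, r)`, `r ∈ Icc 1 Y` prime, `r ∉ Bad t`, `q ∣ r + 1`. -/
theorem count_one {s A : ℝ} (hA : ClassBd s A) {z Y x : ℕ} (hz : 2 ≤ z) (t : ℕ)
    (hY : ∀ n, 1 ≤ n → n ≤ x → ∀ i, i < t → it i n ≤ Y) (S : Finset ℕ) (q : ℕ) (hq : q.Prime)
    (hqB : q ∉ Bad z Y t)
    (hS : ∀ n ∈ S, 1 ≤ n ∧ n ≤ x ∧ Reg z Y t n ∧ q ∣ it t n) :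
    (S.card : ℝ) ≤ (x : ℝ) ^ (1 + s) * A ^ t * (q : ℝ) ^ (-(1 + s)) := by
  classical
  obtain ⟨hs, hA1, hcl⟩ := hA
  have hX : (0 : ℝ) ≤ (x : ℝ) ^ (1 + s) := Real.rpow_nonneg (Nat.cast_nonneg x) _
  have hA0 : (0 : ℝ) ≤ A := by linarith
  induction t generalizing S q with
  | zero =>
    have hsub : S ⊆ (Finset.Icc 1 x).filter (fun n => q ∣ n) := by
      intro n hn
      obtain ⟨h1, h2, _, h4⟩ := hS n hn
      rw [it_zero] at h4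
      exact Finset.mem_filter.2 ⟨Finset.mem_Icc.2 ⟨h1, h2⟩, h4⟩
    have h1 : (S.card : ℝ) ≤ (((Finset.Icc 1 x).filter (fun n => q ∣ n)).card : ℝ) := by
      exact_mod_cast Finset.card_le_card hsub
    have h2 := count_dvd s hs x q hq.one_le
    rw [pow_zero, mul_one]
    exact h1.trans h2
  | succ t ih =>
    have hq2 : 2 ≤ q := hq.two_le
    have hsub : S ⊆ ((Finset.Icc 1 Y).filter (fun r => q ∣ r + 1)).biUnion
        (fun r => S.filter (fun n => r.Prime ∧ r ∉ Bad z Y t ∧ r ∣ it t n)) := by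
      intro n hn
      obtain ⟨h1, h2, h3, h4⟩ := hS n hn
      have hY' := hY n h1 h2 t (Nat.lt_succ_self t)
      obtain ⟨r, hr, hrB, hrd, hqr, _⟩ := source hz h1 hY' h3 hq hqB h4
      have hrY : r ≤ Y := (Nat.le_of_dvd (it_pos t n h1) hrd).trans hY'
      exact Finset.mem_biUnion.2 ⟨r, Finset.mem_filter.2
        ⟨Finset.mem_Icc.2 ⟨hr.one_le, hrY⟩, hqr⟩, Finset.mem_filter.2 ⟨hn, hr, hrB, hrd⟩⟩
    have hcard : (S.card : ℝ) ≤ ∑ r ∈ (Finset.Icc 1 Y).filter (fun r => q ∣ r + 1),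
        ((S.filter (fun n => r.Prime ∧ r ∉ Bad z Y t ∧ r ∣ it t n)).card : ℝ) := by
      have := (Finset.card_le_card hsub).trans Finset.card_biUnion_le
      exact_mod_cast this
    have hterm : ∀ r ∈ (Finset.Icc 1 Y).filter (fun r => q ∣ r + 1),
        ((S.filter (fun n => r.Prime ∧ r ∉ Bad z Y t ∧ r ∣ it t n)).card : ℝ) ≤
          (x : ℝ) ^ (1 + s) * A ^ t * (r : ℝ) ^ (-(1 + s)) := by
      intro r _
      by_cases hr : r.Prime ∧ r ∉ Bad z Y t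
      · refine ih (fun n h1 h2 i hi => hY n h1 h2 i (Nat.lt_succ_of_lt hi)) _ r hr.1 hr.2 ?_
        intro n hn
        obtain ⟨hn1, hn2⟩ := Finset.mem_filter.1 hn
        obtain ⟨h1, h2, h3, _⟩ := hS n hn1
        exact ⟨h1, h2, Reg_mono (Nat.le_succ t) h3, hn2.2.2⟩
      · have : S.filter (fun n => r.Prime ∧ r ∉ Bad z Y t ∧ r ∣ it t n) = ∅ := by
          refine Finset.filter_eq_empty_iff.2 ?_
          intro n _ hn
          exact hr ⟨hn.1, hn.2.1⟩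
        rw [this, Finset.card_empty, Nat.cast_zero]
        positivity
    have hsum := hcl q Y hq2
    calc (S.card : ℝ) ≤ _ := hcard
      _ ≤ ∑ r ∈ (Finset.Icc 1 Y).filter (fun r => q ∣ r + 1),
          (x : ℝ) ^ (1 + s) * A ^ t * (r : ℝ) ^ (-(1 + s)) := Finset.sum_le_sum hterm
      _ = (x : ℝ) ^ (1 + s) * A ^ t * ∑ r ∈ (Finset.Icc 1 Y).filter (fun r => q ∣ r + 1),
          (r : ℝ) ^ (-(1 + s)) := by rw [Finset.mul_sum]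
      _ ≤ (x : ℝ) ^ (1 + s) * A ^ t * (A * (q : ℝ) ^ (-(1 + s))) :=
          mul_le_mul_of_nonneg_left hsum (by positivity)
      _ = (x : ℝ) ^ (1 + s) * A ^ (t + 1) * (q : ℝ) ^ (-(1 + s)) := by ring

/-- Two good primes. Induction on `t`: `t = 0`: `q₁ q₂ ∣ n`, `count_dvd`.  Step: by `source_two`,
covered by the sets of `count_one` at `(t, r)`, `q₁ q₂ ∣ r + 1`, and the sets for `(t, r₁, r₂)`,
`q₁ ∣ r₁ + 1`, `q₂ ∣ r₂ + 1`; sums: `X A^t A (q₁q₂)^(-(1+s)) + (t+1) X A^(2t) A² (q₁q₂)^(-(1+s))`. -/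
theorem count_two {s A : ℝ} (hA : ClassBd s A) {z Y x : ℕ} (hz : 2 ≤ z) (t : ℕ)
    (hY : ∀ n, 1 ≤ n → n ≤ x → ∀ i, i < t → it i n ≤ Y) (S : Finset ℕ) (q₁ q₂ : ℕ)
    (hq₁ : q₁.Prime) (hq₂ : q₂.Prime) (hne : q₁ ≠ q₂) (hqB₁ : q₁ ∉ Bad z Y t)
    (hqB₂ : q₂ ∉ Bad z Y t)
    (hS : ∀ n ∈ S, 1 ≤ n ∧ n ≤ x ∧ Reg z Y t n ∧ q₁ ∣ it t n ∧ q₂ ∣ it t n) :
    (S.card : ℝ) ≤ (t + 1) * ((x : ℝ) ^ (1 + s) * A ^ (2 * t) * ((q₁ : ℝ) * q₂) ^ (-(1 + s))) := by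
  classical
  have hAA := hA
  obtain ⟨hs, hA1, hcl⟩ := hA
  have hX : (0 : ℝ) ≤ (x : ℝ) ^ (1 + s) := Real.rpow_nonneg (Nat.cast_nonneg x) _
  have hA0 : (0 : ℝ) ≤ A := by linarith
  induction t generalizing S q₁ q₂ with
  | zero =>
    have hcop : Nat.Coprime q₁ q₂ := (Nat.coprime_primes hq₁ hq₂).2 hne
    have hsub : S ⊆ (Finset.Icc 1 x).filter (fun n => q₁ * q₂ ∣ n) := by
      intro n hn
      obtain ⟨h1, h2, _, h4, h5⟩ := hS n hn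
      rw [it_zero] at h4 h5
      exact Finset.mem_filter.2 ⟨Finset.mem_Icc.2 ⟨h1, h2⟩, hcop.mul_dvd_of_dvd_of_dvd h4 h5⟩
    have h1 : (S.card : ℝ) ≤ (((Finset.Icc 1 x).filter (fun n => q₁ * q₂ ∣ n)).card : ℝ) := by
      exact_mod_cast Finset.card_le_card hsub
    have h2 := count_dvd s hs x (q₁ * q₂) (Nat.mul_pos hq₁.pos hq₂.pos)
    push_cast at h2
    simpa using h1.trans h2
  | succ t ih =>
    have hq12 : 2 ≤ q₁ * q₂ := le_trans hq₁.two_le (Nat.le_mul_of_pos_right _ hq₂.pos)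
    set R := (Finset.Icc 1 Y).filter (fun r => q₁ * q₂ ∣ r + 1) with hR
    set R₁ := (Finset.Icc 1 Y).filter (fun r => q₁ ∣ r + 1) with hR₁
    set R₂ := (Finset.Icc 1 Y).filter (fun r => q₂ ∣ r + 1) with hR₂
    have hsub : S ⊆ (R.biUnion
        (fun r => S.filter (fun n => r.Prime ∧ r ∉ Bad z Y t ∧ r ∣ it t n))) ∪
        ((R₁ ×ˢ R₂).biUnion (fun r => S.filter (fun n => r.1.Prime ∧ r.2.Prime ∧ r.1 ≠ r.2 ∧
          r.1 ∉ Bad z Y t ∧ r.2 ∉ Bad z Y t ∧ r.1 ∣ it t n ∧ r.2 ∣ it t n))) := by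
      intro n hn
      obtain ⟨h1, h2, h3, h4, h5⟩ := hS n hn
      have hY' := hY n h1 h2 t (Nat.lt_succ_self t)
      rcases source_two hz h1 hY' h3 hq₁ hq₂ hne hqB₁ hqB₂ h4 h5 with
        ⟨r, hr, hrB, hrd, hqr⟩ | ⟨r₁, r₂, hr₁, hr₂, hrne, hrB₁, hrB₂, hrd₁, hrd₂, hqr₁, hqr₂⟩
      · have hrY : r ≤ Y := (Nat.le_of_dvd (it_pos t n h1) hrd).trans hY'
        exact Finset.mem_union_left _ (Finset.mem_biUnion.2 ⟨r, Finset.mem_filter.2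
          ⟨Finset.mem_Icc.2 ⟨hr.one_le, hrY⟩, hqr⟩, Finset.mem_filter.2 ⟨hn, hr, hrB, hrd⟩⟩)
      · have hrY₁ : r₁ ≤ Y := (Nat.le_of_dvd (it_pos t n h1) hrd₁).trans hY'
        have hrY₂ : r₂ ≤ Y := (Nat.le_of_dvd (it_pos t n h1) hrd₂).trans hY'
        refine Finset.mem_union_right _ (Finset.mem_biUnion.2 ⟨(r₁, r₂), ?_, ?_⟩)
        · exact Finset.mem_product.2 ⟨Finset.mem_filter.2
            ⟨Finset.mem_Icc.2 ⟨hr₁.one_le, hrY₁⟩, hqr₁⟩, Finset.mem_filter.2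
            ⟨Finset.mem_Icc.2 ⟨hr₂.one_le, hrY₂⟩, hqr₂⟩⟩
        · exact Finset.mem_filter.2 ⟨hn, hr₁, hr₂, hrne, hrB₁, hrB₂, hrd₁, hrd₂⟩
    have hcard : (S.card : ℝ) ≤ (∑ r ∈ R,
        ((S.filter (fun n => r.Prime ∧ r ∉ Bad z Y t ∧ r ∣ it t n)).card : ℝ)) +
        ∑ r ∈ R₁ ×ˢ R₂, ((S.filter (fun n => r.1.Prime ∧ r.2.Prime ∧ r.1 ≠ r.2 ∧
          r.1 ∉ Bad z Y t ∧ r.2 ∉ Bad z Y t ∧ r.1 ∣ it t n ∧ r.2 ∣ it t n)).card : ℝ) := by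
      have h := (Finset.card_le_card hsub).trans (Finset.card_union_le _ _)
      have h' := h.trans (Nat.add_le_add Finset.card_biUnion_le Finset.card_biUnion_le)
      exact_mod_cast h'
    have hterm1 : ∀ r ∈ R,
        ((S.filter (fun n => r.Prime ∧ r ∉ Bad z Y t ∧ r ∣ it t n)).card : ℝ) ≤
          (x : ℝ) ^ (1 + s) * A ^ t * (r : ℝ) ^ (-(1 + s)) := by
      intro r _
      by_cases hr : r.Prime ∧ r ∉ Bad z Y t
      · refine count_one hAA hz t (fun n h1 h2 i hi => hY n h1 h2 i (Nat.lt_succ_of_lt hi))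
          _ r hr.1 hr.2 ?_
        intro n hn
        obtain ⟨hn1, hn2⟩ := Finset.mem_filter.1 hn
        obtain ⟨h1, h2, h3, _⟩ := hS n hn1
        exact ⟨h1, h2, Reg_mono (Nat.le_succ t) h3, hn2.2.2⟩
      · have : S.filter (fun n => r.Prime ∧ r ∉ Bad z Y t ∧ r ∣ it t n) = ∅ := by
          refine Finset.filter_eq_empty_iff.2 ?_
          intro n _ hn
          exact hr ⟨hn.1, hn.2.1⟩
        rw [this, Finset.card_empty, Nat.cast_zero]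
        positivity
    have hterm2 : ∀ r ∈ R₁ ×ˢ R₂,
        ((S.filter (fun n => r.1.Prime ∧ r.2.Prime ∧ r.1 ≠ r.2 ∧
          r.1 ∉ Bad z Y t ∧ r.2 ∉ Bad z Y t ∧ r.1 ∣ it t n ∧ r.2 ∣ it t n)).card : ℝ) ≤
          (t + 1) * ((x : ℝ) ^ (1 + s) * A ^ (2 * t)) *
            ((r.1 : ℝ) ^ (-(1 + s)) * (r.2 : ℝ) ^ (-(1 + s))) := by
      intro r _
      by_cases hr : r.1.Prime ∧ r.2.Prime ∧ r.1 ≠ r.2 ∧ r.1 ∉ Bad z Y t ∧ r.2 ∉ Bad z Y t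
      · obtain ⟨ha, hb, hc, hd, he⟩ := hr
        have h := ih (fun n h1 h2 i hi => hY n h1 h2 i (Nat.lt_succ_of_lt hi))
          (S.filter (fun n => r.1.Prime ∧ r.2.Prime ∧ r.1 ≠ r.2 ∧
            r.1 ∉ Bad z Y t ∧ r.2 ∉ Bad z Y t ∧ r.1 ∣ it t n ∧ r.2 ∣ it t n))
          r.1 r.2 ha hb hc hd he ?_
        · rw [Real.mul_rpow (Nat.cast_nonneg _) (Nat.cast_nonneg _)] at h
          calc _ ≤ _ := h
            _ = _ := by ring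
        · intro n hn
          obtain ⟨hn1, hn2⟩ := Finset.mem_filter.1 hn
          obtain ⟨h1, h2, h3, _⟩ := hS n hn1
          exact ⟨h1, h2, Reg_mono (Nat.le_succ t) h3, hn2.2.2.2.2.2.1, hn2.2.2.2.2.2.2⟩
      · have : S.filter (fun n => r.1.Prime ∧ r.2.Prime ∧ r.1 ≠ r.2 ∧
            r.1 ∉ Bad z Y t ∧ r.2 ∉ Bad z Y t ∧ r.1 ∣ it t n ∧ r.2 ∣ it t n) = ∅ := by
          refine Finset.filter_eq_empty_iff.2 ?_
          intro n _ hn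
          exact hr ⟨hn.1, hn.2.1, hn.2.2.1, hn.2.2.2.1, hn.2.2.2.2.1⟩
        rw [this, Finset.card_empty, Nat.cast_zero]
        positivity
    have hs0 := hcl (q₁ * q₂) Y hq12
    have hs1 := hcl q₁ Y hq₁.two_le
    have hs2 := hcl q₂ Y hq₂.two_le
    rw [← hR] at hs0
    rw [← hR₁] at hs1
    rw [← hR₂] at hs2
    push_cast at hs0
    have hmul : ((q₁ : ℝ) * q₂) ^ (-(1 + s)) = (q₁ : ℝ) ^ (-(1 + s)) * (q₂ : ℝ) ^ (-(1 + s)) :=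
      Real.mul_rpow (Nat.cast_nonneg _) (Nat.cast_nonneg _)
    set Q := ((q₁ : ℝ) * q₂) ^ (-(1 + s)) with hQ
    have hQ0 : 0 ≤ Q := by positivity
    have hp1 : (∑ r ∈ R, ((S.filter (fun n => r.Prime ∧ r ∉ Bad z Y t ∧ r ∣ it t n)).card : ℝ)) ≤
        (x : ℝ) ^ (1 + s) * A ^ (t + 1) * Q := by
      calc _ ≤ ∑ r ∈ R, (x : ℝ) ^ (1 + s) * A ^ t * (r : ℝ) ^ (-(1 + s)) :=
            Finset.sum_le_sum hterm1
        _ = (x : ℝ) ^ (1 + s) * A ^ t * ∑ r ∈ R, (r : ℝ) ^ (-(1 + s)) := by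
            rw [Finset.mul_sum]
        _ ≤ (x : ℝ) ^ (1 + s) * A ^ t * (A * Q) :=
            mul_le_mul_of_nonneg_left hs0 (by positivity)
        _ = _ := by ring
    have hprod : ∑ r ∈ R₁ ×ˢ R₂, ((r.1 : ℝ) ^ (-(1 + s)) * (r.2 : ℝ) ^ (-(1 + s))) =
        (∑ r ∈ R₁, (r : ℝ) ^ (-(1 + s))) * ∑ r ∈ R₂, (r : ℝ) ^ (-(1 + s)) := by
      rw [Finset.sum_mul_sum, Finset.sum_product]
    have hp2 : (∑ r ∈ R₁ ×ˢ R₂, ((S.filter (fun n => r.1.Prime ∧ r.2.Prime ∧ r.1 ≠ r.2 ∧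
          r.1 ∉ Bad z Y t ∧ r.2 ∉ Bad z Y t ∧ r.1 ∣ it t n ∧ r.2 ∣ it t n)).card : ℝ)) ≤
        (t + 1) * ((x : ℝ) ^ (1 + s) * A ^ (2 * t)) * (A ^ 2 * Q) := by
      calc _ ≤ ∑ r ∈ R₁ ×ˢ R₂, (t + 1) * ((x : ℝ) ^ (1 + s) * A ^ (2 * t)) *
            ((r.1 : ℝ) ^ (-(1 + s)) * (r.2 : ℝ) ^ (-(1 + s))) := Finset.sum_le_sum hterm2
        _ = (t + 1) * ((x : ℝ) ^ (1 + s) * A ^ (2 * t)) *
            ((∑ r ∈ R₁, (r : ℝ) ^ (-(1 + s))) * ∑ r ∈ R₂, (r : ℝ) ^ (-(1 + s))) := by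
            rw [← hprod, Finset.mul_sum]
        _ ≤ (t + 1) * ((x : ℝ) ^ (1 + s) * A ^ (2 * t)) *
            ((A * (q₁ : ℝ) ^ (-(1 + s))) * (A * (q₂ : ℝ) ^ (-(1 + s)))) := by
            refine mul_le_mul_of_nonneg_left ?_ (by positivity)
            exact mul_le_mul hs1 hs2 (Finset.sum_nonneg fun r _ => by positivity) (by positivity)
        _ = _ := by rw [hmul]; ring
    have hAp : A ^ (t + 1) ≤ A ^ (2 * (t + 1)) := pow_le_pow_right₀ hA1 (by omega)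
    have hfin : (x : ℝ) ^ (1 + s) * A ^ (t + 1) * Q ≤ (x : ℝ) ^ (1 + s) * A ^ (2 * (t + 1)) * Q :=
      mul_le_mul_of_nonneg_right (mul_le_mul_of_nonneg_left hAp hX) hQ0
    calc (S.card : ℝ) ≤ _ := hcard
      _ ≤ (x : ℝ) ^ (1 + s) * A ^ (2 * (t + 1)) * Q +
          (t + 1) * ((x : ℝ) ^ (1 + s) * A ^ (2 * t)) * (A ^ 2 * Q) :=
          add_le_add (hp1.trans hfin) hp2
      _ = ((t + 1 : ℕ) + 1) * ((x : ℝ) ^ (1 + s) * A ^ (2 * (t + 1)) * Q) := by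
          push_cast; ring

end Pool.Agent.W_9df192_h86
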