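import Pool.Agent.W_9df192_h86.B5

set_option autoImplicit false

/-! B6: irregular numbers are rare. -/

namespace Pool.Agent.W_9df192_h86

open ArithmeticFunction

/-- Squares of good primes. `t = 0`: `count_dvd` with `D = q²`. `t + 1`: `source_sq`, then
`count_one` (sum over `r`, `q² ∣ r + 1`) and `count_two` (sum over `r₁ ≠ r₂`, `q ∣ r₁ + 1, r₂ + 1`),
with `sum_class`. -/
theorem count_sq {s A : ℝ} (hA : ClassBd s A) {z Y x : ℕ} (hz : 2 ≤ z) (t : ℕ)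
    (hY : ∀ n, 1 ≤ n → n ≤ x → ∀ i, i < t → it i n ≤ Y) (S : Finset ℕ) (q : ℕ) (hq : q.Prime)
    (hqB : q ∉ Bad z Y t)
    (hS : ∀ n ∈ S, 1 ≤ n ∧ n ≤ x ∧ Reg z Y t n ∧ q ^ 2 ∣ it t n) :
    (S.card : ℝ) ≤ (t + 1) * ((x : ℝ) ^ (1 + s) * A ^ (2 * t) * ((q : ℝ) ^ 2) ^ (-(1 + s))) := by
  classical
  obtain ⟨hs, hA1, hcl⟩ := hA
  have hX : 0 ≤ (x : ℝ) ^ (1 + s) := Real.rpow_nonneg (Nat.cast_nonneg _) _
  have hA0 : 0 ≤ A := by linarith
  cases t with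
  | zero =>
    have h1 := count_dvd s hs x (q ^ 2) (Nat.one_le_pow _ _ hq.pos)
    have h2 : S.card ≤ ((Finset.Icc 1 x).filter (fun n => q ^ 2 ∣ n)).card := by
      apply Finset.card_le_card
      intro n hn
      obtain ⟨ha, hb, _, hd⟩ := hS n hn
      exact Finset.mem_filter.2 ⟨Finset.mem_Icc.2 ⟨ha, hb⟩, hd⟩
    have h3 : (S.card : ℝ) ≤ (((Finset.Icc 1 x).filter (fun n => q ^ 2 ∣ n)).card : ℝ) := by
      exact_mod_cast h2
    push_cast at h1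
    simpa using h3.trans h1
  | succ t =>
    set Q : ℝ := ((q : ℝ) ^ 2) ^ (-(1 + s)) with hQ
    have hQ0 : 0 ≤ Q := Real.rpow_nonneg (by positivity) _
    set X : ℝ := (x : ℝ) ^ (1 + s) with hXd
    obtain ⟨R1, hR1⟩ : ∃ R1 : Finset ℕ, R1 = (Finset.Icc 1 Y).filter
        (fun r => q ^ 2 ∣ r + 1) := ⟨_, rfl⟩
    obtain ⟨R2, hR2⟩ : ∃ R2 : Finset ℕ, R2 = (Finset.Icc 1 Y).filter
        (fun r => q ∣ r + 1) := ⟨_, rfl⟩
    obtain ⟨T1, hT1⟩ : ∃ T1 : ℕ → Finset ℕ, T1 = fun r => S.filter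
        (fun n => r.Prime ∧ r ∉ Bad z Y t ∧ r ∣ it t n) := ⟨_, rfl⟩
    obtain ⟨T2, hT2⟩ : ∃ T2 : ℕ → ℕ → Finset ℕ, T2 = fun r₁ r₂ => S.filter
        (fun n => r₁.Prime ∧ r₂.Prime ∧ r₁ ≠ r₂ ∧ r₁ ∉ Bad z Y t ∧ r₂ ∉ Bad z Y t ∧
          r₁ ∣ it t n ∧ r₂ ∣ it t n) := ⟨_, rfl⟩
    have hcover : S ⊆ R1.biUnion T1 ∪ R2.biUnion (fun r₁ => R2.biUnion (fun r₂ => T2 r₁ r₂)) := by
      intro n hn
      obtain ⟨ha, hb, hc, hd⟩ := hS n hn
      have hYn : it t n ≤ Y := hY n ha hb t (Nat.lt_succ_self t)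
      have hpos : 1 ≤ it t n := it_pos t n ha
      have hle : ∀ r : ℕ, r.Prime → r ∣ it t n → r ∈ Finset.Icc 1 Y := fun r hr hrd =>
        Finset.mem_Icc.2 ⟨hr.one_le, (Nat.le_of_dvd hpos hrd).trans hYn⟩
      rcases source_sq hz ha hYn hc hq hqB hd with
        ⟨r, hr, hrB, hrd, hqr⟩ | ⟨r₁, r₂, hr₁, hr₂, hne, hB₁, hB₂, hd₁, hd₂, hq₁, hq₂⟩
      · apply Finset.mem_union_left
        rw [Finset.mem_biUnion]
        refine ⟨r, ?_, ?_⟩
        · rw [hR1]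
          exact Finset.mem_filter.2 ⟨hle r hr hrd, hqr⟩
        · rw [hT1]
          exact Finset.mem_filter.2 ⟨hn, hr, hrB, hrd⟩
      · apply Finset.mem_union_right
        rw [Finset.mem_biUnion]
        refine ⟨r₁, ?_, ?_⟩
        · rw [hR2]
          exact Finset.mem_filter.2 ⟨hle r₁ hr₁ hd₁, hq₁⟩
        · rw [Finset.mem_biUnion]
          refine ⟨r₂, ?_, ?_⟩
          · rw [hR2]
            exact Finset.mem_filter.2 ⟨hle r₂ hr₂ hd₂, hq₂⟩
          · rw [hT2]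
            exact Finset.mem_filter.2 ⟨hn, hr₁, hr₂, hne, hB₁, hB₂, hd₁, hd₂⟩
    have hregt : ∀ n ∈ S, 1 ≤ n ∧ n ≤ x ∧ Reg z Y t n := fun n hn =>
      ⟨(hS n hn).1, (hS n hn).2.1, Reg_mono (Nat.le_succ t) (hS n hn).2.2.1⟩
    have hY' : ∀ n, 1 ≤ n → n ≤ x → ∀ i, i < t → it i n ≤ Y :=
      fun n h1 h2 i hi => hY n h1 h2 i (Nat.lt_succ_of_lt hi)
    have hb1 : ∀ r ∈ R1, ((T1 r).card : ℝ) ≤ X * A ^ t * (r : ℝ) ^ (-(1 + s)) := by
      intro r _
      rcases (T1 r).eq_empty_or_nonempty with he | ⟨n, hn⟩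
      · rw [he, Finset.card_empty, Nat.cast_zero]
        exact mul_nonneg (mul_nonneg hX (pow_nonneg hA0 _)) (Real.rpow_nonneg (Nat.cast_nonneg _) _)
      · rw [hT1] at hn
        obtain ⟨_, hr, hrB, _⟩ := Finset.mem_filter.1 hn
        apply count_one ⟨hs, hA1, hcl⟩ hz t hY' (T1 r) r hr hrB
        intro m hm
        rw [hT1] at hm
        obtain ⟨hmS, _, _, hmd⟩ := Finset.mem_filter.1 hm
        exact ⟨(hregt m hmS).1, (hregt m hmS).2.1, (hregt m hmS).2.2, hmd⟩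
    have hb2 : ∀ r₁ ∈ R2, ∀ r₂ ∈ R2, ((T2 r₁ r₂).card : ℝ) ≤
        (t + 1) * (X * A ^ (2 * t)) * ((r₁ : ℝ) ^ (-(1 + s)) * (r₂ : ℝ) ^ (-(1 + s))) := by
      intro r₁ _ r₂ _
      rcases (T2 r₁ r₂).eq_empty_or_nonempty with he | ⟨n, hn⟩
      · rw [he, Finset.card_empty, Nat.cast_zero]
        have e1 : 0 ≤ (r₁ : ℝ) ^ (-(1 + s)) := Real.rpow_nonneg (Nat.cast_nonneg _) _
        have e2 : 0 ≤ (r₂ : ℝ) ^ (-(1 + s)) := Real.rpow_nonneg (Nat.cast_nonneg _) _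
        have e3 : 0 ≤ A ^ (2 * t) := pow_nonneg hA0 _
        positivity
      · rw [hT2] at hn
        obtain ⟨_, hr₁, hr₂, hne, hB₁, hB₂, _⟩ := Finset.mem_filter.1 hn
        have := count_two ⟨hs, hA1, hcl⟩ hz t hY' (T2 r₁ r₂) r₁ r₂ hr₁ hr₂ hne hB₁ hB₂ (by
          intro m hm
          rw [hT2] at hm
          obtain ⟨hmS, _, _, _, _, _, hmd₁, hmd₂⟩ := Finset.mem_filter.1 hm
          exact ⟨(hregt m hmS).1, (hregt m hmS).2.1, (hregt m hmS).2.2, hmd₁, hmd₂⟩)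
        rw [Real.mul_rpow (Nat.cast_nonneg _) (Nat.cast_nonneg _)] at this
        calc ((T2 r₁ r₂).card : ℝ) ≤ _ := this
          _ = _ := by ring
    have hq2 : 2 ≤ q := hq.two_le
    have hs1 : ∑ r ∈ R1, (r : ℝ) ^ (-(1 + s)) ≤ A * Q := by
      have := hcl (q ^ 2) Y (by nlinarith)
      rw [hR1]
      push_cast at this
      exact this
    have hs2 : ∑ r ∈ R2, (r : ℝ) ^ (-(1 + s)) ≤ A * (q : ℝ) ^ (-(1 + s)) := by
      rw [hR2]
      exact hcl q Y hq2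
    have hs20 : 0 ≤ ∑ r ∈ R2, (r : ℝ) ^ (-(1 + s)) :=
      Finset.sum_nonneg (fun r _ => Real.rpow_nonneg (Nat.cast_nonneg _) _)
    have hQq : Q = (q : ℝ) ^ (-(1 + s)) * (q : ℝ) ^ (-(1 + s)) := by
      rw [hQ, sq, Real.mul_rpow (Nat.cast_nonneg _) (Nat.cast_nonneg _)]
    have hc1 : ((R1.biUnion T1).card : ℝ) ≤ X * A ^ t * (A * Q) := by
      calc ((R1.biUnion T1).card : ℝ) ≤ ((∑ r ∈ R1, (T1 r).card : ℕ) : ℝ) := by
            exact_mod_cast Finset.card_biUnion_le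
        _ = ∑ r ∈ R1, ((T1 r).card : ℝ) := by push_cast; rfl
        _ ≤ ∑ r ∈ R1, X * A ^ t * (r : ℝ) ^ (-(1 + s)) := Finset.sum_le_sum hb1
        _ = X * A ^ t * ∑ r ∈ R1, (r : ℝ) ^ (-(1 + s)) := by rw [Finset.mul_sum]
        _ ≤ X * A ^ t * (A * Q) :=
            mul_le_mul_of_nonneg_left hs1 (mul_nonneg hX (pow_nonneg hA0 _))
    have hc2 : ((R2.biUnion (fun r₁ => R2.biUnion (fun r₂ => T2 r₁ r₂))).card : ℝ) ≤
        (t + 1) * (X * A ^ (2 * t)) * (A * A * Q) := by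
      have hK : 0 ≤ ((t : ℝ) + 1) * (X * A ^ (2 * t)) :=
        mul_nonneg (by positivity) (mul_nonneg hX (pow_nonneg hA0 _))
      calc ((R2.biUnion (fun r₁ => R2.biUnion (fun r₂ => T2 r₁ r₂))).card : ℝ)
          ≤ ((∑ r₁ ∈ R2, (R2.biUnion (fun r₂ => T2 r₁ r₂)).card : ℕ) : ℝ) := by
            exact_mod_cast Finset.card_biUnion_le
        _ = ∑ r₁ ∈ R2, ((R2.biUnion (fun r₂ => T2 r₁ r₂)).card : ℝ) := by push_cast; rfl
        _ ≤ ∑ r₁ ∈ R2, ∑ r₂ ∈ R2, ((T2 r₁ r₂).card : ℝ) := by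
            apply Finset.sum_le_sum
            intro r₁ _
            have : ((R2.biUnion (fun r₂ => T2 r₁ r₂)).card : ℝ) ≤
              ((∑ r₂ ∈ R2, (T2 r₁ r₂).card : ℕ) : ℝ) := by
              exact_mod_cast Finset.card_biUnion_le
            refine this.trans (le_of_eq ?_)
            push_cast
            rfl
        _ ≤ ∑ r₁ ∈ R2, ∑ r₂ ∈ R2, (t + 1) * (X * A ^ (2 * t)) *
              ((r₁ : ℝ) ^ (-(1 + s)) * (r₂ : ℝ) ^ (-(1 + s))) := by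
            apply Finset.sum_le_sum
            intro r₁ h₁
            apply Finset.sum_le_sum
            intro r₂ h₂
            exact hb2 r₁ h₁ r₂ h₂
        _ = (t + 1) * (X * A ^ (2 * t)) *
              ((∑ r ∈ R2, (r : ℝ) ^ (-(1 + s))) * (∑ r ∈ R2, (r : ℝ) ^ (-(1 + s)))) := by
            rw [Finset.sum_mul_sum, Finset.mul_sum]
            apply Finset.sum_congr rfl
            intro r₁ _
            rw [Finset.mul_sum]
        _ ≤ (t + 1) * (X * A ^ (2 * t)) *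
              ((A * (q : ℝ) ^ (-(1 + s))) * (A * (q : ℝ) ^ (-(1 + s)))) := by
            apply mul_le_mul_of_nonneg_left _ hK
            exact mul_le_mul hs2 hs2 hs20 (le_trans hs20 hs2)
        _ = _ := by rw [hQq]; ring
    have hcard : (S.card : ℝ) ≤ ((R1.biUnion T1).card : ℝ) +
        ((R2.biUnion (fun r₁ => R2.biUnion (fun r₂ => T2 r₁ r₂))).card : ℝ) := by
      have h1 := Finset.card_le_card hcover
      have h2 := h1.trans (Finset.card_union_le _ _)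
      exact_mod_cast h2
    have hpw : A ^ (t + 1) ≤ A ^ (2 * (t + 1)) := pow_le_pow_right₀ hA1 (by omega)
    have hfin : X * A ^ t * (A * Q) ≤ X * A ^ (2 * (t + 1)) * Q := by
      have : X * A ^ t * (A * Q) = X * A ^ (t + 1) * Q := by ring
      rw [this]
      exact mul_le_mul_of_nonneg_right (mul_le_mul_of_nonneg_left hpw hX) hQ0
    push_cast
    calc (S.card : ℝ) ≤ X * A ^ t * (A * Q) + (t + 1) * (X * A ^ (2 * t)) * (A * A * Q) := by
          linarith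
      _ ≤ X * A ^ (2 * (t + 1)) * Q + (t + 1) * (X * A ^ (2 * t)) * (A * A * Q) := by linarith
      _ = ((t : ℝ) + 1 + 1) * (X * A ^ (2 * (t + 1)) * Q) := by ring

/-- Irregular `n ≤ x`.  Take the least `t < M` with a violation `q`: `Reg t n`, `q ∉ Bad t`,
`q² ∣ it t n`, `z < q ≤ Y`.  Union bound with `count_sq`, `(q^2)^(-(1+s)) ≤ (q^2)⁻¹` and
`sum_inv_sq`. -/
theorem count_irreg {s A : ℝ} (hA : ClassBd s A) {z Y x M : ℕ} (hz : 2 ≤ z)
    (hY : ∀ n, 1 ≤ n → n ≤ x → ∀ i, i < M → it i n ≤ Y) (S : Finset ℕ)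
    (hS : ∀ n ∈ S, 1 ≤ n ∧ n ≤ x ∧ ¬ Reg z Y M n) :
    (S.card : ℝ) ≤ (M : ℝ) ^ 2 * (x : ℝ) ^ (1 + s) * A ^ (2 * M) / z := by
  classical
  obtain ⟨hs, hA1, hcl⟩ := hA
  have hX : 0 ≤ (x : ℝ) ^ (1 + s) := Real.rpow_nonneg (Nat.cast_nonneg _) _
  have hA0 : 0 ≤ A := by linarith
  set X : ℝ := (x : ℝ) ^ (1 + s) with hXd
  obtain ⟨T, hT⟩ : ∃ T : ℕ → ℕ → Finset ℕ, T = fun t q => S.filter
      (fun n => q.Prime ∧ q ∉ Bad z Y t ∧ Reg z Y t n ∧ q ^ 2 ∣ it t n) := ⟨_, rfl⟩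
  have hcover : S ⊆ (Finset.range M).biUnion (fun t => (Finset.Ioc z Y).biUnion (fun q => T t q)) := by
    intro n hn
    obtain ⟨ha, hb, hc⟩ := hS n hn
    have hex : ∃ i, i < M ∧ ∃ q : ℕ, q.Prime ∧ q ∉ Bad z Y i ∧ q ^ 2 ∣ it i n := by
      unfold Reg at hc
      push Not at hc
      obtain ⟨i, hi, q, h1, h2, h3⟩ := hc
      exact ⟨i, hi, q, h1, h2, h3⟩
    obtain ⟨hM, q, hqp, hqB, hqd⟩ := Nat.find_spec hex
    set t := Nat.find hex with ht
    have hreg : Reg z Y t n := by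
      intro i hi q' h1 h2 h3
      exact Nat.find_min hex hi ⟨lt_trans hi hM, q', h1, h2, h3⟩
    have hzq := gt_of_not_mem_Bad hqp hqB
    have hpos : 1 ≤ it t n := it_pos t n ha
    have hqY : q ≤ Y := by
      have h1 := Nat.le_of_dvd hpos hqd
      have h2 := hY n ha hb t hM
      have h3 : q ≤ q ^ 2 := by nlinarith [hqp.one_le]
      omega
    rw [Finset.mem_biUnion]
    refine ⟨t, Finset.mem_range.2 hM, ?_⟩
    rw [Finset.mem_biUnion]
    refine ⟨q, Finset.mem_Ioc.2 ⟨hzq, hqY⟩, ?_⟩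
    rw [hT]
    exact Finset.mem_filter.2 ⟨hn, hqp, hqB, hreg, hqd⟩
  have hb : ∀ t ∈ Finset.range M, ∀ q ∈ Finset.Ioc z Y, ((T t q).card : ℝ) ≤
      M * (X * A ^ (2 * M)) * ((q : ℝ) ^ 2)⁻¹ := by
    intro t ht q hqI
    have htM := Finset.mem_range.1 ht
    have hq0 : 1 ≤ q := by
      have := (Finset.mem_Ioc.1 hqI).1
      omega
    have hAM : 0 ≤ A ^ (2 * M) := pow_nonneg hA0 _
    rcases (T t q).eq_empty_or_nonempty with he | ⟨n, hn⟩
    · rw [he, Finset.card_empty, Nat.cast_zero]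
      positivity
    · rw [hT] at hn
      obtain ⟨_, hqp, hqB, _, _⟩ := Finset.mem_filter.1 hn
      have h1 := count_sq ⟨hs, hA1, hcl⟩ hz t
        (fun n h1 h2 i hi => hY n h1 h2 i (lt_trans hi htM)) (T t q) q hqp hqB (by
          intro m hm
          rw [hT] at hm
          obtain ⟨hmS, _, _, hr, hd⟩ := Finset.mem_filter.1 hm
          exact ⟨(hS m hmS).1, (hS m hmS).2.1, hr, hd⟩)
      have hq1 : (1 : ℝ) ≤ (q : ℝ) ^ 2 := by
        have : (1 : ℝ) ≤ q := by exact_mod_cast hq0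
        nlinarith
      have h2 : ((q : ℝ) ^ 2) ^ (-(1 + s)) ≤ ((q : ℝ) ^ 2)⁻¹ := by
        rw [← Real.rpow_neg_one ((q : ℝ) ^ 2)]
        exact Real.rpow_le_rpow_of_exponent_le hq1 (by linarith)
      have h3 : A ^ (2 * t) ≤ A ^ (2 * M) := pow_le_pow_right₀ hA1 (by omega)
      have h4 : ((t : ℝ) + 1) ≤ M := by exact_mod_cast htM
      have h5 : 0 ≤ ((q : ℝ) ^ 2) ^ (-(1 + s)) := Real.rpow_nonneg (by positivity) _
      calc ((T t q).card : ℝ) ≤ (t + 1) * (X * A ^ (2 * t) * ((q : ℝ) ^ 2) ^ (-(1 + s))) := h1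
        _ ≤ M * (X * A ^ (2 * M) * ((q : ℝ) ^ 2)⁻¹) := by
            apply mul_le_mul h4 _ (mul_nonneg (mul_nonneg hX (pow_nonneg hA0 _)) h5)
              (Nat.cast_nonneg _)
            apply mul_le_mul (mul_le_mul_of_nonneg_left h3 hX) h2 h5
              (mul_nonneg hX hAM)
        _ = _ := by ring
  have hK : 0 ≤ (M : ℝ) * (X * A ^ (2 * M)) :=
    mul_nonneg (Nat.cast_nonneg _) (mul_nonneg hX (pow_nonneg hA0 _))
  have hsum := sum_inv_sq z Y (by omega)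
  have h1 := Finset.card_le_card hcover
  calc (S.card : ℝ) ≤ (((Finset.range M).biUnion
        (fun t => (Finset.Ioc z Y).biUnion (fun q => T t q))).card : ℝ) := by exact_mod_cast h1
    _ ≤ ((∑ t ∈ Finset.range M, ((Finset.Ioc z Y).biUnion (fun q => T t q)).card : ℕ) : ℝ) := by
        exact_mod_cast Finset.card_biUnion_le
    _ = ∑ t ∈ Finset.range M, (((Finset.Ioc z Y).biUnion (fun q => T t q)).card : ℝ) := by
        push_cast; rfl
    _ ≤ ∑ t ∈ Finset.range M, ∑ q ∈ Finset.Ioc z Y, ((T t q).card : ℝ) := by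
        apply Finset.sum_le_sum
        intro t _
        have : (((Finset.Ioc z Y).biUnion (fun q => T t q)).card : ℝ) ≤
          ((∑ q ∈ Finset.Ioc z Y, (T t q).card : ℕ) : ℝ) := by
          exact_mod_cast Finset.card_biUnion_le
        refine this.trans (le_of_eq ?_)
        push_cast
        rfl
    _ ≤ ∑ t ∈ Finset.range M, ∑ q ∈ Finset.Ioc z Y,
          M * (X * A ^ (2 * M)) * ((q : ℝ) ^ 2)⁻¹ := by
        apply Finset.sum_le_sum
        intro t ht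
        apply Finset.sum_le_sum
        intro q hq
        exact hb t ht q hq
    _ = M * (M * (X * A ^ (2 * M)) * ∑ q ∈ Finset.Ioc z Y, ((q : ℝ) ^ 2)⁻¹) := by
        rw [Finset.sum_const, Finset.card_range, nsmul_eq_mul]
        congr 1
        rw [Finset.mul_sum]
    _ ≤ M * (M * (X * A ^ (2 * M)) * (1 / z)) := by
        apply mul_le_mul_of_nonneg_left _ (Nat.cast_nonneg _)
        exact mul_le_mul_of_nonneg_left hsum hK
    _ = _ := by ring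

end Pool.Agent.W_9df192_h86
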