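import Pool.Agent.W_9df192_h86.B1
import Pool.Agent.W_9df192_h86.B3
import Pool.Agent.W_9df192_h86.B6

set_option autoImplicit false

/-! B7: the finite statement. -/

namespace Pool.Agent.W_9df192_h86

open ArithmeticFunction

/-- Finite statement: the `n ≤ x` having a prime factor `> W` and `n ∣ it j n` for some
`1 ≤ j ≤ M` are few.
Proof: let `p` be the largest prime factor of `n` (`> W ≥ z`).  By `not_dvd` either `n` is not
regular (`count_irreg`) or `p ∈ Bad M`, `p > W ≥ z`; the number of `n ≤ x` divisible by such a `p` is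
`≤ ∑_{p ∈ Bad M, p > W} x / p ≤ #{p ∈ Bad M, p > z} x / W` (`card_Bad_le`). -/
theorem finite_bound {s A : ℝ} (hA : ClassBd s A) {z Y x M K L W : ℕ} (hz : 2 ≤ z)
    (hK : 2 * Y < z ^ (K + 1)) (hL : Y < 2 ^ (L + 1)) (hW : z ≤ W)
    (hY : ∀ n, 1 ≤ n → n ≤ x → ∀ i, i < M → it i n ≤ Y) (S : Finset ℕ)
    (hS : ∀ n ∈ S, 1 ≤ n ∧ n ≤ x ∧ (∃ p : ℕ, p.Prime ∧ W < p ∧ p ∣ n) ∧
      ∃ j : ℕ, 1 ≤ j ∧ j ≤ M ∧ n ∣ it j n) :
    (S.card : ℝ) ≤ (M : ℝ) ^ 2 * (x : ℝ) ^ (1 + s) * A ^ (2 * M) / z +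
      (z * L * K * (K ^ 2 + 2) ^ M : ℕ) * x / W := by
  classical
  have hz0 : 0 < W := by omega
  have hW0 : (0 : ℝ) < (W : ℝ) := by exact_mod_cast hz0
  set S1 := S.filter (fun n => ¬ Reg z Y M n) with hS1
  set S2 := S.filter (fun n => Reg z Y M n) with hS2
  have hcard : S.card = S2.card + S1.card := by
    rw [hS1, hS2]
    exact (Finset.card_filter_add_card_filter_not (fun n => Reg z Y M n)).symm
  have h1 : (S1.card : ℝ) ≤ (M : ℝ) ^ 2 * (x : ℝ) ^ (1 + s) * A ^ (2 * M) / z := by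
    apply count_irreg hA hz hY S1
    intro n hn
    obtain ⟨hnS, hnR⟩ := Finset.mem_filter.1 hn
    exact ⟨(hS n hnS).1, (hS n hnS).2.1, hnR⟩
  set P := (Bad z Y M).filter (fun q => z < q) with hP
  have hPc : P.card ≤ z * L * K * (K ^ 2 + 2) ^ M := card_Bad_le hz hK hL M
  have hcover : S2 ⊆ (P.filter (fun q => W < q)).biUnion
      (fun q => (Finset.Ioc 0 x).filter (fun n => q ∣ n)) := by
    intro n hn
    obtain ⟨hnS, hnR⟩ := Finset.mem_filter.1 hn
    obtain ⟨hn1, hnx, ⟨p₀, hp₀, hWp₀, hp₀n⟩, j, hj, hjM, hjd⟩ := hS n hnS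
    have hne : n.primeFactors.Nonempty :=
      ⟨p₀, Nat.mem_primeFactors.2 ⟨hp₀, hp₀n, by omega⟩⟩
    obtain ⟨p, hp, hmax⟩ := Finset.exists_max_image n.primeFactors id hne
    have hpp := Nat.prime_of_mem_primeFactors hp
    have hpn := Nat.dvd_of_mem_primeFactors hp
    have hmax' : ∀ q : ℕ, q.Prime → q ∣ n → q ≤ p := fun q hq hqn =>
      hmax q (Nat.mem_primeFactors.2 ⟨hq, hqn, by omega⟩)
    have hWp : W < p := lt_of_lt_of_le hWp₀ (hmax' p₀ hp₀ hp₀n)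
    have hpB : p ∈ Bad z Y M := by
      by_contra hpB
      exact not_dvd hz hn1 (hY n hn1 hnx) hnR hpp hpn hmax' hpB hj hjM hjd
    refine Finset.mem_biUnion.2 ⟨p, ?_, ?_⟩
    · exact Finset.mem_filter.2 ⟨Finset.mem_filter.2 ⟨hpB, by omega⟩, hWp⟩
    · exact Finset.mem_filter.2 ⟨Finset.mem_Ioc.2 ⟨by omega, hnx⟩, hpn⟩
  have h2 : (S2.card : ℝ) ≤ (z * L * K * (K ^ 2 + 2) ^ M : ℕ) * x / W := by
    have hle : S2.card ≤ ∑ q ∈ P.filter (fun q => W < q), x / q := by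
      refine (Finset.card_le_card hcover).trans (Finset.card_biUnion_le.trans ?_)
      apply Finset.sum_le_sum
      intro q _
      rw [Nat.Ioc_filter_dvd_card_eq_div]
    have hle' : (S2.card : ℝ) ≤ ∑ q ∈ P.filter (fun q => W < q), ((x : ℝ) / W) := by
      have h3 : (S2.card : ℝ) ≤ ((∑ q ∈ P.filter (fun q => W < q), x / q : ℕ) : ℝ) := by
        exact_mod_cast hle
      refine h3.trans ?_
      push_cast
      apply Finset.sum_le_sum
      intro q hq
      have hWq : W < q := (Finset.mem_filter.1 hq).2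
      have hWq' : (W : ℝ) ≤ (q : ℝ) := by exact_mod_cast hWq.le
      calc ((x / q : ℕ) : ℝ) ≤ (x : ℝ) / q := Nat.cast_div_le
        _ ≤ (x : ℝ) / W := div_le_div_of_nonneg_left (Nat.cast_nonneg x) hW0 hWq'
    rw [Finset.sum_const, nsmul_eq_mul] at hle'
    have hc : ((P.filter (fun q => W < q)).card : ℝ) ≤
        ((z * L * K * (K ^ 2 + 2) ^ M : ℕ) : ℝ) := by
      exact_mod_cast (Finset.card_filter_le _ _).trans hPc
    have hxW : (0 : ℝ) ≤ (x : ℝ) / W := by positivity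
    calc (S2.card : ℝ) ≤ _ := hle'
      _ ≤ ((z * L * K * (K ^ 2 + 2) ^ M : ℕ) : ℝ) * ((x : ℝ) / W) :=
          mul_le_mul_of_nonneg_right hc hxW
      _ = _ := by ring
  have h3 : (S.card : ℝ) = (S2.card : ℝ) + (S1.card : ℝ) := by
    exact_mod_cast hcard
  linarith

end Pool.Agent.W_9df192_h86
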