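import Pool.Agent.W_9df192_h86.B7
import Pool.Agent.W_9df192_h86.G2

set_option autoImplicit false

/-! B8: asymptotics. -/

namespace Pool.Agent.W_9df192_h86

open ArithmeticFunction

/-- The explicit form of `nonsmooth` for one `x`. -/
theorem nonsmooth_main {η A : ℝ} (hη : 0 < η) (hη1 : η < 1) (hA : ClassBd (η / 12) A) (x : ℕ)
    (hgrow : ∀ n : ℕ, 1 ≤ n → (n : ℝ) ≤ x → ∀ j : ℕ, (j : ℝ) ≤ Real.log x →
      (it j n : ℝ) ≤ n * (Real.log x) ^ (2 * j))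
    (hx1 : 1 ≤ x) (h3 : 1 ≤ Real.log (Real.log (Real.log x)))
    (h3A : 2 * Real.log A ≤ Real.log (Real.log (Real.log x)))
    (h2 : 6 / η + 2 ≤ Real.log (Real.log x))
    (h1 : 48 * Real.log (Real.log x) ≤ η * Real.log x) (S : Finset ℕ)
    (hS : ∀ n ∈ S, 1 ≤ n ∧ n ≤ x ∧ (∃ p : ℕ, p.Prime ∧ (x : ℝ) ^ η < p ∧ p ∣ n) ∧
      ∃ m : ℕ, 1 ≤ m ∧ (m : ℝ) ≤ η / 40 * Real.log x / Real.log (Real.log (Real.log x)) ∧
        n ∣ it m n) :
    (S.card : ℝ) ≤ (x : ℝ) ^ (1 - η / 8) := by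
  have hx0 : (0 : ℝ) < x := by exact_mod_cast hx1
  set L₁ : ℝ := Real.log x with hL₁
  set L₂ : ℝ := Real.log L₁ with hL₂
  set L₃ : ℝ := Real.log L₂ with hL₃
  have hX : (x : ℝ) = Real.exp L₁ := (Real.exp_log hx0).symm
  have hpow : ∀ y : ℝ, (x : ℝ) ^ y = Real.exp (L₁ * y) := fun y => by
    rw [Real.rpow_def_of_pos hx0]
  -- sizes
  have hη6 : 6 ≤ 6 / η := by
    rw [le_div_iff₀ hη]
    nlinarith
  have h28 : 8 ≤ L₂ := by linarith
  have h1' : 384 ≤ η * L₁ := by linarith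
  have hL₁0 : 384 ≤ L₁ := by
    by_contra hcon
    rw [not_le] at hcon
    rcases le_or_gt L₁ 0 with h | h
    · nlinarith
    · nlinarith
  have hL₁pos : 0 < L₁ := by linarith
  have hexp2 : Real.exp L₂ = L₁ := Real.exp_log hL₁pos
  have hL₂L₁ : 48 * L₂ ≤ L₁ := by nlinarith
  have hexp3 : Real.exp L₃ = L₂ := Real.exp_log (by linarith)
  have he1 : (2 : ℝ) < Real.exp 1 := by linarith [Real.exp_one_gt_d9]
  have hlog2 : (13 / 20 : ℝ) ≤ Real.log 2 := by linarith [Real.log_two_gt_d9]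
  have hA1 : 1 ≤ A := hA.2.1
  have hA0 : 0 < A := by linarith
  have hlogA : 0 ≤ Real.log A := Real.log_nonneg hA1
  -- parameters
  set M : ℕ := ⌊η / 40 * L₁ / L₃⌋₊ with hMd
  have hMnn : 0 ≤ η / 40 * L₁ / L₃ := by positivity
  have hM : (M : ℝ) ≤ η / 40 * L₁ / L₃ := Nat.floor_le hMnn
  have hM3 : (M : ℝ) * L₃ ≤ η / 40 * L₁ := by
    rwa [le_div_iff₀ (by linarith)] at hM
  have hM0 : (0 : ℝ) ≤ M := Nat.cast_nonneg M
  have hM1 : (M : ℝ) ≤ η / 40 * L₁ := by nlinarith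
  have hM2 : (M : ℝ) ≤ L₁ / 40 := by nlinarith
  set t : ℝ := Real.exp (η / 3 * L₁) with ht
  have ht0 : 0 < t := Real.exp_pos _
  have ht2 : 129 ≤ t := by
    have := Real.add_one_le_exp (η / 3 * L₁)
    linarith
  have ht3 : Real.exp (η * L₁) = t ^ 3 := by
    rw [ht, ← Real.exp_nat_mul]
    congr 1
    push_cast
    ring
  set z : ℕ := ⌈t⌉₊ with hzd
  have hz1 : t ≤ z := Nat.le_ceil t
  have hz2 : (z : ℝ) < t + 1 := Nat.ceil_lt_add_one ht0.le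
  set W : ℕ := ⌊t ^ 3⌋₊ with hWd
  have hW1 : (W : ℝ) ≤ t ^ 3 := Nat.floor_le (by positivity)
  have hW2 : t ^ 3 < W + 1 := Nat.lt_floor_add_one _
  have ht33 : t + 2 ≤ t ^ 3 := by
    have : 129 ^ 2 * t ≤ t ^ 2 * t := mul_le_mul_of_nonneg_right
      (pow_le_pow_left₀ (by norm_num) ht2 2) ht0.le
    nlinarith
  set Y : ℕ := ⌊Real.exp (L₁ * L₂)⌋₊ with hYd
  have hY1 : (Y : ℝ) ≤ Real.exp (L₁ * L₂) := Nat.floor_le (Real.exp_pos _).le
  set K : ℕ := ⌈6 * L₂ / η⌉₊ with hKd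
  have hK1 : 6 * L₂ / η ≤ K := Nat.le_ceil _
  have hK2 : (K : ℝ) < 6 * L₂ / η + 1 := Nat.ceil_lt_add_one (by positivity)
  have hK3 : (K : ℝ) ≤ L₂ ^ 2 := by
    have e1 : 6 * L₂ / η = 6 / η * L₂ := by ring
    nlinarith
  set L : ℕ := ⌈2 * L₁ * L₂⌉₊ with hLd
  have hLa : 2 * L₁ * L₂ ≤ L := Nat.le_ceil _
  have hLb : (L : ℝ) < 2 * L₁ * L₂ + 1 := Nat.ceil_lt_add_one (by positivity)
  have hLL : 0 < L₁ * L₂ := by positivity
  -- the hypotheses of `finite_bound`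
  have c1 : 2 ≤ z := by
    have : (2 : ℝ) ≤ z := by linarith
    exact_mod_cast this
  have c2 : 2 * Y < z ^ (K + 1) := by
    have : (2 : ℝ) * Y < (z : ℝ) ^ (K + 1) := by
      calc (2 : ℝ) * Y ≤ 2 * Real.exp (L₁ * L₂) := by linarith
        _ < Real.exp 1 * Real.exp (L₁ * L₂) := mul_lt_mul_of_pos_right he1 (Real.exp_pos _)
        _ = Real.exp (1 + L₁ * L₂) := by rw [Real.exp_add]
        _ ≤ Real.exp (((K + 1 : ℕ) : ℝ) * (η / 3 * L₁)) := by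
            apply Real.exp_le_exp.2
            push_cast
            have e1 : 6 * L₂ / η * (η / 3 * L₁) = 2 * (L₁ * L₂) := by field_simp; ring
            have e2 : 6 * L₂ / η * (η / 3 * L₁) ≤ K * (η / 3 * L₁) :=
              mul_le_mul_of_nonneg_right hK1 (by positivity)
            nlinarith
        _ = t ^ (K + 1) := by rw [Real.exp_nat_mul]
        _ ≤ (z : ℝ) ^ (K + 1) := pow_le_pow_left₀ ht0.le hz1 _
    exact_mod_cast this
  have c3 : Y < 2 ^ (L + 1) := by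
    have : (Y : ℝ) < (2 : ℝ) ^ (L + 1) := by
      calc (Y : ℝ) ≤ Real.exp (L₁ * L₂) := hY1
        _ < Real.exp (((L + 1 : ℕ) : ℝ) * Real.log 2) := by
            apply Real.exp_lt_exp.2
            push_cast
            have e2 : (2 * L₁ * L₂) * Real.log 2 ≤ L * Real.log 2 :=
              mul_le_mul_of_nonneg_right hLa (by linarith)
            have e3 : (2 * L₁ * L₂) * (13 / 20) ≤ (2 * L₁ * L₂) * Real.log 2 :=
              mul_le_mul_of_nonneg_left hlog2 (by positivity)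
            nlinarith
        _ = (2 : ℝ) ^ (L + 1) := by
            rw [Real.exp_nat_mul, Real.exp_log (by norm_num)]
    exact_mod_cast this
  have c4 : z ≤ W := by
    have : (z : ℝ) < W + 1 := by linarith
    have h : z < W + 1 := by exact_mod_cast this
    omega
  have c5 : ∀ n, 1 ≤ n → n ≤ x → ∀ i, i < M → it i n ≤ Y := by
    intro n hn hnx i hi
    apply Nat.le_floor
    have hiM : (i : ℝ) ≤ M := by exact_mod_cast hi.le
    have hnx' : (n : ℝ) ≤ x := by exact_mod_cast hnx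
    have e1 := hgrow n hn hnx' i (by linarith)
    calc (it i n : ℝ) ≤ n * L₁ ^ (2 * i) := e1
      _ ≤ x * L₁ ^ (2 * M) := by
          apply mul_le_mul hnx' _ (by positivity) hx0.le
          exact pow_le_pow_right₀ (by linarith) (by omega)
      _ = Real.exp (L₁ + ((2 * M : ℕ) : ℝ) * L₂) := by
          rw [Real.exp_add, Real.exp_nat_mul, hexp2, ← hX]
      _ ≤ Real.exp (L₁ * L₂) := by
          apply Real.exp_le_exp.2
          push_cast
          have e2 : (M : ℝ) * L₂ ≤ L₁ / 40 * L₂ := mul_le_mul_of_nonneg_right hM2 (by linarith)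
          nlinarith
  have c6 : ∀ n ∈ S, 1 ≤ n ∧ n ≤ x ∧ (∃ p : ℕ, p.Prime ∧ W < p ∧ p ∣ n) ∧
      ∃ j : ℕ, 1 ≤ j ∧ j ≤ M ∧ n ∣ it j n := by
    intro n hn
    obtain ⟨g1, g2, ⟨p, hp, hpx, hpn⟩, m, hm1, hm2, hm3⟩ := hS n hn
    refine ⟨g1, g2, ⟨p, hp, ?_, hpn⟩, m, hm1, Nat.le_floor hm2, hm3⟩
    rw [hpow, mul_comm, ht3] at hpx
    have : (W : ℝ) < p := lt_of_le_of_lt hW1 hpx
    exact_mod_cast this
  have key := finite_bound hA c1 c2 c3 c4 c5 S c6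
  -- first term
  have f1 : (M : ℝ) ^ 2 * (x : ℝ) ^ (1 + η / 12) * A ^ (2 * M) / z ≤
      Real.exp (L₁ * (1 - η / 6)) := by
    have g1 : (M : ℝ) ^ 2 ≤ Real.exp (2 * L₂) := by
      have : Real.exp (2 * L₂) = L₁ ^ 2 := by
        rw [← hexp2, ← Real.exp_nat_mul]
        norm_num
      rw [this]
      exact pow_le_pow_left₀ hM0 (by linarith) 2
    have g2 : A ^ (2 * M) ≤ Real.exp (η / 40 * L₁) := by
      have : A ^ (2 * M) = Real.exp (((2 * M : ℕ) : ℝ) * Real.log A) := by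
        rw [Real.exp_nat_mul, Real.exp_log hA0]
      rw [this]
      apply Real.exp_le_exp.2
      push_cast
      nlinarith
    calc (M : ℝ) ^ 2 * (x : ℝ) ^ (1 + η / 12) * A ^ (2 * M) / z
        ≤ Real.exp (2 * L₂) * Real.exp (L₁ * (1 + η / 12)) * Real.exp (η / 40 * L₁) / t := by
          rw [hpow]
          gcongr
      _ = Real.exp (2 * L₂ + L₁ * (1 + η / 12) + η / 40 * L₁ - η / 3 * L₁) := by
          rw [Real.exp_sub, Real.exp_add, Real.exp_add]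
      _ ≤ Real.exp (L₁ * (1 - η / 6)) := by
          apply Real.exp_le_exp.2
          nlinarith
  -- second term
  have f2 : ((z * L * K * (K ^ 2 + 2) ^ M : ℕ) : ℝ) * x / W ≤ Real.exp (L₁ * (1 - η / 6)) := by
    have g1 : (z : ℝ) ≤ 2 * t := by linarith
    have g2 : (L : ℝ) ≤ L₁ ^ 2 := by nlinarith
    have g3 : (K : ℝ) ≤ L₁ ^ 2 := hK3.trans (pow_le_pow_left₀ (by linarith) (by linarith) 2)
    have g4 : ((K : ℝ) ^ 2 + 2) ^ M ≤ Real.exp (η / 8 * L₁) := by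
      have k1 : (K : ℝ) ^ 2 + 2 ≤ L₂ ^ 5 := by
        have k2 : (K : ℝ) ^ 2 ≤ (L₂ ^ 2) ^ 2 := pow_le_pow_left₀ (Nat.cast_nonneg _) hK3 2
        have k3 : 1 ≤ L₂ ^ 4 := one_le_pow₀ (by linarith)
        have k4 : L₂ ^ 4 * 8 ≤ L₂ ^ 4 * L₂ := mul_le_mul_of_nonneg_left h28 (by positivity)
        nlinarith
      calc ((K : ℝ) ^ 2 + 2) ^ M ≤ (L₂ ^ 5) ^ M := pow_le_pow_left₀ (by positivity) k1 M
        _ = Real.exp (((5 * M : ℕ) : ℝ) * L₃) := by
            rw [Real.exp_nat_mul, hexp3, pow_mul]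
        _ ≤ Real.exp (η / 8 * L₁) := by
            apply Real.exp_le_exp.2
            push_cast
            nlinarith
    have g5 : t ^ 3 / 2 ≤ W := by linarith
    have g6 : L₁ ^ 4 = Real.exp (4 * L₂) := by
      rw [← hexp2, ← Real.exp_nat_mul]
      norm_num
    have g7 : (4 : ℝ) ≤ Real.exp L₂ := by linarith
    calc ((z * L * K * (K ^ 2 + 2) ^ M : ℕ) : ℝ) * x / W
        = (z * L * K * ((K : ℝ) ^ 2 + 2) ^ M) * x / W := by push_cast; ring
      _ ≤ (2 * t * L₁ ^ 2 * L₁ ^ 2 * Real.exp (η / 8 * L₁)) * x / (t ^ 3 / 2) := by gcongr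
      _ = 4 * (Real.exp (4 * L₂) * t * Real.exp (η / 8 * L₁) * Real.exp L₁ / t ^ 3) := by
          rw [← g6, ← hX]
          field_simp
          ring
      _ ≤ Real.exp L₂ * (Real.exp (4 * L₂) * t * Real.exp (η / 8 * L₁) * Real.exp L₁ / t ^ 3) :=
          mul_le_mul_of_nonneg_right g7 (by positivity)
      _ = Real.exp (L₂ + (4 * L₂ + η / 3 * L₁ + η / 8 * L₁ + L₁ - η * L₁)) := by
          rw [← ht3, Real.exp_add, Real.exp_sub, Real.exp_add, Real.exp_add, Real.exp_add]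
      _ ≤ Real.exp (L₁ * (1 - η / 6)) := by
          apply Real.exp_le_exp.2
          nlinarith
  calc (S.card : ℝ) ≤ Real.exp (L₁ * (1 - η / 6)) + Real.exp (L₁ * (1 - η / 6)) :=
        key.trans (add_le_add f1 f2)
    _ = 2 * Real.exp (L₁ * (1 - η / 6)) := by ring
    _ ≤ Real.exp 1 * Real.exp (L₁ * (1 - η / 6)) :=
        mul_le_mul_of_nonneg_right he1.le (Real.exp_pos _).le
    _ = Real.exp (1 + L₁ * (1 - η / 6)) := by rw [Real.exp_add]
    _ ≤ Real.exp (L₁ * (1 - η / 8)) := by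
        apply Real.exp_le_exp.2
        nlinarith
    _ = (x : ℝ) ^ (1 - η / 8) := (hpow _).symm

/-- Numbers with a prime factor `> x^η`.
Proof: `L₁ = log x`, `L₂ = log log x`, `L₃ = log log log x`; `z = ⌈x^(η/3)⌉₊`, `W = ⌈x^η⌉₊ - 1` or
`⌊x^η⌋₊`, `s = η/12`, `A` from `sum_class`, `Y = ⌊exp (L₁ L₂)⌋₊`,
`M = ⌊c L₁ / L₃⌋₊` with `c = η/40`, `K = ⌊6 L₂ / η⌋₊ + 2 ≤ L₂²`, `L = ⌊2 L₁ L₂⌋₊ + 2`.
`growth`: `it i n ≤ x L₁^(2 i) ≤ exp (L₁ + 2 M L₂) ≤ Y`.  In `finite_bound` the first term is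
`≤ exp (L₁ (1 + η/12 - η/3) + 2 log M + 2 M log A)`, the second is
`≤ exp (L₁ (1 + η/3 - η) + log (z-rounding) + log L + log K + M log (K²+2))` and
`M log (K²+2) ≤ (c L₁/L₃) (5 L₃) ≤ 5 c L₁ = η L₁/8`.  So the total is `≤ x^(1 - η/8)`. -/
theorem nonsmooth : ∀ η : ℝ, 0 < η → η < 1 → ∃ c : ℝ, 0 < c ∧ ∃ δ : ℝ, 0 < δ ∧ ∃ x₀ : ℕ,
    ∀ x : ℕ, x₀ ≤ x → ∀ S : Finset ℕ,
    (∀ n ∈ S, 1 ≤ n ∧ n ≤ x ∧ (∃ p : ℕ, p.Prime ∧ (x : ℝ) ^ η < p ∧ p ∣ n) ∧
      ∃ m : ℕ, 1 ≤ m ∧ (m : ℝ) ≤ c * Real.log x / Real.log (Real.log (Real.log x)) ∧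
        n ∣ it m n) →
    (S.card : ℝ) ≤ (x : ℝ) ^ (1 - δ) := by
  intro η hη hη1
  obtain ⟨A, hA1, hA2⟩ := sum_class (η / 12) (by positivity)
  obtain ⟨X₀, hX₀, hgrow⟩ := growth
  have hA : ClassBd (η / 12) A := ⟨by positivity, hA1, hA2⟩
  refine ⟨η / 40, by positivity, η / 8, by positivity, ?_⟩
  have t1 : Filter.Tendsto (fun x : ℕ => Real.log (x : ℝ)) Filter.atTop Filter.atTop :=
    Real.tendsto_log_atTop.comp tendsto_natCast_atTop_atTop
  have t2 := Real.tendsto_log_atTop.comp t1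
  have t3 := Real.tendsto_log_atTop.comp t2
  have e1 := t3.eventually_ge_atTop (max 1 (2 * Real.log A))
  have e2 := t2.eventually_ge_atTop (6 / η + 2)
  have e3 : ∀ᶠ y : ℝ in Filter.atTop, 48 * Real.log y ≤ η * y := by
    have h := Real.isLittleO_log_id_atTop.bound (show 0 < η / 48 by positivity)
    filter_upwards [h, Filter.eventually_ge_atTop 0] with y hy hy0
    rw [id, Real.norm_of_nonneg hy0] at hy
    have := (le_abs_self _).trans hy
    linarith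
  have e4 := t1.eventually e3
  have e5 : ∀ᶠ x : ℕ in Filter.atTop, X₀ ≤ (x : ℝ) :=
    tendsto_natCast_atTop_atTop.eventually_ge_atTop X₀
  obtain ⟨x₀, hx₀⟩ := Filter.eventually_atTop.1 (e1.and (e2.and (e4.and
    (e5.and (Filter.eventually_ge_atTop 1)))))
  refine ⟨x₀, fun x hx S hS => ?_⟩
  obtain ⟨g1, g2, g3, g4, g5⟩ := hx₀ x hx
  exact nonsmooth_main hη hη1 hA x (hgrow x g4) g5 ((le_max_left _ _).trans g1)
    ((le_max_right _ _).trans g1) g2 g3 S hS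

end Pool.Agent.W_9df192_h86
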