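import Mathlib

set_option autoImplicit false

/-!
MP_9df192_nt, iterated divisor sums.  Common definitions.
`it j n` is the `j`-th iterate of the sum-of-divisors function.
-/

namespace Pool.Agent.W_9df192_h86

open ArithmeticFunction

/-- `it j n` is the `j`-th iterate of the sum of divisors function, applied to `n`. -/
def it (j n : ℕ) : ℕ := (fun t => sigma 1 t)^[j] n

theorem it_zero (n : ℕ) : it 0 n = n := rfl

theorem it_succ (j n : ℕ) : it (j + 1) n = sigma 1 (it j n) := by
  unfold it
  rw [Function.iterate_succ_apply']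

theorem it_pos (j n : ℕ) (hn : 1 ≤ n) : 1 ≤ it j n := by
  induction j with
  | zero => exact hn
  | succ j ih =>
    rw [it_succ]
    exact Nat.succ_le_of_lt (sigma_pos 1 _ (by omega))

theorem le_sigma (n : ℕ) : n ≤ sigma 1 n := by
  rcases Nat.eq_zero_or_pos n with h | h
  · simp [h]
  · rw [sigma_one_apply]
    exact Finset.single_le_sum (f := fun d => d) (fun d _ => Nat.zero_le d)
      (Nat.mem_divisors.2 ⟨dvd_refl n, by omega⟩)

theorem succ_le_sigma (n : ℕ) (hn : 2 ≤ n) : n + 1 ≤ sigma 1 n := by
  rw [sigma_one_apply]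
  have h1 : ({1, n} : Finset ℕ) ⊆ n.divisors := by
    intro d hd
    simp only [Finset.mem_insert, Finset.mem_singleton] at hd
    rcases hd with rfl | rfl
    · exact Nat.mem_divisors.2 ⟨one_dvd _, by omega⟩
    · exact Nat.mem_divisors.2 ⟨dvd_refl _, by omega⟩
  have h2 := Finset.sum_le_sum_of_subset (f := fun d : ℕ => d) h1
  rw [Finset.sum_pair (by omega)] at h2
  simpa [add_comm] using h2

theorem le_it (j n : ℕ) : n ≤ it j n := by
  induction j with
  | zero => exact le_refl _
  | succ j ih => rw [it_succ]; exact ih.trans (le_sigma _)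

end Pool.Agent.W_9df192_h86
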