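import Pool.Agent.W_9df192_h86.Defs

set_option autoImplicit false

/-! Growth of the iterates of `σ`. -/

namespace Pool.Agent.W_9df192_h86

open ArithmeticFunction

/-- `σ(N) ≤ N (1 + log N)`.
Proof: `sigma_eq_sum_div`: `σ(N) = ∑_{d ∣ N} N / d ≤ N * ∑_{d = 1}^{N} 1 / d = N * harmonic N` and
`harmonic_le_one_add_log`. -/
theorem sigma_le_log (N : ℕ) (hN : 1 ≤ N) :
    (sigma 1 N : ℝ) ≤ N * (1 + Real.log N) := by
  have hN0 : (0 : ℝ) ≤ N := Nat.cast_nonneg N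
  have h1 : (sigma 1 N : ℝ) ≤ ∑ d ∈ N.divisors, (N : ℝ) * (d : ℝ)⁻¹ := by
    rw [sigma_eq_sum_div]
    push_cast
    refine Finset.sum_le_sum fun d hd => ?_
    rw [pow_one, ← div_eq_mul_inv]
    exact Nat.cast_div_le
  have h2 : ∑ d ∈ N.divisors, (N : ℝ) * (d : ℝ)⁻¹ ≤ ∑ d ∈ Finset.Icc 1 N, (N : ℝ) * (d : ℝ)⁻¹ := by
    refine Finset.sum_le_sum_of_subset_of_nonneg ?_ fun d _ _ => by positivity
    intro d hd
    have hd1 := Nat.dvd_of_mem_divisors hd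
    exact Finset.mem_Icc.2 ⟨Nat.pos_of_mem_divisors hd, Nat.le_of_dvd hN hd1⟩
  have h3 : ∑ d ∈ Finset.Icc 1 N, (N : ℝ) * (d : ℝ)⁻¹ = N * (harmonic N : ℝ) := by
    rw [harmonic_eq_sum_Icc, ← Finset.mul_sum]
    push_cast
    rfl
  have h4 : ((harmonic N : ℚ) : ℝ) ≤ 1 + Real.log N := harmonic_le_one_add_log N
  calc (sigma 1 N : ℝ) ≤ N * (harmonic N : ℝ) := by linarith
    _ ≤ N * (1 + Real.log N) := mul_le_mul_of_nonneg_left h4 hN0

end Pool.Agent.W_9df192_h86
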